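import Pool.Agent.K1H20.RL.Minor

set_option linter.unusedSectionVars false
set_option linter.style.haveILetI false

namespace K1H20.RL

open Module IntermediateField IsLocalRing Pool.Agent.Helper766.Rad

variable {k : Type} [Field k] {W : Type} [AddCommGroup W] [Module k W] [FiniteDimensional k W]
  {ι : Type} [DecidableEq ι] {K : Type} [Field K] [Algebra k K]
  {v : ι → W} {N : Submodule k W} {G : Finset ι} {f : ι} {x c : ι → K}

/-- adapted coordinates -/
structure Adap (k : Type) [Field k] {K : Type} [Field K] [Algebra k K] {ι : Type}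
    (G : Finset ι) (x c : ι → K) (σ : Type) [Fintype σ] (z : σ → K) (π : K) : Prop where
  ai : AlgebraicIndependent k (fun o : Option σ => o.elim π z)
  card : Fintype.card σ + 2 = G.card
  zs : ∀ j, z j ∈ Submodule.span k (x '' (G : Set ι) ∪ c '' (G : Set ι))
  xs : ∀ i ∈ G, x i ∈ Submodule.span k ({1, π} ∪ Set.range z)
  cs : ∀ i ∈ G, c i ∈ Submodule.span k ({1, π} ∪ Set.range z)

theorem IsGen.x_ne (h : IsGen v N G f x c) {i : ι} (hi : i ∈ G) (hv : v i ∉ N) : x i ≠ 0 := by
  intro h0
  apply hv
  have h1 : (Pi.single ⟨i, hi⟩ 1 : G → k) ∈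
      (Fintype.linearCombination k (fun i : G => x i)).ker := by
    rw [LinearMap.mem_ker, Fintype.linearCombination_apply_single, h0, smul_zero]
  rw [h.ker_x] at h1
  have h2 : Fintype.linearCombination k (fun i : G => v i) (Pi.single ⟨i, hi⟩ 1) ∈ N := h1
  rwa [Fintype.linearCombination_apply_single, one_smul] at h2

theorem IsGen.c_ne (h : IsGen v N G f x c) {e : ι} (he : e ∈ G) {a : ι → k}
    (ha : v e - ∑ i ∈ G.erase e, a i • v i ∈ N) : c e ≠ 0 := by
  intro h0
  have h1 : (Pi.single ⟨e, he⟩ 1 : G → k) ∈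
      (Fintype.linearCombination k (fun i : G => c i)).ker := by
    rw [LinearMap.mem_ker, Fintype.linearCombination_apply_single, h0, smul_zero]
  rw [h.ker_c] at h1
  obtain ⟨l, hl, hl2⟩ := h1
  have hl3 : ∀ i : G, l (v i) = (Pi.single ⟨e, he⟩ 1 : G → k) i := fun i => congrFun hl2 i
  have h2 := (Submodule.mem_dualAnnihilator l).mp hl _ ha
  rw [map_sub, map_sum] at h2
  have h3 : l (v e) = 1 := by
    have := hl3 ⟨e, he⟩
    rwa [Pi.single_eq_same] at this
  have h4 : ∑ i ∈ G.erase e, l (a i • v i) = 0 := by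
    refine Finset.sum_eq_zero fun i hi => ?_
    have h5 := hl3 ⟨i, Finset.mem_of_mem_erase hi⟩
    rw [Pi.single_eq_of_ne (by
      intro hh
      exact Finset.ne_of_mem_erase hi (congrArg Subtype.val hh))] at h5
    change l (v i) = 0 at h5
    rw [map_smul, h5, smul_zero]
  rw [h3, h4, sub_zero] at h2
  exact one_ne_zero h2

theorem IsGen.vf (h : IsGen v N G f x c) : v f ∉ N := by
  intro hmem
  have h1 := h.hx (fun i => if i = f then 1 else 0) (by
    rw [Finset.sum_eq_single f (fun i _ hi => by rw [if_neg hi, zero_smul])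
      (fun hf => absurd h.hf hf), if_pos rfl, one_smul]
    exact hmem)
  rw [Finset.sum_eq_single f (fun i _ hi => by rw [if_neg hi, zero_smul])
      (fun hf => absurd h.hf hf), if_pos rfl, one_smul, h.hxf] at h1
  exact one_ne_zero h1

theorem span_union_le_left {s t : Set K} {a : K} (h : a ∈ Submodule.span k s) :
    a ∈ Submodule.span k (s ∪ t) := Submodule.span_mono Set.subset_union_left h

theorem span_union_le_right {s t : Set K} {a : K} (h : a ∈ Submodule.span k t) :
    a ∈ Submodule.span k (s ∪ t) := Submodule.span_mono Set.subset_union_right h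

theorem IsGen.adapA (h : IsGen v N G f x c) {e : ι} (he : e ∈ G)
    (hve : v e ∉ N) (hvf : v f ∉ N ⊔ Submodule.span k {v e}) :
    ∃ (σ : Type) (_ : Fintype σ) (z : σ → K), Adap k G x c σ z (x e) := by
  classical
  have hrel : ∀ a b : k, a • (1 : K) + b • x e = 0 → a • v f + b • v e ∈ N := by
    intro a b hab
    have h1 : (Pi.single ⟨f, h.hf⟩ a + Pi.single ⟨e, he⟩ b : G → k) ∈
        (Fintype.linearCombination k (fun i : G => x i)).ker := by
      rw [LinearMap.mem_ker, map_add, Fintype.linearCombination_apply_single,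
        Fintype.linearCombination_apply_single, h.hxf]
      exact hab
    rw [h.ker_x] at h1
    have h2 : Fintype.linearCombination k (fun i : G => v i)
      (Pi.single ⟨f, h.hf⟩ a + Pi.single ⟨e, he⟩ b) ∈ N := h1
    rwa [map_add, Fintype.linearCombination_apply_single,
      Fintype.linearCombination_apply_single] at h2
  have hli : ∀ a b : k, a • (1 : K) + b • x e = 0 → a = 0 ∧ b = 0 := by
    intro a b hab
    have h1 := hrel a b hab
    have ha : a = 0 := by
      by_contra ha
      apply hvf
      have h2 : v f = a⁻¹ • (a • v f + b • v e) + (-(a⁻¹ * b)) • v e := by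
        rw [smul_add, smul_smul, smul_smul, inv_mul_cancel₀ ha, one_smul, neg_smul]
        abel
      rw [h2]
      exact Submodule.add_mem_sup (Submodule.smul_mem _ _ h1)
        (Submodule.smul_mem _ _ (Submodule.mem_span_singleton_self _))
    refine ⟨ha, ?_⟩
    by_contra hb
    apply hve
    rw [ha, zero_smul, zero_add] at h1
    have h2 := Submodule.smul_mem N b⁻¹ h1
    rwa [smul_smul, inv_mul_cancel₀ hb, one_smul] at h2
  have hxe1 : x e ≠ 1 := by
    intro h1
    have := hli 1 (-1) (by rw [h1]; simp)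
    exact one_ne_zero this.1
  have hind : LinearIndepOn k id (({1, x e} : Finset K) : Set K) := by
    have e1 : ((({1, x e} : Finset K) : Set K)) = {1, x e} := by simp
    rw [e1]
    rw [LinearIndepOn.pair_iff (id : K → K) hxe1.symm]
    intro a b hab
    exact hli a b hab
  obtain ⟨gx, gc, e1, -, -, -, e3, e3', e4, hai⟩ := h.bases {1, x e} ∅ hind (by simp)
    (by
      intro a ha
      simp only [Finset.coe_insert, Finset.coe_singleton, Set.mem_insert_iff,
        Set.mem_singleton_iff] at ha
      rcases ha with rfl | rfl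
      · exact Submodule.subset_span ⟨f, h.hf, h.hxf⟩
      · exact Submodule.subset_span ⟨e, he, rfl⟩) (by simp) (by simp)
  have h1gx : (1 : K) ∈ gx := e1 (by simp)
  have hxgx : x e ∈ gx := e1 (by simp)
  let gx' := (gx.erase 1).erase (x e)
  refine ⟨gx' ⊕ gc, inferInstance, Sum.elim (fun a => a.1) (fun a => a.1), ?_, ?_, ?_, ?_, ?_⟩
  · let ψ : Option (gx' ⊕ gc) → {a // a ∈ gx ∧ a ≠ 1} ⊕ {a // a ∈ gc} := fun o =>
      match o with
      | none => Sum.inl ⟨x e, hxgx, hxe1⟩
      | some (Sum.inl a) => Sum.inl ⟨a.1, Finset.mem_of_mem_erase (Finset.mem_of_mem_erase a.2),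
          Finset.ne_of_mem_erase (Finset.mem_of_mem_erase a.2)⟩
      | some (Sum.inr a) => Sum.inr a
    have hψ : Function.Injective ψ := by
      intro o o' hoo
      rcases o with _ | a | a <;> rcases o' with _ | b | b
      · rfl
      · exfalso
        simp only [ψ, Sum.inl.injEq, Subtype.mk.injEq] at hoo
        exact Finset.ne_of_mem_erase b.2 hoo.symm
      · simp [ψ] at hoo
      · exfalso
        simp only [ψ, Sum.inl.injEq, Subtype.mk.injEq] at hoo
        exact Finset.ne_of_mem_erase a.2 hoo
      · simp only [ψ, Sum.inl.injEq, Subtype.mk.injEq] at hoo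
        rw [Subtype.ext hoo]
      · simp [ψ] at hoo
      · simp [ψ] at hoo
      · simp [ψ] at hoo
      · simp only [ψ, Sum.inr.injEq] at hoo
        rw [hoo]
    have h1 := hai.comp ψ hψ
    convert h1 using 1
    funext o
    rcases o with _ | a | a <;> rfl
  · rw [Fintype.card_sum, Fintype.card_coe, Fintype.card_coe]
    have h5 := Finset.card_erase_add_one h1gx
    have h6 := Finset.card_erase_add_one (s := gx.erase 1) (a := x e)
      (Finset.mem_erase.mpr ⟨hxe1, hxgx⟩)
    have h7 : gx'.card = ((gx.erase 1).erase (x e)).card := rfl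
    omega
  · rintro (a | a)
    · apply span_union_le_left
      rw [← e3]
      exact Submodule.subset_span (Finset.mem_coe.mpr
        (Finset.mem_of_mem_erase (Finset.mem_of_mem_erase a.2)))
    · apply span_union_le_right
      rw [← e3']
      exact Submodule.subset_span (Finset.mem_coe.mpr a.2)
  · intro i hi
    have h1 : x i ∈ Submodule.span k (gx : Set K) := by
      rw [e3]; exact Submodule.subset_span ⟨i, hi, rfl⟩
    refine Submodule.span_mono ?_ h1
    intro a ha
    by_cases ha1 : a = 1
    · exact Or.inl (Or.inl ha1)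
    · by_cases ha2 : a = x e
      · exact Or.inl (Or.inr ha2)
      · exact Or.inr ⟨Sum.inl ⟨a, Finset.mem_erase.mpr ⟨ha2, Finset.mem_erase.mpr
          ⟨ha1, Finset.mem_coe.mp ha⟩⟩⟩, rfl⟩
  · intro i hi
    have h1 : c i ∈ Submodule.span k (gc : Set K) := by
      rw [e3']; exact Submodule.subset_span ⟨i, hi, rfl⟩
    refine Submodule.span_mono ?_ h1
    intro a ha
    exact Or.inr ⟨Sum.inr ⟨a, Finset.mem_coe.mp ha⟩, rfl⟩

theorem IsGen.adapB (h : IsGen v N G f x c) {e : ι} (he : e ∈ G) {a : ι → k}
    (ha : v e - ∑ i ∈ G.erase e, a i • v i ∈ N) :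
    ∃ (σ : Type) (_ : Fintype σ) (z : σ → K), Adap k G x c σ z (c e) := by
  classical
  have hce := h.c_ne he ha
  have hind : LinearIndepOn k id (({c e} : Finset K) : Set K) := by
    rw [Finset.coe_singleton]
    exact LinearIndepOn.singleton (by simpa using hce)
  obtain ⟨gx, gc, e1, e2, -, -, e3, e3', e4, hai⟩ := h.bases {1} {c e} one_indep hind
    (by
      rw [Finset.coe_singleton, Set.singleton_subset_iff]
      exact Submodule.subset_span ⟨f, h.hf, h.hxf⟩)
    (by
      rw [Finset.coe_singleton, Set.singleton_subset_iff]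
      exact Submodule.subset_span ⟨e, he, rfl⟩) (by simp)
  have h1gx : (1 : K) ∈ gx := e1 (by simp)
  have hcgc : c e ∈ gc := e2 (by simp)
  let gx' := gx.erase 1
  let gc' := gc.erase (c e)
  refine ⟨gx' ⊕ gc', inferInstance, Sum.elim (fun a => a.1) (fun a => a.1), ?_, ?_, ?_, ?_, ?_⟩
  · let ψ : Option (gx' ⊕ gc') → {a // a ∈ gx ∧ a ≠ 1} ⊕ {a // a ∈ gc} := fun o =>
      match o with
      | none => Sum.inr ⟨c e, hcgc⟩
      | some (Sum.inl a) => Sum.inl ⟨a.1, Finset.mem_of_mem_erase a.2,
          Finset.ne_of_mem_erase a.2⟩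
      | some (Sum.inr a) => Sum.inr ⟨a.1, Finset.mem_of_mem_erase a.2⟩
    have hψ : Function.Injective ψ := by
      intro o o' hoo
      rcases o with _ | a | a <;> rcases o' with _ | b | b
      · rfl
      · simp [ψ] at hoo
      · exfalso
        simp only [ψ, Sum.inr.injEq, Subtype.mk.injEq] at hoo
        exact Finset.ne_of_mem_erase b.2 hoo.symm
      · simp [ψ] at hoo
      · simp only [ψ, Sum.inl.injEq, Subtype.mk.injEq] at hoo
        rw [Subtype.ext hoo]
      · simp [ψ] at hoo
      · exfalso
        simp only [ψ, Sum.inr.injEq, Subtype.mk.injEq] at hoo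
        exact Finset.ne_of_mem_erase a.2 hoo
      · simp [ψ] at hoo
      · simp only [ψ, Sum.inr.injEq, Subtype.mk.injEq] at hoo
        rw [Subtype.ext hoo]
    have h1 := hai.comp ψ hψ
    convert h1 using 1
    funext o
    rcases o with _ | a | a <;> rfl
  · rw [Fintype.card_sum, Fintype.card_coe, Fintype.card_coe]
    have h5 := Finset.card_erase_add_one h1gx
    have h6 := Finset.card_erase_add_one hcgc
    have h7 : gx'.card = (gx.erase 1).card := rfl
    have h8 : gc'.card = (gc.erase (c e)).card := rfl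
    omega
  · rintro (a | a)
    · apply span_union_le_left
      rw [← e3]
      exact Submodule.subset_span (Finset.mem_coe.mpr (Finset.mem_of_mem_erase a.2))
    · apply span_union_le_right
      rw [← e3']
      exact Submodule.subset_span (Finset.mem_coe.mpr (Finset.mem_of_mem_erase a.2))
  · intro i hi
    have h1 : x i ∈ Submodule.span k (gx : Set K) := by
      rw [e3]; exact Submodule.subset_span ⟨i, hi, rfl⟩
    refine Submodule.span_mono ?_ h1
    intro a ha
    by_cases ha1 : a = 1
    · exact Or.inl (Or.inl ha1)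
    · exact Or.inr ⟨Sum.inl ⟨a, Finset.mem_erase.mpr ⟨ha1, Finset.mem_coe.mp ha⟩⟩, rfl⟩
  · intro i hi
    have h1 : c i ∈ Submodule.span k (gc : Set K) := by
      rw [e3']; exact Submodule.subset_span ⟨i, hi, rfl⟩
    refine Submodule.span_mono ?_ h1
    intro a ha
    by_cases ha1 : a = c e
    · exact Or.inl (Or.inr ha1)
    · exact Or.inr ⟨Sum.inr ⟨a, Finset.mem_erase.mpr ⟨ha1, Finset.mem_coe.mp ha⟩⟩, rfl⟩

section Res

variable (V : Type) [CommRing V] [IsDomain V] [ValuationRing V] [Algebra V K] [IsFractionRing V K]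
  [Algebra k V] [IsScalarTower k V K]

theorem res_span {s : Set K} (hs : ∀ a ∈ s, a ∈ OO V K) {u : K} (hu : u ∈ Submodule.span k s) :
    u ∈ OO V K ∧ res V u ∈ Submodule.span k (res V '' s) := by
  induction hu using Submodule.span_induction with
  | mem a ha => exact ⟨hs a ha, Submodule.subset_span ⟨a, ha, rfl⟩⟩
  | zero => exact ⟨zero_mem _, by rw [res_zero]; exact zero_mem _⟩
  | add a b _ _ ha hb => exact ⟨add_mem ha.1 hb.1, by rw [res_add V ha.1 hb.1]; exact add_mem ha.2 hb.2⟩
  | smul r a _ ha => exact ⟨smul_mem_OO V r ha.1, by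
      rw [res_smul V r ha.1]; exact Submodule.smul_mem _ _ ha.2⟩

/-- the residues of all coordinates lie in the field generated by those different from `e` -/
theorem res_erase (h : IsPair v N G x c) (hc2 : Conn (rf v N) G) (h2 : 2 ≤ G.card)
    (hx : ∀ i ∈ G, x i ∈ OO V K) (hc : ∀ i ∈ G, c i ∈ OO V K) {e : ι} (he : e ∈ G) :
    res V '' (x '' (G : Set ι) ∪ c '' (G : Set ι)) ⊆
      adjoin k ((fun i => res V (x i)) '' ((G.erase e : Finset ι) : Set ι) ∪
        (fun i => res V (c i)) '' ((G.erase e : Finset ι) : Set ι)) := by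
  set M := adjoin k ((fun i => res V (x i)) '' ((G.erase e : Finset ι) : Set ι) ∪
        (fun i => res V (c i)) '' ((G.erase e : Finset ι) : Set ι)) with hM
  have hxM : ∀ i ∈ G.erase e, res V (x i) ∈ M := fun i hi =>
    subset_adjoin k _ (Or.inl ⟨i, Finset.mem_coe.mpr hi, rfl⟩)
  have hcM : ∀ i ∈ G.erase e, res V (c i) ∈ M := fun i hi =>
    subset_adjoin k _ (Or.inr ⟨i, Finset.mem_coe.mpr hi, rfl⟩)
  have hG : ∀ i ∈ G.erase e, i ∈ G := fun i hi => Finset.mem_of_mem_erase hi
  rintro _ ⟨_, ⟨i, hi, rfl⟩ | ⟨i, hi, rfl⟩, rfl⟩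
  · by_cases hie : i = e
    · obtain ⟨a, ha⟩ := Conn.comb hc2 h2 he
      rw [hie, h.x_eq he ha, res_sum V _ (fun i hi => smul_mem_OO V _ (hx i (hG i hi)))]
      refine sum_mem fun i hi => ?_
      rw [res_smul V _ (hx i (hG i hi))]
      exact M.smul_mem (hxM i hi)
    · exact hxM i (Finset.mem_erase.mpr ⟨hie, hi⟩)
  · by_cases hie : i = e
    · obtain ⟨l, hl, hle⟩ := exists_dual (Conn.not_mem hc2 h2 he)
      rw [hie, h.c_eq he hl hle, ← Finset.sum_neg_distrib,
        res_sum V _ (fun i hi => neg_mem (smul_mem_OO V _ (hc i (hG i hi))))]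
      refine sum_mem fun i hi => ?_
      rw [← neg_smul, res_smul V _ (hc i (hG i hi))]
      exact M.smul_mem (hcM i hi)
    · exact hcM i (Finset.mem_erase.mpr ⟨hie, hi⟩)

theorem adap_mem {σ : Type} [Fintype σ] {z : σ → K} {π : K} (hA : Adap k G x c σ z π)
    (hz : ∀ j, z j ∈ OO V K) (hπ : π ∈ OO V K) :
    (∀ i ∈ G, x i ∈ OO V K) ∧ (∀ i ∈ G, c i ∈ OO V K) := by
  have h1 : ∀ a ∈ ({1, π} ∪ Set.range z : Set K), a ∈ OO V K := by
    rintro a ((rfl | ha) | ⟨j, rfl⟩)
    · exact one_mem _
    · rw [Set.mem_singleton_iff] at ha; rw [ha]; exact hπ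
    · exact hz j
  exact ⟨fun i hi => (res_span V h1 (hA.xs i hi)).1, fun i hi => (res_span V h1 (hA.cs i hi)).1⟩

/-- transcendence degree of the residues -/
theorem adap_tr {σ : Type} [Fintype σ] {z : σ → K} {π : K} (hA : Adap k G x c σ z π)
    (h : IsPair v N G x c) (hc2 : Conn (rf v N) G) (h2 : 2 ≤ G.card)
    (hx : ∀ i ∈ G, x i ∈ OO V K) (hc : ∀ i ∈ G, c i ∈ OO V K) {e : ι} (he : e ∈ G)
    (hai : AlgebraicIndependent k (fun j => res V (z j))) :
    ((G.erase e).card : ℕ∞) ≤
      tr k ((fun i => res V (x i)) '' ((G.erase e : Finset ι) : Set ι) ∪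
        (fun i => res V (c i)) '' ((G.erase e : Finset ι) : Set ι)) + 1 := by
  have h1 := tr_range_of_algInd hai
  have h3 : tr k (Set.range (fun j => res V (z j))) ≤
      tr k ((fun i => res V (x i)) '' ((G.erase e : Finset ι) : Set ι) ∪
        (fun i => res V (c i)) '' ((G.erase e : Finset ι) : Set ι)) := by
    apply tr_le_of_subset
    rintro _ ⟨j, rfl⟩
    have h4 := (res_span V (s := x '' (G : Set ι) ∪ c '' (G : Set ι)) (by
      rintro a (⟨i, hi, rfl⟩ | ⟨i, hi, rfl⟩)
      · exact hx i hi
      · exact hc i hi) (hA.zs j)).2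
    have h5 := span_le_adjoin _ h4
    have h6 : adjoin k (res V '' (x '' (G : Set ι) ∪ c '' (G : Set ι))) ≤
      adjoin k ((fun i => res V (x i)) '' ((G.erase e : Finset ι) : Set ι) ∪
        (fun i => res V (c i)) '' ((G.erase e : Finset ι) : Set ι)) :=
      adjoin_le_iff.mpr (res_erase V h hc2 h2 hx hc he)
    exact h6 h5
  rw [h1] at h3
  have h4 := add_le_add_left h3 1
  refine le_trans ?_ h4
  have h5 := hA.card
  have h6 := Finset.card_erase_add_one he
  exact_mod_cast (by omega)

/-- lifting transcendence degree from the residue field -/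
theorem tr_lift {T : Set ι} {Y : ι → K} (hT : T.Finite) (hY : ∀ i ∈ T, Y i ∈ OO V K) {t : K}
    (ht : t ∈ OO V K) (ht0 : t ≠ 0) (hres : res V t = 0) :
    tr k ((fun i => res V (Y i)) '' T) + 1 ≤ tr k (Y '' T ∪ {t}) := by
  classical
  obtain ⟨I, hI⟩ := (AlgebraicIndependent.matroid k (ResidueField V)).exists_isBasis
    ((fun i => res V (Y i)) '' T) (by simp)
  have h1 : I.encard = tr k ((fun i => res V (Y i)) '' T) := hI.encard_eq_eRk
  have hIfin : I.Finite := (hT.image _).subset hI.subset
  have hIalg : AlgebraicIndependent k (Subtype.val : I → ResidueField V) := hI.indep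
  choose g hg1 hg2 using fun r : I => hI.subset r.2
  -- lifts
  have hlift : ∀ r : I, ∃ a : V, algebraMap V K a = Y (g r) := fun r => hY _ (hg1 r)
  choose ζ hζ using hlift
  obtain ⟨ϖ, hϖ⟩ := ht
  have hϖ0 : residue V ϖ = 0 := by rw [← res_map V (K := K), hϖ, hres]
  have hζ2 : ∀ r : I, residue V (ζ r) = r := by
    intro r
    rw [← res_map V (K := K), hζ]
    exact hg2 r
  have hζai : AlgebraicIndependent k (fun r => residue V (ζ r)) := by
    have : (fun r => residue V (ζ r)) = (Subtype.val : I → ResidueField V) := funext hζ2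
    rw [this]; exact hIalg
  letI : Fintype I := hIfin.fintype
  have hai : AlgebraicIndependent k (fun o : Option I => o.elim t (fun r => Y (g r))) := by
    rw [algebraicIndependent_iff]
    intro p hp
    set P := MvPolynomial.optionEquivLeft k I p with hP
    have hev : ev k (fun r => Y (g r)) t P = MvPolynomial.aeval
        (fun o : Option I => o.elim t (fun r => Y (g r))) p := by
      have h1 : (ev k (fun r => Y (g r)) t).comp
          (MvPolynomial.optionEquivLeft k I).toRingEquiv.toRingHom =
          (MvPolynomial.aeval (R := k) (fun o : Option I =>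
            o.elim t (fun r => Y (g r)))).toRingHom := by
        apply MvPolynomial.ringHom_ext
        · intro r
          simp [ev]
        · intro o
          cases o with
          | none => simp [ev]
          | some j => simp [ev]
      exact congrArg (fun g => g p) h1
    rw [hp] at hev
    by_contra hp0
    have hP0 : P ≠ 0 := by
      intro h0
      apply hp0
      exact (MvPolynomial.optionEquivLeft k I).injective (by rw [map_zero]; exact h0)
    obtain ⟨m, P', hP', hPP⟩ := exists_coeff_zero k P hP0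
    have h3 : IsUnit (evV V k ζ ϖ P') := isUnit_evV hϖ0 hζai hP'
    have h4 := algebraMap_evV V (K := K) (k := k) ζ ϖ P'
    rw [hϖ] at h4
    have h5 : (fun j => algebraMap V K (ζ j)) = (fun r => Y (g r)) := funext hζ
    rw [h5] at h4
    rw [hPP, map_mul, map_pow, ev_X] at hev
    rcases mul_eq_zero.mp hev with h6 | h6
    · exact pow_ne_zero m ht0 h6
    · rw [← h4] at h6
      have h7 : evV V k ζ ϖ P' = 0 := IsFractionRing.injective V K (by rw [h6, map_zero])
      rw [h7] at h3
      exact not_isUnit_zero h3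
  have h3 := tr_range_of_algInd hai
  have h4 : tr k (Set.range (fun o : Option I => o.elim t (fun r => Y (g r)))) ≤
      tr k (Y '' T ∪ {t}) := by
    apply tr_mono
    rintro _ ⟨o, rfl⟩
    cases o with
    | none => exact Or.inr rfl
    | some r => exact Or.inl ⟨g r, hg1 r, rfl⟩
  rw [h3, Fintype.card_option] at h4
  have h5 : I.encard = Fintype.card I := by
    rw [Set.encard_eq_coe_toFinset_card, Set.toFinset_card]
  rw [← h1, h5]
  exact_mod_cast h4

end Res

end K1H20.RL
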