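import Pool.Agent.K1H20.RL.Sum

set_option linter.unusedSectionVars false
set_option linter.style.haveILetI false

namespace K1H20.RL

open Module IntermediateField IsLocalRing

theorem res_aeval (V : Type) [CommRing V] [IsDomain V] [ValuationRing V] {K : Type} [Field K]
    [Algebra V K] [IsFractionRing V K] {k : Type} [Field k] [Algebra k V] [Algebra k K]
    [IsScalarTower k V K] {σ : Type} {z : σ → K} (hz : ∀ j, z j ∈ OO V K) (p : MvPolynomial σ k) :
    MvPolynomial.aeval z p ∈ OO V K ∧
      res V (MvPolynomial.aeval z p) = MvPolynomial.aeval (fun j => res V (z j)) p := by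
  choose ζ hζ using hz
  have h1 : (fun j => res V (z j)) = fun j => residue V (ζ j) := by
    funext j; rw [← hζ j, res_map]
  have h2 : z = algebraMap V K ∘ ζ := by funext j; exact (hζ j).symm
  rw [h1, h2, MvPolynomial.aeval_algebraMap_apply]
  refine ⟨⟨_, rfl⟩, ?_⟩
  rw [res_map]
  change algebraMap V (ResidueField V) _ = _
  rw [← MvPolynomial.aeval_algebraMap_apply]
  rfl

theorem mem_OO_sub {K : Type} [Field K] (V : ValuationSubring K) (u : K) : u ∈ OO V K ↔ u ∈ V := by
  constructor
  · rintro ⟨a, rfl⟩; exact a.2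
  · intro h; exact ⟨⟨u, h⟩, rfl⟩

variable {k K J : Type} [Field k] [CharZero k] [Field K] [Algebra k K] [Fintype J] [DecidableEq J]

open scoped algebraAdjoinAdjoin in
theorem sum_w {w : J → K} (hw : AlgebraicIndependent k w) (j0 : J) {D : ℕ} (hD : 0 < D)
    (hfin : finrank (adjoin k (Set.range w)) K = D) :
    ∃ (Q : Type) (_ : Fintype Q) (P : Q → Pl k K) (e fd : Q → ℕ),
      ∑ q, e q * fd q = D ∧
      (∀ q, ∀ u : K, (∃ P0 : Polynomial (MvPolynomial J k), P0.Monic ∧ ev k w u P0 = 0) →
        u ∈ OO (P q).V K) ∧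
      (∀ q, res (P q).V (w j0) = 0) ∧
      (∀ q, AlgebraicIndependent k (fun j : {j // j ≠ j0} => res (P q).V (w j))) ∧
      (∀ q, ∀ (ϖ : (P q).V) (n : ℕ) (u : ((P q).V)ˣ),
        maximalIdeal (P q).V = Ideal.span {ϖ} →
        w j0 = algebraMap (P q).V K (ϖ ^ n * u) → e q = n) ∧
      (∀ q, fd q = finrank (adjoin k (Set.range (fun j : {j // j ≠ j0} => res (P q).V (w j))))
        (ResidueField (P q).V)) ∧
      (∀ q q', (∀ u : K, (u ∈ OO (P q).V K ∧ res (P q).V u = 0) ↔
        (u ∈ OO (P q').V K ∧ res (P q').V u = 0)) → q = q') ∧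
      (∀ (V' : ValuationSubring K) [Algebra k V'] [IsScalarTower k V' K],
        (∀ j, w j ∈ V') → res V' (w j0) = 0 →
        AlgebraicIndependent k (fun j : {j // j ≠ j0} => res V' (w j)) →
        ∃ q, ∀ u ∈ OO (P q).V K, u ∈ V') := by
  classical
  let J' := {j // j ≠ j0}
  let w' : J' → K := fun j => w j
  have hw' : AlgebraicIndependent k w' := hw.comp _ Subtype.val_injective
  let F := adjoin k (Set.range w')
  let E := adjoin k (Set.range w)
  let t := w j0
  have hwF : ∀ j : J', w j ∈ F := fun j => subset_adjoin k _ ⟨j, rfl⟩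
  have hFE : F ≤ E := adjoin.mono k _ _ (by rintro _ ⟨j, rfl⟩; exact ⟨j, rfl⟩)
  have htE : t ∈ E := subset_adjoin k _ ⟨j0, rfl⟩
  -- `t` is transcendental over `F`
  have htr : Transcendental F t := by
    have h1 : Transcendental (Algebra.adjoin k (w '' {j | j ≠ j0})) (w j0) :=
      hw.transcendental_adjoin (by simp)
    have h2 : w '' {j | j ≠ j0} = Set.range w' := by
      ext a
      constructor
      · rintro ⟨j, hj, rfl⟩; exact ⟨⟨j, hj⟩, rfl⟩
      · rintro ⟨j, rfl⟩; exact ⟨j, j.2, rfl⟩
    rw [h2] at h1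
    intro hcon
    apply h1
    exact (IsFractionRing.isAlgebraic_iff (Algebra.adjoin k (Set.range w'))
      (adjoin k (Set.range w')) K).mpr hcon
  let R := Polynomial F
  letI algRK : Algebra R K := (Polynomial.aeval (R := F) t).toRingHom.toAlgebra
  have hRK : ∀ r : R, algebraMap R K r = Polynomial.aeval t r := fun r => rfl
  have hRE : ∀ r : R, algebraMap R K r ∈ E := by
    intro r
    rw [hRK, Polynomial.aeval_eq_sum_range]
    refine sum_mem fun i _ => ?_
    rw [Algebra.smul_def]
    exact mul_mem (hFE (r.coeff i).2) (pow_mem htE i)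
  letI algRE : Algebra R E := ((algebraMap R K).codRestrict E hRE).toAlgebra
  haveI : IsScalarTower R E K := IsScalarTower.of_algebraMap_eq (fun r => rfl)
  have hinj : Function.Injective (algebraMap R K) := (transcendental_iff_injective).mp htr
  have hinjE : Function.Injective (algebraMap R E) := by
    intro a b hab
    apply hinj
    exact congrArg Subtype.val hab
  haveI : FaithfulSMul R E := (faithfulSMul_iff_algebraMap_injective _ _).mpr hinjE
  -- lifting polynomials
  let α : MvPolynomial J k →ₐ[k] R := MvPolynomial.aeval (fun j =>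
    if h : j = j0 then Polynomial.X else Polynomial.C ⟨w j, hwF ⟨j, h⟩⟩)
  haveI : IsScalarTower k R K := IsScalarTower.of_algebraMap_eq (fun a => by
    rw [hRK, Polynomial.algebraMap_apply]
    simp)
  have hα : ∀ p, algebraMap R K (α p) = MvPolynomial.aeval w p := by
    intro p
    have : (IsScalarTower.toAlgHom k R K).comp α = MvPolynomial.aeval w := by
      apply MvPolynomial.algHom_ext
      intro j
      simp only [AlgHom.comp_apply, α, MvPolynomial.aeval_X, IsScalarTower.coe_toAlgHom']
      by_cases h : j = j0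
      · rw [dif_pos h, hRK, Polynomial.aeval_X, h]
      · rw [dif_neg h, hRK, Polynomial.aeval_C]
        rfl
    exact congrArg (fun g => g p) this
  haveI : IsFractionRing R E := by
    apply IsFractionRing.of_field
    intro z
    have hz := z.2
    rw [mem_adjoin_iff_div] at hz
    obtain ⟨a, ha, b, hb, hab⟩ := hz
    rw [Algebra.adjoin_range_eq_range_aeval] at ha hb
    obtain ⟨p, rfl⟩ := ha
    obtain ⟨p', rfl⟩ := hb
    refine ⟨α p, α p', Subtype.ext ?_⟩
    rw [IntermediateField.coe_div]
    change (z : K) = algebraMap R K (α p) / algebraMap R K (α p')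
    rw [hα, hα]
    exact hab
  haveI : FiniteDimensional E K := Module.finite_of_finrank_pos (by rw [hfin]; exact hD)
  haveI : CharZero E := charZero_of_injective_algebraMap (algebraMap k E).injective
  haveI : Algebra.IsSeparable E K := inferInstance
  let p : Ideal R := Ideal.span {Polynomial.X}
  haveI : p.IsMaximal := PrincipalIdealRing.isMaximal_of_irreducible Polynomial.irreducible_X
  have hp : p ≠ ⊥ := by
    rw [Ne, Ideal.span_singleton_eq_bot]
    exact Polynomial.X_ne_zero
  obtain ⟨Q, hQ, P, e, fd, h1, h2, h3, h4, h5, h6, h7⟩ := sum_formula k R E K p hp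
  have hRO : ∀ q, ∀ r : R, algebraMap R K r ∈ OO (P q).V K := fun q r =>
    h2 q _ isIntegral_algebraMap
  have hwO : ∀ q j, w j ∈ OO (P q).V K := by
    intro q j
    have := hRO q (α (MvPolynomial.X j))
    rwa [hα, MvPolynomial.aeval_X] at this
  have hpoly : ∀ p0 : MvPolynomial J' k, MvPolynomial.aeval w' p0 ∈ F := by
    intro p0
    apply algebra_adjoin_le_adjoin
    rw [Algebra.adjoin_range_eq_range_aeval]
    exact ⟨p0, rfl⟩
  have hC : ∀ a : F, algebraMap R K (Polynomial.C a) = a := fun a => by
    rw [hRK, Polynomial.aeval_C]; rfl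
  have hai : ∀ q, AlgebraicIndependent k (fun j : J' => res (P q).V (w j)) := by
    intro q
    rw [algebraicIndependent_iff]
    intro p0 hp0
    have h8 := (res_aeval (P q).V (z := w') (fun j => hwO q j) p0).2
    have h9 : res (P q).V (MvPolynomial.aeval w' p0) = 0 := by rw [h8]; exact hp0
    have hC' : MvPolynomial.aeval w' p0 = algebraMap R K (Polynomial.C ⟨_, hpoly p0⟩) :=
      (hC ⟨_, hpoly p0⟩).symm
    rw [hC', h3, Ideal.mem_span_singleton, Polynomial.X_dvd_iff,
      Polynomial.coeff_C_zero] at h9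
    have h10 : MvPolynomial.aeval w' p0 = 0 := congrArg Subtype.val h9
    exact hw'.eq_zero_of_aeval_eq_zero _ h10
  refine ⟨Q, hQ, P, e, fd, by rw [h1]; exact hfin, ?_, ?_, hai, ?_, ?_, h6, ?_⟩
  · rintro q u ⟨P0, hP0, hP1⟩
    apply h2 q
    refine ⟨P0.map α.toRingHom, hP0.map _, ?_⟩
    rw [Polynomial.eval₂_map, ← hP1]
    unfold ev
    rw [Polynomial.coe_eval₂RingHom]
    congr 1
    apply RingHom.ext
    intro p0
    exact hα p0
  · intro q
    have h8 : w j0 = algebraMap R K Polynomial.X := by rw [hRK, Polynomial.aeval_X]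
    rw [h8, h3]
    exact Ideal.mem_span_singleton_self _
  · intro q ϖ n u hϖ hu
    refine h4 q Polynomial.X ϖ n u rfl hϖ ?_
    rw [← hu, hRK, Polynomial.aeval_X]
  · intro q
    apply h5 q
    intro z
    have hwO' : ∀ j : J', w' j ∈ OO (P q).V K := fun j => hwO q j
    constructor
    · intro hz
      rw [mem_adjoin_iff_div] at hz
      obtain ⟨a, ha, b, hb, rfl⟩ := hz
      rw [Algebra.adjoin_range_eq_range_aeval] at ha hb
      obtain ⟨p0, rfl⟩ := ha
      obtain ⟨p1, rfl⟩ := hb
      by_cases hb0 : MvPolynomial.aeval (fun j : J' => res (P q).V (w j)) p1 = 0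
      · refine ⟨0, ?_⟩
        rw [map_zero, res_zero]
        have : (MvPolynomial.aeval (fun j : J' => res (P q).V (w j))).toRingHom p1 = 0 := hb0
        rw [this, div_zero]
      · obtain ⟨e1, e2⟩ := res_aeval (P q).V hwO' p0
        obtain ⟨e3, e4⟩ := res_aeval (P q).V hwO' p1
        refine ⟨Polynomial.C (⟨_, hpoly p0⟩ / ⟨_, hpoly p1⟩), ?_⟩
        rw [hC, IntermediateField.coe_div, div_eq_mul_inv]
        have e5 : res (P q).V (MvPolynomial.aeval w' p1) ≠ 0 := by rw [e4]; exact hb0
        rw [res_mul _ e1 (inv_mem_of_res _ e3 e5), res_inv _ e3 e5, e2, e4, ← div_eq_mul_inv]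
        rfl
    · rintro ⟨r, rfl⟩
      have e1 : algebraMap R K r = (r.coeff 0 : F) + t * algebraMap R K r.divX := by
        conv_lhs => rw [← Polynomial.divX_mul_X_add r]
        rw [map_add, map_mul, hC, hRK Polynomial.X, Polynomial.aeval_X]
        ring
      have e2 : ((r.coeff 0 : F) : K) ∈ OO (P q).V K := by rw [← hC]; exact hRO q _
      have e3 : t ∈ OO (P q).V K := hwO q j0
      have e4 : res (P q).V t = 0 := by
        have h8 : w j0 = algebraMap R K Polynomial.X := by rw [hRK, Polynomial.aeval_X]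
        change res (P q).V (w j0) = 0
        rw [h8, h3]
        exact Ideal.mem_span_singleton_self _
      rw [e1, res_add _ e2 (mul_mem e3 (hRO q _)), res_mul _ e3 (hRO q _), e4, zero_mul, add_zero]
      have e5 := (r.coeff 0).2
      rw [mem_adjoin_iff_div] at e5
      obtain ⟨a, ha, b, hb, hab⟩ := e5
      rw [Algebra.adjoin_range_eq_range_aeval] at ha hb
      obtain ⟨p0, rfl⟩ := ha
      obtain ⟨p1, rfl⟩ := hb
      obtain ⟨f1, f2⟩ := res_aeval (P q).V hwO' p0
      obtain ⟨f3, f4⟩ := res_aeval (P q).V hwO' p1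
      have hmem : ∀ p0 : MvPolynomial J' k, MvPolynomial.aeval (fun j : J' => res (P q).V (w' j)) p0
          ∈ adjoin k (Set.range (fun j : {j // j ≠ j0} => res (P q).V (w j))) := by
        intro p0
        apply algebra_adjoin_le_adjoin
        rw [Algebra.adjoin_range_eq_range_aeval]
        exact ⟨p0, rfl⟩
      by_cases hb0 : p1 = 0
      · rw [hab, hb0]
        simp [res_zero]
      · have f5 : res (P q).V (MvPolynomial.aeval w' p1) ≠ 0 := by
          rw [f4]
          intro h0
          exact hb0 ((hai q).eq_zero_of_aeval_eq_zero _ h0)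
        rw [hab]
        change res (P q).V (MvPolynomial.aeval w' p0 / MvPolynomial.aeval w' p1) ∈ _
        rw [div_eq_mul_inv, res_mul _ f1 (inv_mem_of_res _ f3 f5), res_inv _ f3 f5, f2, f4]
        exact mul_mem (hmem p0) (inv_mem (hmem p1))
  · intro V' _ _ hwV htV haiV
    have hwO' : ∀ j : J', w' j ∈ OO V' K := fun j => (mem_OO_sub V' _).mpr (hwV j)
    have hFV : ∀ a : F, (a : K) ∈ V' := by
      intro a
      have e5 := a.2
      rw [mem_adjoin_iff_div] at e5
      obtain ⟨a', ha, b, hb, hab⟩ := e5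
      rw [Algebra.adjoin_range_eq_range_aeval] at ha hb
      obtain ⟨p0, rfl⟩ := ha
      obtain ⟨p1, rfl⟩ := hb
      obtain ⟨f1, f2⟩ := res_aeval V' hwO' p0
      obtain ⟨f3, f4⟩ := res_aeval V' hwO' p1
      by_cases hb0 : p1 = 0
      · rw [hab, hb0]
        simp
      · have f5 : res V' (MvPolynomial.aeval w' p1) ≠ 0 := by
          rw [f4]
          intro h0
          exact hb0 (haiV.eq_zero_of_aeval_eq_zero _ h0)
        rw [hab]
        change MvPolynomial.aeval w' p0 / MvPolynomial.aeval w' p1 ∈ V'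
        rw [← mem_OO_sub, div_eq_mul_inv]
        exact mul_mem f1 (inv_mem_of_res _ f3 f5)
    have hRV : ∀ r : R, algebraMap R K r ∈ V' := by
      intro r
      rw [hRK, Polynomial.aeval_eq_sum_range]
      refine sum_mem fun i _ => ?_
      rw [Algebra.smul_def]
      exact mul_mem (hFV _) (pow_mem (hwV j0) i)
    have htn : t ∈ V'.nonunits := by
      rw [ValuationSubring.mem_nonunits_iff_exists_mem_maximalIdeal]
      refine ⟨hwV j0, ?_⟩
      rw [← residue_eq_zero_iff, ← res_map V' (K := K)]
      exact htV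
    refine h7 V' hRV ?_
    intro r hr
    obtain ⟨r', rfl⟩ := Ideal.mem_span_singleton.mp hr
    rw [map_mul, hRK Polynomial.X, Polynomial.aeval_X, ValuationSubring.mem_nonunits_iff, map_mul]
    rw [ValuationSubring.mem_nonunits_iff] at htn
    have h8 : V'.valuation (algebraMap R K r') ≤ 1 := (V'.valuation_le_one_iff _).mpr (hRV r')
    calc V'.valuation t * V'.valuation (algebraMap R K r') ≤ V'.valuation t * 1 :=
        mul_le_mul_right h8 _
      _ < 1 := by rw [mul_one]; exact htn

end K1H20.RL
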