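import Pool.Agent.K1H20.RL.Gen

set_option linter.unusedSectionVars false

namespace K1H20.RL

open Module IntermediateField TrivSqZeroExt

variable {k : Type} [Field k] {W : Type} [AddCommGroup W] [Module k W] [FiniteDimensional k W]
  {ι : Type} [DecidableEq ι] {K : Type} [Field K] [Algebra k K]

theorem aeval_dual {σ : Type} [Fintype σ] [DecidableEq σ] (p : MvPolynomial σ k) (y d : σ → K) :
    MvPolynomial.aeval (fun i => (inl (y i) + inr (d i) : DualNumber K)) p =
      inl (MvPolynomial.aeval y p) + inr (∑ i, MvPolynomial.aeval y (MvPolynomial.pderiv i p) * d i) := by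
  induction p using MvPolynomial.induction_on with
  | C a =>
    rw [MvPolynomial.aeval_C, MvPolynomial.aeval_C]
    simp [TrivSqZeroExt.algebraMap_eq_inl']
  | add p q hp hq =>
    rw [map_add, hp, hq, map_add]
    ext
    · simp
    · simp [add_mul, Finset.sum_add_distrib]
  | mul_X p j hp =>
    rw [map_mul, hp, MvPolynomial.aeval_X, map_mul, MvPolynomial.aeval_X]
    ext
    · simp
    · simp only [snd_mul, snd_add, snd_inl, snd_inr, fst_add, fst_inl, fst_inr, zero_add, add_zero,
        smul_eq_mul, MulOpposite.smul_eq_mul_unop, MulOpposite.unop_op, Derivation.leibniz,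
        MvPolynomial.pderiv_X, map_add, map_mul, MvPolynomial.aeval_X]
      rw [Finset.sum_mul]
      simp only [add_mul, Finset.sum_add_distrib]
      congr 1
      · rw [Finset.sum_eq_single j]
        · simp
        · intro b _ hb
          simp [hb]
        · simp
      · refine Finset.sum_congr rfl fun i _ => ?_
        ring

variable {v : ι → W} {N : Submodule k W} {G : Finset ι} {f : ι} {x c : ι → K}

/-- first order deformation of a pair -/
theorem IsPair.dual (h : IsPair v N G x c) {x1 c1 : ι → K}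
    (hx1 : ∀ a : ι → k, ∑ i ∈ G, a i • v i ∈ N → ∑ i ∈ G, a i • x1 i = 0)
    (hc1 : ∀ l : Dual k W, (∀ w ∈ N, l w = 0) → ∑ i ∈ G, l (v i) • c1 i = 0) :
    IsPair v N G (A := DualNumber K) (fun i => inl (x i) + inr (x1 i))
      (fun i => inl (c i) + inr (c1 i)) := by
  constructor
  · intro a ha
    have e1 := h.hx a ha
    have e2 := hx1 a ha
    ext
    · simp only [fst_sum, fst_smul, fst_add, fst_inl, fst_inr, add_zero, fst_zero]
      exact e1
    · simp only [snd_sum, snd_smul, snd_add, snd_inl, snd_inr, zero_add, snd_zero]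
      exact e2
  · intro l hl
    have e1 := h.hc l hl
    have e2 := hc1 l hl
    ext
    · simp only [fst_sum, fst_smul, fst_add, fst_inl, fst_inr, add_zero, fst_zero]
      exact e1
    · simp only [snd_sum, snd_smul, snd_add, snd_inl, snd_inr, zero_add, snd_zero]
      exact e2

theorem yy_dual (x c x1 c1 : ι → K) :
    yy G (A := DualNumber K) (fun i => inl (x i) + inr (x1 i)) (fun i => inl (c i) + inr (c1 i)) =
      fun i => inl (yy G x c i) + inr (c1 i * x i ^ 2 + 2 * c i * x i * x1 i) := by
  funext i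
  simp only [yy]
  ext
  · simp [pow_two]
  · simp [pow_two]
    ring

theorem IsGen.deriv (h : IsGen v N G f x c) {x1 c1 : ι → K}
    (hx1 : ∀ a : ι → k, ∑ i ∈ G, a i • v i ∈ N → ∑ i ∈ G, a i • x1 i = 0)
    (hc1 : ∀ l : Dual k W, (∀ w ∈ N, l w = 0) → ∑ i ∈ G, l (v i) • c1 i = 0)
    (hf1 : x1 f = 0) {p : MvPolynomial G k} (h0 : MvPolynomial.aeval (yy G x c) p = 0) :
    ∑ i : G, MvPolynomial.aeval (yy G x c) (MvPolynomial.pderiv i p) *
      (c1 i * x i ^ 2 + 2 * c i * x i * x1 i) = 0 := by
  have h1 := h.specY (h.toIsPair.dual hx1 hc1) (by rw [h.hxf, hf1, inr_zero, add_zero]; rfl) h0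
  rw [yy_dual, aeval_dual] at h1
  have := congrArg snd h1
  simpa using this

theorem IsGen.rigid [CharZero k] (h : IsGen v N G f x c) {x1 c1 : ι → K}
    (hx1 : ∀ a : ι → k, ∑ i ∈ G, a i • v i ∈ N → ∑ i ∈ G, a i • x1 i = 0)
    (hc1 : ∀ l : Dual k W, (∀ w ∈ N, l w = 0) → ∑ i ∈ G, l (v i) • c1 i = 0)
    (hf1 : x1 f = 0) (hy : ∀ i ∈ G, c1 i * x i ^ 2 + 2 * c i * x i * x1 i = 0) {j : ι} (hj : j ∈ G)
    (halg : IsAlgebraic (Algebra.adjoin k (Set.range (yy G x c))) (x j)) : x1 j = 0 := by
  classical
  have : CharZero K := charZero_of_injective_algebraMap (algebraMap k K).injective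
  -- a polynomial of minimal degree
  let B := Algebra.adjoin k (Set.range (yy G x c))
  have hex : ∃ n : ℕ, ∃ P : Polynomial B, P ≠ 0 ∧ P.natDegree = n ∧
      Polynomial.aeval (x j) P = 0 := by
    obtain ⟨P, hP0, hP⟩ := halg
    exact ⟨_, P, hP0, rfl, hP⟩
  obtain ⟨P, hP0, hPn, hP⟩ := Nat.find_spec hex
  have hmin : ∀ Q : Polynomial B, Q ≠ 0 → Polynomial.aeval (x j) Q = 0 →
      P.natDegree ≤ Q.natDegree := by
    intro Q hQ0 hQ
    rw [hPn]
    exact Nat.find_min' hex ⟨Q, hQ0, rfl, hQ⟩
  have hdeg : P.natDegree ≠ 0 := by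
    intro h0
    rw [Polynomial.natDegree_eq_zero] at h0
    obtain ⟨b, hb⟩ := h0
    rw [← hb, Polynomial.aeval_C] at hP
    have : b = 0 := (FaithfulSMul.algebraMap_injective B K) (by rw [hP, map_zero])
    rw [this, Polynomial.C_0] at hb
    exact hP0 hb.symm
  have hP' : Polynomial.aeval (x j) (Polynomial.derivative P) ≠ 0 := by
    intro h0
    have h1 : Polynomial.derivative P ≠ 0 := fun h2 =>
      hdeg (Polynomial.derivative_eq_zero.mp h2)
    have h2 := hmin _ h1 h0
    have h3 := Polynomial.natDegree_derivative_lt hdeg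
    omega
  -- lift to polynomials
  have hsurj : Function.Surjective ((MvPolynomial.aeval (R := k) (yy G x c)).rangeRestrict) :=
    AlgHom.rangeRestrict_surjective _
  let α : MvPolynomial G k →ₐ[k] B := (MvPolynomial.aeval (R := k) (yy G x c)).codRestrict B
    (fun p => by
      have : (MvPolynomial.aeval (R := k) (yy G x c)) p ∈
          (MvPolynomial.aeval (R := k) (yy G x c)).range := ⟨p, rfl⟩
      rwa [← Algebra.adjoin_range_eq_range_aeval] at this)
  have hα : Function.Surjective α := by
    rintro ⟨b, hb⟩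
    have hb' : b ∈ Algebra.adjoin k (Set.range (yy G x c)) := hb
    rw [Algebra.adjoin_range_eq_range_aeval] at hb'
    obtain ⟨p, hp⟩ := hb'
    exact ⟨p, Subtype.ext hp⟩
  obtain ⟨Q, hQ⟩ := Polynomial.map_surjective α.toRingHom hα P
  have hcomp : (MvPolynomial.aeval (R := k) (yy G x c)).toRingHom =
      (algebraMap B K).comp α.toRingHom := rfl
  have h1 : Polynomial.eval₂ (MvPolynomial.aeval (R := k) (yy G x c)).toRingHom (x j) Q = 0 := by
    rw [hcomp, ← Polynomial.eval₂_map, hQ]
    exact hP
  have h2 := h.specP (h.toIsPair.dual hx1 hc1) (by rw [h.hxf, hf1, inr_zero, add_zero]; rfl) Q hj h1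
  -- the products do not change
  have h3 : (MvPolynomial.aeval (R := k) (yy G (A := DualNumber K) (fun i => inl (x i) + inr (x1 i))
      (fun i => inl (c i) + inr (c1 i)))).toRingHom =
      (algebraMap K (DualNumber K)).comp ((algebraMap B K).comp α.toRingHom) := by
    rw [← hcomp, yy_dual]
    apply MvPolynomial.ringHom_ext
    · intro r
      simp [TrivSqZeroExt.algebraMap_eq_inl']
    · intro i
      simp [hy i i.2]
      rfl
  rw [h3, ← Polynomial.eval₂_map, ← Polynomial.map_map, hQ] at h2
  have h4 : Polynomial.aeval (inl (x j) + inr (x1 j) : DualNumber K)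
      (P.map (algebraMap B K)) = 0 := h2
  rw [Polynomial.aeval_add_of_sq_eq_zero _ _ _ (by rw [pow_two, inr_mul_inr])] at h4
  have h5 : ∀ R : Polynomial K, Polynomial.aeval (inl (x j) : DualNumber K) R =
      inl (Polynomial.aeval (x j) R) := by
    intro R
    exact Polynomial.aeval_algebraMap_apply (DualNumber K) (x j) R
  rw [h5, h5] at h4
  have h6 := congrArg snd h4
  simp only [snd_add, snd_inl, zero_add, inl_mul_inr, snd_inr, snd_zero, smul_eq_mul] at h6
  rcases mul_eq_zero.mp h6 with h7 | h7
  · exfalso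
    apply hP'
    rw [Polynomial.derivative_map, Polynomial.aeval_map_algebraMap] at h7
    exact h7
  · exact h7

/-- `K` is algebraic over the field generated by `y` -/
theorem alg_of_tr {s t : Set K} (hs : s.Finite) (hst : s ⊆ t) (htr : tr k t ≤ tr k s) {a : K}
    (ha : a ∈ t) : IsAlgebraic (Algebra.adjoin k s) a := by
  have h1 : (AlgebraicIndependent.matroid k K).IsRkFinite s := Matroid.isRkFinite_of_finite _ hs
  have h2 := h1.closure_eq_closure_of_subset_of_eRk_ge_eRk hst htr
  have h3 : a ∈ (AlgebraicIndependent.matroid k K).closure t :=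
    Matroid.subset_closure _ t (by simp) ha
  rw [← h2, AlgebraicIndependent.matroid_closure_eq] at h3
  exact h3

theorem IsGen.tr_le (h : IsGen v N G f x c) :
    tr k (x '' (G : Set ι) ∪ c '' (G : Set ι)) + 1 ≤ (G.card : ℕ∞) := by
  have h2 := tr_add_one_le (k := k) G (x := x) (c := c) h.hf h.hxf
  have h4 := h.finrank_eq
  refine h2.trans ?_
  exact_mod_cast (by omega)

theorem yy_mem (G : Finset ι) (x c : ι → K) (i : G) :
    yy G x c i ∈ adjoin k (x '' (G : Set ι) ∪ c '' (G : Set ι)) := by
  have e1 : c i ∈ adjoin k (x '' (G : Set ι) ∪ c '' (G : Set ι)) :=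
    subset_adjoin k _ (Or.inr ⟨i, i.2, rfl⟩)
  have e2 : x i ∈ adjoin k (x '' (G : Set ι) ∪ c '' (G : Set ι)) :=
    subset_adjoin k _ (Or.inl ⟨i, i.2, rfl⟩)
  exact mul_mem e1 (pow_mem e2 2)

/-- birationality -/
theorem IsGen.birational [CharZero k] (h : IsGen v N G f x c) {Δ : MvPolynomial G k} {D : ℕ}
    (hΔ : IsDisc v N G f Δ D)
    (htr : (G.card : ℕ∞) ≤ tr k (Set.range (yy G x c)) + 1)
    (hx0 : ∀ i ∈ G, x i ≠ 0) :
    adjoin k (Set.range (yy G x c)) = adjoin k (x '' (G : Set ι) ∪ c '' (G : Set ι)) := by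
  classical
  have : CharZero K := charZero_of_injective_algebraMap (algebraMap k K).injective
  have hΔy : MvPolynomial.aeval (yy G x c) Δ = 0 := (hΔ.ker K x c h Δ).mpr dvd_rfl
  set g : G → K := fun i => MvPolynomial.aeval (yy G x c) (MvPolynomial.pderiv i Δ) with hg
  -- algebraicity
  have halg : ∀ j ∈ G, IsAlgebraic (Algebra.adjoin k (Set.range (yy G x c))) (x j) := by
    intro j hj
    have h1 : tr k (Set.range (yy G x c) ∪ {x j}) ≤ tr k (x '' (G : Set ι) ∪ c '' (G : Set ι)) := by
      apply tr_le_of_subset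
      rintro a (⟨i, rfl⟩ | ha)
      · exact yy_mem G x c i
      · rw [Set.mem_singleton_iff] at ha
        rw [ha]
        exact subset_adjoin k _ (Or.inl ⟨j, hj, rfl⟩)
    have h2 : tr k (Set.range (yy G x c) ∪ {x j}) + 1 ≤ tr k (Set.range (yy G x c)) + 1 :=
      (add_le_add_left h1 1).trans (h.tr_le.trans htr)
    have h3 : tr k (Set.range (yy G x c) ∪ {x j}) ≤ tr k (Set.range (yy G x c)) :=
      (ENat.add_le_add_iff_right (by simp)).mp h2
    exact alg_of_tr (Set.finite_range _) Set.subset_union_left h3 (Or.inr rfl)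
  -- relations
  let g' : ι → K := fun i => if hi : i ∈ G then g ⟨i, hi⟩ else 0
  have hg' : ∀ i : G, g' i = g i := fun i => by simp [g']
  have ra : ∀ a : ι → k, ∑ i ∈ G, a i • v i ∈ N → ∑ i ∈ G, a i • (g' i * x i ^ 2) = 0 := by
    intro a ha
    have h1 := h.deriv (x1 := 0) (c1 := fun i => algebraMap k K (a i)) (by simp) (by
      intro l hl
      have h2 := hl _ ha
      rw [map_sum] at h2
      have h3 := congrArg (algebraMap k K) h2
      rw [map_sum, map_zero] at h3
      rw [← h3]
      refine Finset.sum_congr rfl fun i _ => ?_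
      rw [map_smul, smul_eq_mul, map_mul, Algebra.smul_def, mul_comm]) rfl hΔy
    rw [← Finset.sum_coe_sort G, ← h1]
    refine Finset.sum_congr rfl fun i _ => ?_
    rw [hg' i, Algebra.smul_def]
    simp [hg]
    ring
  have heuler : ∑ i ∈ G, g' i * c i * x i ^ 2 = 0 := by
    have h1 := hΔ.hom.sum_X_mul_pderiv
    have h2 := congrArg (MvPolynomial.aeval (yy G x c)) h1
    rw [map_sum, map_nsmul, hΔy, smul_zero] at h2
    rw [← Finset.sum_coe_sort G, ← h2]
    refine Finset.sum_congr rfl fun i _ => ?_
    rw [map_mul, MvPolynomial.aeval_X, hg' i]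
    simp only [yy, hg]
    ring
  have rc : ∀ l : Dual k W, (∀ w ∈ N, l w = 0) → ∑ i ∈ G, l (v i) • (g' i * c i * x i) = 0 := by
    intro l hl
    have h1 := h.deriv (x1 := fun i => algebraMap k K (l (v i)) - algebraMap k K (l (v f)) * x i)
      (c1 := 0) (by
        intro a ha
        have h2 := hl _ ha
        have h3 := h.hx a ha
        rw [map_sum] at h2
        have h4 := congrArg (algebraMap k K) h2
        rw [map_sum, map_zero] at h4
        calc ∑ i ∈ G, a i • (algebraMap k K (l (v i)) - algebraMap k K (l (v f)) * x i) =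
            ∑ i ∈ G, algebraMap k K (l (a i • v i)) -
              algebraMap k K (l (v f)) * ∑ i ∈ G, a i • x i := by
              rw [Finset.mul_sum, ← Finset.sum_sub_distrib]
              refine Finset.sum_congr rfl fun i _ => ?_
              rw [map_smul, smul_eq_mul, map_mul, Algebra.smul_def, Algebra.smul_def]
              ring
          _ = 0 := by rw [h3, h4]; ring) (by simp) (by simp [h.hxf]) hΔy
    have h5 : (2 : K) * ∑ i ∈ G, l (v i) • (g' i * c i * x i) =
        2 * algebraMap k K (l (v f)) * ∑ i ∈ G, g' i * c i * x i ^ 2 := by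
      rw [← sub_eq_zero, ← h1, Finset.mul_sum, Finset.mul_sum, ← Finset.sum_sub_distrib,
        ← Finset.sum_coe_sort G]
      refine Finset.sum_congr rfl fun i _ => ?_
      rw [hg' i, Algebra.smul_def]
      simp [hg]
      ring
    rw [heuler, mul_zero] at h5
    exact (mul_eq_zero.mp h5).resolve_left two_ne_zero
  -- the vector field
  let hh : ι → K := fun i => g' i * x i - g' f * x f
  have hrig : ∀ j ∈ G, hh j * x j = 0 := by
    intro j hj
    refine h.rigid (x1 := fun i => hh i * x i) (c1 := fun i => -2 * (hh i * c i)) ?_ ?_ ?_ ?_ hj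
      (halg j hj)
    · intro a ha
      have h1 := ra a ha
      have h2 := h.hx a ha
      calc ∑ i ∈ G, a i • (hh i * x i) = ∑ i ∈ G, a i • (g' i * x i ^ 2) -
            g' f * x f * ∑ i ∈ G, a i • x i := by
            rw [Finset.mul_sum, ← Finset.sum_sub_distrib]
            refine Finset.sum_congr rfl fun i _ => ?_
            simp only [Algebra.smul_def, hh]
            ring
        _ = 0 := by rw [h1, h2]; ring
    · intro l hl
      have h1 := rc l hl
      have h2 := h.hc l hl
      calc ∑ i ∈ G, l (v i) • (-2 * (hh i * c i)) = -2 * ∑ i ∈ G, l (v i) • (g' i * c i * x i) +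
            2 * (g' f * x f) * ∑ i ∈ G, l (v i) • c i := by
            rw [Finset.mul_sum, Finset.mul_sum, ← Finset.sum_add_distrib]
            refine Finset.sum_congr rfl fun i _ => ?_
            simp only [Algebra.smul_def, hh]
            ring
        _ = 0 := by rw [h1, h2]; ring
    · simp [hh]
    · intro i _
      ring
  have hgf : ∀ j ∈ G, g' j * x j = g' f := by
    intro j hj
    have h1 := (mul_eq_zero.mp (hrig j hj)).resolve_right (hx0 j hj)
    simp only [hh, h.hxf, mul_one] at h1
    exact sub_eq_zero.mp h1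
  have hgf0 : g' f ≠ 0 := by
    intro h0
    have hall : ∀ i : G, MvPolynomial.pderiv i Δ = 0 := by
      intro i
      have h1 : g' i = 0 := by
        have := hgf i i.2
        rw [h0] at this
        exact (mul_eq_zero.mp this).resolve_right (hx0 i i.2)
      rw [hg' i] at h1
      have h2 := (hΔ.ker K x c h _).mp h1
      by_contra hne
      have h3 := MvPolynomial.totalDegree_le_of_dvd_of_isDomain h2 hne
      have h4 : (MvPolynomial.pderiv i Δ).totalDegree ≤ D - 1 := hΔ.hom.pderiv.totalDegree_le
      rw [hΔ.hom.totalDegree hΔ.irr.ne_zero] at h3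
      have := pos_degree hΔ.hom hΔ.irr
      omega
    have h1 := hΔ.hom.sum_X_mul_pderiv
    rw [Finset.sum_eq_zero (fun i _ => by rw [hall i, mul_zero])] at h1
    have h2 := pos_degree hΔ.hom hΔ.irr
    rw [nsmul_eq_mul] at h1
    have : CharZero (MvPolynomial G k) := charZero_of_injective_algebraMap
      (algebraMap k (MvPolynomial G k)).injective
    rcases mul_eq_zero.mp h1.symm with h3 | h3
    · rw [Nat.cast_eq_zero] at h3
      omega
    · exact hΔ.irr.ne_zero h3
  have hxmem : ∀ j ∈ G, x j ∈ adjoin k (Set.range (yy G x c)) := by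
    intro j hj
    have hmem : ∀ i : G, g i ∈ adjoin k (Set.range (yy G x c)) := by
      intro i
      apply algebra_adjoin_le_adjoin
      rw [Algebra.adjoin_range_eq_range_aeval]
      exact ⟨_, rfl⟩
    have h1 := hgf j hj
    have h2 : g' j ≠ 0 := by
      intro h3
      rw [h3, zero_mul] at h1
      exact hgf0 h1.symm
    have h3 : x j = g' f / g' j := by
      rw [← h1]; field_simp
    rw [h3, hg' ⟨j, hj⟩, hg' ⟨f, h.hf⟩]
    exact div_mem (hmem _) (hmem _)
  apply le_antisymm
  · rw [adjoin_le_iff]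
    rintro _ ⟨i, rfl⟩
    exact yy_mem G x c i
  · rw [adjoin_le_iff]
    rintro _ (⟨i, hi, rfl⟩ | ⟨i, hi, rfl⟩)
    · exact hxmem i hi
    · have h1 : c i = yy G x c ⟨i, hi⟩ / x i ^ 2 := by
        have := hx0 i hi
        simp only [yy]
        field_simp
      rw [h1]
      exact div_mem (subset_adjoin k _ ⟨_, rfl⟩) (pow_mem (hxmem i hi) 2)

end K1H20.RL
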