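import Mathlib

/-!
Definitions for the degree of the dual variety of a reciprocal linear space.
All projective varieties are given by their affine cones and their homogeneous ideals.
-/

namespace K1H20.RecDual

open MvPolynomial

/-- The rank function of the matroid `M(L)` on `{0, ..., n}` represented by the linear forms `l i`. -/
noncomputable def rk {d n : ℕ} (l : Fin (n + 1) → Module.Dual ℂ (Fin (d + 1) → ℂ))
    (S : Finset (Fin (n + 1))) : ℕ :=
  Module.finrank ℂ (Submodule.span ℂ (l '' (S : Set (Fin (n + 1)))))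

/-- The matroid `M(L)` is connected: it has no separator except `∅` and the ground set. -/
def Connected {d n : ℕ} (l : Fin (n + 1) → Module.Dual ℂ (Fin (d + 1) → ℂ)) : Prop :=
  ∀ A : Finset (Fin (n + 1)), A.Nonempty → A ≠ Finset.univ →
    rk l A + rk l Aᶜ ≠ rk l Finset.univ

/-- The beta invariant `(-1)^r(E) * ∑_S (-1)^|S| r(S)`. -/
noncomputable def beta {d n : ℕ} (l : Fin (n + 1) → Module.Dual ℂ (Fin (d + 1) → ℂ)) : ℤ :=
  (-1) ^ (rk l Finset.univ) * ∑ S : Finset (Fin (n + 1)), (-1 : ℤ) ^ S.card * (rk l S : ℤ)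

/-- Homogeneous coordinates of the points `(1 / l_0(t) : ... : 1 / l_n(t))`, all `l_i(t) ≠ 0`. -/
def recipPoints {d n : ℕ} (l : Fin (n + 1) → Module.Dual ℂ (Fin (d + 1) → ℂ)) :
    Set (Fin (n + 1) → ℂ) :=
  {z | ∃ t : Fin (d + 1) → ℂ, (∀ i, l i t ≠ 0) ∧ ∀ i, z i = (l i t)⁻¹}

/-- The homogeneous ideal of the reciprocal linear space: all polynomials vanishing on the set
`recipPoints`. -/
noncomputable def recipIdeal {d n : ℕ} (l : Fin (n + 1) → Module.Dual ℂ (Fin (d + 1) → ℂ)) :
    Ideal (MvPolynomial (Fin (n + 1)) ℂ) :=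
  vanishingIdeal ℂ (recipPoints l)

/-- The Zariski tangent space at `z` of the affine cone with ideal `I`: all `w` with
`∑ ∂p/∂z_i(z) w_i = 0` for all `p ∈ I`. -/
noncomputable def tangent {n : ℕ} (I : Ideal (MvPolynomial (Fin (n + 1)) ℂ))
    (z : Fin (n + 1) → ℂ) : Submodule ℂ (Fin (n + 1) → ℂ) where
  carrier := {w | ∀ p ∈ I, ∑ i, eval z (pderiv i p) * w i = 0}
  add_mem' := by
    intro a b ha hb p hp
    simp only [Pi.add_apply, mul_add, Finset.sum_add_distrib, ha p hp, hb p hp, add_zero]
  zero_mem' := by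
    intro p _
    simp
  smul_mem' := by
    intro c a ha p hp
    have := ha p hp
    simp only [Pi.smul_apply, smul_eq_mul]
    rw [← mul_zero c, ← this, Finset.mul_sum]
    exact Finset.sum_congr rfl fun i _ => by ring

/-- `z` represents a smooth point of the projective variety with homogeneous ideal `I`: it is a
nonzero point of the affine cone at which the tangent space of the cone has the dimension of
the cone. -/
def IsSmoothPt {n : ℕ} (I : Ideal (MvPolynomial (Fin (n + 1)) ℂ)) (z : Fin (n + 1) → ℂ) : Prop :=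
  z ≠ 0 ∧ z ∈ zeroLocus ℂ I ∧
    ((Module.finrank ℂ (tangent I z) : ℕ) : WithBot ℕ∞) =
      ringKrullDim (MvPolynomial (Fin (n + 1)) ℂ ⧸ I)

/-- The vectors `y` such that the hyperplane `∑ y_i z_i = 0` is tangent to the variety at some
smooth point (together with `y = 0`): `y` is orthogonal to the tangent space of the cone at a
smooth point. -/
def dualCone {n : ℕ} (I : Ideal (MvPolynomial (Fin (n + 1)) ℂ)) : Set (Fin (n + 1) → ℂ) :=
  {y | ∃ z, IsSmoothPt I z ∧ ∀ w ∈ tangent I z, ∑ i, y i * w i = 0}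

end K1H20.RecDual
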