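import Pool.Agent.K1H20.RL.Minor

set_option linter.unusedSectionVars false
set_option linter.style.haveILetI false

namespace K1H20.RL

open Module IntermediateField IsLocalRing Pool.Agent.Helper766.Rad

variable {k : Type} [Field k] {W : Type} [AddCommGroup W] [Module k W] [FiniteDimensional k W]
  {ι : Type} [DecidableEq ι]

theorem adjoin_X_top (J : Type) :
    adjoin k (Set.range (fun j : J => algebraMap (MvPolynomial J k)
      (FractionRing (MvPolynomial J k)) (MvPolynomial.X j))) = ⊤ := by
  rw [eq_top_iff]
  intro y _
  set S := adjoin k (Set.range (fun j : J => algebraMap (MvPolynomial J k)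
      (FractionRing (MvPolynomial J k)) (MvPolynomial.X j))) with hS
  have h1 : ∀ p : MvPolynomial J k, algebraMap (MvPolynomial J k)
      (FractionRing (MvPolynomial J k)) p ∈ S := by
    intro p
    induction p using MvPolynomial.induction_on with
    | C a =>
      have : algebraMap (MvPolynomial J k) (FractionRing (MvPolynomial J k)) (MvPolynomial.C a) =
          algebraMap k (FractionRing (MvPolynomial J k)) a := by
        rw [IsScalarTower.algebraMap_apply k (MvPolynomial J k) (FractionRing (MvPolynomial J k))]
        rfl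
      rw [this]
      exact S.algebraMap_mem a
    | add p q hp hq => rw [map_add]; exact add_mem hp hq
    | mul_X p j hp =>
      rw [map_mul]
      exact mul_mem hp (subset_adjoin k _ ⟨j, rfl⟩)
  obtain ⟨a, b, hb, rfl⟩ := IsFractionRing.div_surjective (A := MvPolynomial J k) y
  exact div_mem (h1 a) (h1 b)

theorem exists_gen (v : ι → W) (N : Submodule k W) {G : Finset ι} {f : ι} (hf : f ∈ G)
    (hv : v f ∉ N) : ∃ (K : Type) (_ : Field K) (_ : Algebra k K) (x c : ι → K),
      IsGen v N G f x c ∧ adjoin k (x '' (G : Set ι) ∪ c '' (G : Set ι)) = ⊤ := by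
  classical
  let Q := (G → k) ⧸ Rx v N G
  let Z := (G → k) ⧸ Rc v N G
  let e : G → G → k := fun i => Pi.single i 1
  let u : Q := Submodule.Quotient.mk (e ⟨f, hf⟩)
  have hu : u ≠ 0 := by
    intro h
    rw [Submodule.Quotient.mk_eq_zero] at h
    change Fintype.linearCombination k (fun i : G => v i) (Pi.single ⟨f, hf⟩ 1) ∈ N at h
    rw [Fintype.linearCombination_apply_single, one_smul] at h
    exact hv h
  obtain ⟨φ, hφ⟩ := Module.Projective.exists_dual_ne_zero k hu
  let φ' : Q →ₗ[k] k := (φ u)⁻¹ • φ
  have hφ' : φ' u = 1 := by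
    simp only [φ', LinearMap.smul_apply, smul_eq_mul]
    exact inv_mul_cancel₀ hφ
  let m := finrank k (LinearMap.ker φ')
  let n := finrank k Z
  let bQ : Basis (Fin m) k (LinearMap.ker φ') := Module.finBasis k _
  let bZ : Basis (Fin n) k Z := Module.finBasis k _
  let J := Fin m ⊕ Fin n
  let K := FractionRing (MvPolynomial J k)
  let z : J → K := fun j => algebraMap (MvPolynomial J k) K (MvPolynomial.X j)
  have hz : AlgebraicIndependent k z := by
    have h1 : AlgebraicIndependent k (MvPolynomial.X : J → MvPolynomial J k) :=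
      MvPolynomial.algebraicIndependent_X J k
    exact h1.map' (f := IsScalarTower.toAlgHom k (MvPolynomial J k) K)
      (IsFractionRing.injective (MvPolynomial J k) K)
  -- projection to the kernel
  let pr : Q →ₗ[k] LinearMap.ker φ' := LinearMap.codRestrict (LinearMap.ker φ')
    (LinearMap.id - (LinearMap.toSpanSingleton k Q u) ∘ₗ φ') (fun q => by
      rw [LinearMap.mem_ker, LinearMap.sub_apply, LinearMap.id_apply, LinearMap.comp_apply,
        LinearMap.toSpanSingleton_apply, map_sub, map_smul, hφ', smul_eq_mul, mul_one, sub_self])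
  have hpr : ∀ q : LinearMap.ker φ', pr q = q := by
    intro q
    apply Subtype.ext
    change (q : Q) - (LinearMap.toSpanSingleton k Q u) (φ' q) = q
    rw [LinearMap.mem_ker.mp q.2, map_zero, sub_zero]
  let gx : Q →ₗ[k] K := (Algebra.linearMap k K) ∘ₗ φ' +
    (bQ.constr k (fun j => z (Sum.inl j))) ∘ₗ pr
  let gc : Z →ₗ[k] K := bZ.constr k (fun j => z (Sum.inr j))
  have hgxu : gx u = 1 := by
    have h1 : pr u = 0 := by
      apply Subtype.ext
      change u - (LinearMap.toSpanSingleton k Q u) (φ' u) = 0
      rw [hφ', LinearMap.toSpanSingleton_apply, one_smul, sub_self]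
    simp only [gx, LinearMap.add_apply, LinearMap.comp_apply, h1, map_zero, add_zero, hφ']
    exact (algebraMap k K).map_one
  let Gx : (G → k) →ₗ[k] K := gx ∘ₗ (Rx v N G).mkQ
  let Gc : (G → k) →ₗ[k] K := gc ∘ₗ (Rc v N G).mkQ
  let x : ι → K := fun i => if h : i ∈ G then Gx (e ⟨i, h⟩) else 0
  let c : ι → K := fun i => if h : i ∈ G then Gc (e ⟨i, h⟩) else 0
  have hxs : ∀ i : G, x i = Gx (e i) := fun i => dif_pos i.2
  have hcs : ∀ i : G, c i = Gc (e i) := fun i => dif_pos i.2
  have hlin : ∀ (F : (G → k) →ₗ[k] K) (a : G → k), F a = ∑ i : G, a i • F (e i) := by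
    intro F a
    conv_lhs => rw [show a = ∑ i : G, a i • e i by
      funext j
      simp [e, Finset.sum_apply, Pi.single_apply]]
    rw [map_sum]
    exact Finset.sum_congr rfl fun i _ => map_smul _ _ _
  have hpair : IsPair v N G x c := by
    constructor
    · intro a ha
      rw [← Finset.sum_coe_sort G]
      have h1 : ∑ i : G, a i • x i = Gx (fun i => a i) := by
        rw [hlin Gx]
        exact Finset.sum_congr rfl fun i _ => by rw [hxs]
      rw [h1]
      have h2 : (fun i : G => a i) ∈ Rx v N G := by
        change Fintype.linearCombination k (fun i : G => v i) (fun i => a i) ∈ N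
        rw [Fintype.linearCombination_apply]
        rw [← Finset.sum_coe_sort G] at ha
        exact ha
      change gx ((Rx v N G).mkQ _) = 0
      rw [Submodule.mkQ_apply, (Submodule.Quotient.mk_eq_zero _).mpr h2, map_zero]
    · intro l hl
      rw [← Finset.sum_coe_sort G]
      have h1 : ∑ i : G, l (v i) • c i = Gc (fun i => l (v i)) := by
        rw [hlin Gc]
        exact Finset.sum_congr rfl fun i _ => by rw [hcs]
      rw [h1]
      have h2 : (fun i : G => l (v i)) ∈ Rc v N G :=
        ⟨l, (Submodule.mem_dualAnnihilator l).mpr hl, rfl⟩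
      change gc ((Rc v N G).mkQ _) = 0
      rw [Submodule.mkQ_apply, (Submodule.Quotient.mk_eq_zero _).mpr h2, map_zero]
  -- ranges
  have hspx : ∀ q : Q, gx q ∈ Submodule.span k (x '' (G : Set ι)) := by
    intro q
    obtain ⟨a, rfl⟩ := Submodule.Quotient.mk_surjective _ q
    change Gx a ∈ _
    rw [hlin Gx]
    refine Submodule.sum_mem _ fun i _ => Submodule.smul_mem _ _ ?_
    rw [← hxs]
    exact Submodule.subset_span ⟨i, i.2, rfl⟩
  have hspc : ∀ q : Z, gc q ∈ Submodule.span k (c '' (G : Set ι)) := by
    intro q
    obtain ⟨a, rfl⟩ := Submodule.Quotient.mk_surjective _ q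
    change Gc a ∈ _
    rw [hlin Gc]
    refine Submodule.sum_mem _ fun i _ => Submodule.smul_mem _ _ ?_
    rw [← hcs]
    exact Submodule.subset_span ⟨i, i.2, rfl⟩
  have hrange : Set.range z ⊆ adjoin k (x '' (G : Set ι) ∪ c '' (G : Set ι)) := by
    rintro _ ⟨j, rfl⟩
    rcases j with j | j
    · have h1 : gx (bQ j : Q) = z (Sum.inl j) := by
        simp only [gx, LinearMap.add_apply, LinearMap.comp_apply, hpr, Basis.constr_basis]
        rw [LinearMap.mem_ker.mp (bQ j).2, map_zero, zero_add]
      rw [← h1]
      exact adjoin.mono k _ _ Set.subset_union_left (span_le_adjoin _ (hspx _))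
    · have h1 : gc (bZ j) = z (Sum.inr j) := by
        simp only [gc, Basis.constr_basis]
      rw [← h1]
      exact adjoin.mono k _ _ Set.subset_union_right (span_le_adjoin _ (hspc _))
  refine ⟨K, inferInstance, inferInstance, x, c, ?_, ?_⟩
  · refine { toIsPair := hpair, hf := hf, hxf := ?_, htr := ?_ }
    · exact (hxs ⟨f, hf⟩).trans hgxu
    · have h1 : tr k (Set.range z) ≤ tr k (x '' (G : Set ι) ∪ c '' (G : Set ι)) :=
        tr_le_of_subset hrange
      rw [tr_range_of_algInd hz] at h1
      refine le_trans ?_ (add_le_add_left h1 1)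
      have h2 : m + 1 = finrank k Q := by
        have h3 := LinearMap.finrank_range_add_finrank_ker φ'
        have h4 : finrank k (LinearMap.range φ') = 1 := by
          rw [LinearMap.range_eq_top.mpr (fun a => ⟨a • u, by
            rw [map_smul, hφ', smul_eq_mul, mul_one]⟩), finrank_top, finrank_self]
        rw [h4] at h3
        change 1 + m = finrank k Q at h3
        omega
      have h3 : finrank k Q + finrank k (Rx v N G) = G.card := by
        have := Submodule.finrank_quotient_add_finrank (Rx v N G)
        rw [Module.finrank_fintype_fun_eq_card, Fintype.card_coe] at this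
        exact this
      have h4 : n + finrank k (Rc v N G) = G.card := by
        have := Submodule.finrank_quotient_add_finrank (Rc v N G)
        rw [Module.finrank_fintype_fun_eq_card, Fintype.card_coe] at this
        exact this
      have h5 := finrank_Rx v N G
      have h6 := finrank_Rc v N G
      have h7 : Fintype.card J = m + n := by simp [J]
      have h8 : G.card ≤ Fintype.card J + 1 := by omega
      exact_mod_cast h8
  · rw [eq_top_iff, ← adjoin_X_top (k := k) J, adjoin_le_iff]
    exact hrange

end K1H20.RL
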