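import Pool.Agent.K1H20.RL.Gauss

set_option linter.unusedSectionVars false

namespace K1H20.RL

open Module IntermediateField IsLocalRing

variable {k : Type} [Field k] {K : Type} [Field K] [Algebra k K] {σ : Type}

theorem ev_injective {z : σ → K} {π : K}
    (h : AlgebraicIndependent k (fun o : Option σ => o.elim π z)) :
    Function.Injective (ev k z π) := by
  have h1 : (ev k z π).comp (MvPolynomial.optionEquivLeft k σ).toRingEquiv.toRingHom =
      (MvPolynomial.aeval (R := k) (fun o : Option σ => o.elim π z)).toRingHom := by
    apply MvPolynomial.ringHom_ext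
    · intro r
      simp [ev]
    · intro o
      cases o with
      | none => simp [ev]
      | some j => simp [ev]
  intro P Q hPQ
  apply (MvPolynomial.optionEquivLeft k σ).symm.injective
  apply h
  have h2 : ∀ P, MvPolynomial.aeval (R := k) (fun o : Option σ => o.elim π z)
      ((MvPolynomial.optionEquivLeft k σ).symm P) = ev k z π P := by
    intro P
    have := congrArg (fun g => g ((MvPolynomial.optionEquivLeft k σ).symm P)) h1
    simp only [RingHom.comp_apply] at this
    rw [show (MvPolynomial.optionEquivLeft k σ).toRingEquiv.toRingHom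
      ((MvPolynomial.optionEquivLeft k σ).symm P) = P from
        (MvPolynomial.optionEquivLeft k σ).apply_symm_apply P] at this
    exact this.symm
  rw [h2, h2, hPQ]

theorem exists_val {z : σ → K} {π : K}
    (h : AlgebraicIndependent k (fun o : Option σ => o.elim π z)) :
    ∃ (V : ValuationSubring K) (_ : Algebra k V) (_ : IsScalarTower k V K) (ζ : σ → V) (ϖ : V),
      (∀ j, algebraMap V K (ζ j) = z j) ∧ algebraMap V K ϖ = π ∧ residue V ϖ = 0 ∧
        AlgebraicIndependent k (fun j => residue V (ζ j)) := by
  let D := Polynomial (MvPolynomial σ k)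
  let P : Ideal D := Ideal.span {Polynomial.X}
  have : P.IsPrime := (Ideal.span_singleton_prime Polynomial.X_ne_zero).mpr Polynomial.prime_X
  have hinj := ev_injective h
  have hunit : ∀ y : P.primeCompl, IsUnit (ev k z π y) := by
    intro y
    apply IsUnit.mk0
    intro h0
    have : (y : D) = 0 := hinj (by rw [h0, map_zero])
    exact y.2 (by rw [this]; exact zero_mem P)
  let f : Localization.AtPrime P →+* K := IsLocalization.lift (M := P.primeCompl) hunit
  obtain ⟨V, hV, hloc⟩ := IsLocalRing.exists_factor_valuationRing (R := Localization.AtPrime P) (K := K) f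
  have hf : ∀ d : D, f (algebraMap D _ d) = ev k z π d := fun d => IsLocalization.lift_eq hunit d
  have hmem : ∀ d : D, ev k z π d ∈ V := fun d => by
    rw [← hf]; exact hV _
  have hkV : ∀ a : k, algebraMap k K a ∈ V := by
    intro a
    have := hmem (Polynomial.C (MvPolynomial.C a))
    rwa [ev_C, MvPolynomial.aeval_C] at this
  letI algV : Algebra k V := ((algebraMap k K).codRestrict V.toSubring hkV).toAlgebra
  have towV : IsScalarTower k V K := IsScalarTower.of_algebraMap_eq (fun _ => rfl)
  have hz : ∀ j, z j ∈ V := by
    intro j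
    have := hmem (Polynomial.C (MvPolynomial.X j))
    rwa [ev_C, MvPolynomial.aeval_X] at this
  have hπ : π ∈ V := by
    have := hmem Polynomial.X
    rwa [ev_X] at this
  have hunitV : ∀ d : D, d ∉ P → IsUnit (⟨ev k z π d, hmem d⟩ : V) := by
    intro d hd
    have h1 : IsUnit (algebraMap D (Localization.AtPrime P) d) :=
      IsLocalization.map_units (Localization.AtPrime P) (⟨d, hd⟩ : P.primeCompl)
    have h2 := h1.map (f.codRestrict V.toSubring hV)
    have h3 : (f.codRestrict V.toSubring hV) (algebraMap D (Localization.AtPrime P) d) =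
        (⟨ev k z π d, hmem d⟩ : V.toSubring) := Subtype.ext (hf d)
    rw [h3] at h2
    exact h2
  refine ⟨V, algV, towV, fun j => ⟨z j, hz j⟩, ⟨π, hπ⟩, fun j => rfl, rfl, ?_, ?_⟩
  · rw [residue_eq_zero_iff, mem_maximalIdeal, mem_nonunits_iff]
    intro hu
    have h3 : (f.codRestrict V.toSubring hV) (algebraMap D (Localization.AtPrime P) Polynomial.X) =
        (⟨π, hπ⟩ : V.toSubring) := by
      apply Subtype.ext
      change f _ = π
      rw [hf, ev_X]
    have h4 : IsUnit ((f.codRestrict V.toSubring hV)
        (algebraMap D (Localization.AtPrime P) Polynomial.X)) := by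
      rw [h3]; exact hu
    have h5 := hloc.map_nonunit _ h4
    have h6 := (IsLocalization.AtPrime.isUnit_to_map_iff (Localization.AtPrime P) P
      Polynomial.X).mp h5
    exact h6 (Ideal.subset_span rfl)
  · rw [algebraicIndependent_iff]
    intro p hp
    by_contra hp0
    have h1 : (Polynomial.C p : D) ∉ P := by
      rw [Ideal.mem_span_singleton, Polynomial.X_dvd_iff, Polynomial.coeff_C_zero]
      exact hp0
    have h2 := hunitV _ h1
    rw [← residue_ne_zero_iff_isUnit] at h2
    apply h2
    rw [← hp]
    have h3 : (⟨ev k z π (Polynomial.C p), hmem _⟩ : V) =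
        MvPolynomial.aeval (fun j => (⟨z j, hz j⟩ : V)) p := by
      apply IsFractionRing.injective V K
      change ev k z π (Polynomial.C p) = algebraMap V K _
      rw [ev_C, ← MvPolynomial.aeval_algebraMap_apply]
      rfl
    rw [h3]
    change algebraMap V (ResidueField V) _ = _
    rw [← MvPolynomial.aeval_algebraMap_apply]
    rfl

end K1H20.RL
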