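import Pool.Agent.K1H20.RL.Units

set_option linter.unusedSectionVars false

namespace K1H20.RL

open Module IntermediateField IsLocalRing

section Base

variable (k : Type) [Field k] {K : Type} [Field K] [Algebra k K] {σ : Type}

/-- evaluation of polynomials at `(z, π)` -/
noncomputable def ev (z : σ → K) (π : K) : Polynomial (MvPolynomial σ k) →+* K :=
  Polynomial.eval₂RingHom (MvPolynomial.aeval (R := k) z).toRingHom π

/-- `u` has order `n` -/
def GP (z : σ → K) (π u : K) (n : ℤ) : Prop :=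
  ∃ P Q : Polynomial (MvPolynomial σ k), P.coeff 0 ≠ 0 ∧ Q.coeff 0 ≠ 0 ∧
    u * ev k z π Q = π ^ n * ev k z π P

theorem ev_X (z : σ → K) (π : K) : ev k z π Polynomial.X = π := by simp [ev]

theorem ev_C (z : σ → K) (π : K) (p : MvPolynomial σ k) :
    ev k z π (Polynomial.C p) = MvPolynomial.aeval z p := by simp [ev]

theorem exists_coeff_zero (P : Polynomial (MvPolynomial σ k)) (hP : P ≠ 0) :
    ∃ (m : ℕ) (P' : Polynomial (MvPolynomial σ k)), P'.coeff 0 ≠ 0 ∧ P = Polynomial.X ^ m * P' := by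
  obtain ⟨q, hq1, hq2⟩ := Polynomial.exists_eq_pow_rootMultiplicity_mul_and_not_dvd P hP 0
  refine ⟨P.rootMultiplicity 0, q, ?_, ?_⟩
  · rw [map_zero, sub_zero] at hq2
    intro h
    exact hq2 (Polynomial.X_dvd_iff.mpr h)
  · rw [map_zero, sub_zero] at hq1
    exact hq1

theorem mem_adjoin_iff_ev (z : σ → K) (π : K) {a : K} :
    a ∈ Algebra.adjoin k (Set.range z ∪ {π}) → ∃ A, ev k z π A = a := by
  intro ha
  induction ha using Algebra.adjoin_induction with
  | mem a ha =>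
    rcases ha with ⟨j, rfl⟩ | ha
    · exact ⟨Polynomial.C (MvPolynomial.X j), by rw [ev_C, MvPolynomial.aeval_X]⟩
    · rw [Set.mem_singleton_iff] at ha
      exact ⟨Polynomial.X, by rw [ev_X, ha]⟩
  | algebraMap r =>
    exact ⟨Polynomial.C (MvPolynomial.C r), by rw [ev_C, MvPolynomial.aeval_C]⟩
  | add a b _ _ ha hb =>
    obtain ⟨A, rfl⟩ := ha
    obtain ⟨B, rfl⟩ := hb
    exact ⟨A + B, map_add _ _ _⟩
  | mul a b _ _ ha hb =>
    obtain ⟨A, rfl⟩ := ha
    obtain ⟨B, rfl⟩ := hb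
    exact ⟨A * B, map_mul _ _ _⟩

theorem GP_exists {z : σ → K} {π : K} (hπ : π ≠ 0)
    (htop : adjoin k (Set.range z ∪ {π}) = ⊤) {u : K} (hu : u ≠ 0) : ∃ n, GP k z π u n := by
  have h1 : u ∈ adjoin k (Set.range z ∪ {π}) := by rw [htop]; trivial
  rw [mem_adjoin_iff_div] at h1
  obtain ⟨a, ha, b, hb, rfl⟩ := h1
  obtain ⟨A, rfl⟩ := mem_adjoin_iff_ev k z π ha
  obtain ⟨B, rfl⟩ := mem_adjoin_iff_ev k z π hb
  have hA : A ≠ 0 := by
    rintro rfl
    apply hu
    rw [map_zero, zero_div]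
  have hB : B ≠ 0 := by
    rintro rfl
    apply hu
    rw [map_zero, div_zero]
  obtain ⟨m, P, hP, rfl⟩ := exists_coeff_zero k A hA
  obtain ⟨n, Q, hQ, rfl⟩ := exists_coeff_zero k B hB
  refine ⟨(m : ℤ) - n, P, Q, hP, hQ, ?_⟩
  have hQ0 : ev k z π Q ≠ 0 := by
    intro h0
    apply hu
    rw [map_mul (ev k z π) (Polynomial.X ^ n), h0, mul_zero, div_zero]
  rw [map_mul, map_mul, map_pow, map_pow, ev_X, zpow_sub₀ hπ, zpow_natCast, zpow_natCast]
  field_simp

end Base

section Vsec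

variable (V : Type) [CommRing V] [IsDomain V] [ValuationRing V]
  {K : Type} [Field K] [Algebra V K] [IsFractionRing V K]
  {k : Type} [Field k] [Algebra k V] [Algebra k K] [IsScalarTower k V K] {σ : Type}

/-- evaluation in the valuation ring -/
noncomputable def evV (k : Type) [Field k] [Algebra k V] (ζ : σ → V) (ϖ : V) :
    Polynomial (MvPolynomial σ k) →+* V :=
  Polynomial.eval₂RingHom (MvPolynomial.aeval (R := k) ζ).toRingHom ϖ

theorem algebraMap_evV (ζ : σ → V) (ϖ : V) (P : Polynomial (MvPolynomial σ k)) :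
    algebraMap V K (evV V k ζ ϖ P) =
      ev k (fun j => algebraMap V K (ζ j)) (algebraMap V K ϖ) P := by
  have : (algebraMap V K).comp (evV V k ζ ϖ) =
      ev k (fun j => algebraMap V K (ζ j)) (algebraMap V K ϖ) := by
    apply Polynomial.ringHom_ext
    · intro p
      simp only [RingHom.comp_apply, evV, ev, Polynomial.coe_eval₂RingHom, Polynomial.eval₂_C]
      change algebraMap V K (MvPolynomial.aeval ζ p) =
        MvPolynomial.aeval (algebraMap V K ∘ ζ) p
      rw [MvPolynomial.aeval_algebraMap_apply]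
    · simp [evV, ev]
  exact congrArg (fun g => g P) this

theorem residue_evV (ζ : σ → V) {ϖ : V} (hϖ : residue V ϖ = 0)
    (P : Polynomial (MvPolynomial σ k)) :
    residue V (evV V k ζ ϖ P) = MvPolynomial.aeval (fun j => residue V (ζ j)) (P.coeff 0) := by
  have : (residue V).comp (evV V k ζ ϖ) =
      (MvPolynomial.aeval (R := k) (fun j => residue V (ζ j))).toRingHom.comp
        Polynomial.constantCoeff := by
    apply Polynomial.ringHom_ext
    · intro p
      simp only [RingHom.comp_apply, evV, Polynomial.coe_eval₂RingHom, Polynomial.eval₂_C,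
        Polynomial.constantCoeff_apply, Polynomial.coeff_C_zero]
      change algebraMap V (ResidueField V) (MvPolynomial.aeval ζ p) = MvPolynomial.aeval _ p
      rw [← MvPolynomial.aeval_algebraMap_apply]
      rfl
    · simp [evV, hϖ]
  exact congrArg (fun g => g P) this

variable {V}

theorem isUnit_evV {ζ : σ → V} {ϖ : V} (hϖ : residue V ϖ = 0)
    (hζ : AlgebraicIndependent k (fun j => residue V (ζ j)))
    {P : Polynomial (MvPolynomial σ k)} (hP : P.coeff 0 ≠ 0) : IsUnit (evV V k ζ ϖ P) := by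
  rw [← residue_ne_zero_iff_isUnit, residue_evV V ζ hϖ]
  intro h
  exact hP (hζ.eq_zero_of_aeval_eq_zero _ h)

theorem GP_unit {ζ : σ → V} {ϖ : V} (hϖ : residue V ϖ = 0)
    (hζ : AlgebraicIndependent k (fun j => residue V (ζ j))) {u : K} {n : ℤ}
    (h : GP k (fun j => algebraMap V K (ζ j)) (algebraMap V K ϖ) u n) :
    ∃ ε : Vˣ, u = (algebraMap V K ϖ) ^ n * algebraMap V K ε := by
  obtain ⟨P, Q, hP, hQ, h⟩ := h
  obtain ⟨p, hp⟩ := isUnit_evV (k := k) hϖ hζ hP
  obtain ⟨q, hq⟩ := isUnit_evV (k := k) hϖ hζ hQ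
  refine ⟨p * q⁻¹, ?_⟩
  rw [← algebraMap_evV, ← algebraMap_evV, ← hp, ← hq] at h
  rw [Units.val_mul, map_mul, map_units_inv]
  have : algebraMap V K q ≠ 0 := by
    intro h0
    have : (q : V) = 0 := IsFractionRing.injective V K (by rw [h0, map_zero])
    exact q.ne_zero this
  field_simp
  rw [mul_comm, ← h]
  ring

theorem exists_pow_unit {ζ : σ → V} {ϖ : V} (hϖ : residue V ϖ = 0) (hϖ0 : ϖ ≠ 0)
    (hζ : AlgebraicIndependent k (fun j => residue V (ζ j)))
    (htop : adjoin k (Set.range (fun j => algebraMap V K (ζ j)) ∪ {algebraMap V K ϖ}) = ⊤)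
    {a : V} (ha : a ≠ 0) : ∃ (n : ℕ) (ε : Vˣ), a = ϖ ^ n * ε ∧
      GP k (fun j => algebraMap V K (ζ j)) (algebraMap V K ϖ) (algebraMap V K a) n := by
  have hϖK : algebraMap V K ϖ ≠ 0 := fun h0 =>
    hϖ0 (IsFractionRing.injective V K (by rw [h0, map_zero]))
  have haK : algebraMap V K a ≠ 0 := fun h0 =>
    ha (IsFractionRing.injective V K (by rw [h0, map_zero]))
  obtain ⟨n, hn⟩ := GP_exists k hϖK htop haK
  obtain ⟨ε, hε⟩ := GP_unit hϖ hζ hn
  rcases le_or_gt 0 n with h0 | h0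
  · lift n to ℕ using h0
    refine ⟨n, ε, ?_, hn⟩
    apply IsFractionRing.injective V K
    rw [hε, map_mul, map_pow, zpow_natCast]
  · exfalso
    obtain ⟨m, rfl⟩ : ∃ m : ℕ, n = -(m : ℤ) := ⟨n.natAbs, by omega⟩
    have hm : m ≠ 0 := by rintro rfl; simp at h0
    have h1 : ϖ ^ m * a = ε := by
      apply IsFractionRing.injective V K
      rw [map_mul, map_pow, hε, zpow_neg, zpow_natCast]
      field_simp
    have h2 : residue V (ϖ ^ m * a) = 0 := by
      rw [map_mul, map_pow, hϖ, zero_pow hm, zero_mul]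
    rw [h1] at h2
    exact ((residue_ne_zero_iff_isUnit _).mpr ε.isUnit) h2

/-- membership in the maximal ideal does not depend on the valuation ring -/
theorem mem_max_iff {ζ : σ → V} {ϖ : V} (hϖ : residue V ϖ = 0) (hϖ0 : ϖ ≠ 0)
    (hζ : AlgebraicIndependent k (fun j => residue V (ζ j)))
    (htop : adjoin k (Set.range (fun j => algebraMap V K (ζ j)) ∪ {algebraMap V K ϖ}) = ⊤)
    (u : K) : (u ∈ OO V K ∧ res V u = 0) ↔ (u = 0 ∨ ∃ n : ℕ, 1 ≤ n ∧
      GP k (fun j => algebraMap V K (ζ j)) (algebraMap V K ϖ) u n) := by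
  constructor
  · rintro ⟨⟨a, rfl⟩, h⟩
    by_cases ha : a = 0
    · left; rw [ha, map_zero]
    · right
      obtain ⟨n, ε, h1, h2⟩ := exists_pow_unit (K := K) hϖ hϖ0 hζ htop ha
      refine ⟨n, ?_, h2⟩
      by_contra hn
      have hn0 : n = 0 := by omega
      rw [hn0, pow_zero, one_mul] at h1
      rw [res_map, h1] at h
      exact ((residue_ne_zero_iff_isUnit _).mpr ε.isUnit) h
  · rintro (rfl | ⟨n, hn, h⟩)
    · exact ⟨zero_mem _, res_zero V⟩
    · obtain ⟨ε, hε⟩ := GP_unit hϖ hζ h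
      rw [zpow_natCast, ← map_pow, ← map_mul] at hε
      rw [hε]
      refine ⟨⟨_, rfl⟩, ?_⟩
      rw [res_map, map_mul, map_pow, hϖ, zero_pow (by omega), zero_mul]

theorem residueField_eq {ζ : σ → V} {ϖ : V} (hϖ : residue V ϖ = 0) (hϖ0 : ϖ ≠ 0)
    (hζ : AlgebraicIndependent k (fun j => residue V (ζ j)))
    (htop : adjoin k (Set.range (fun j => algebraMap V K (ζ j)) ∪ {algebraMap V K ϖ}) = ⊤) :
    adjoin k (Set.range (fun j => residue V (ζ j))) = ⊤ := by
  rw [eq_top_iff]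
  intro r _
  obtain ⟨a, rfl⟩ := residue_surjective r
  by_cases ha0 : residue V a = 0
  · rw [ha0]; exact zero_mem _
  have ha : a ≠ 0 := by rintro rfl; exact ha0 (map_zero _)
  obtain ⟨n, ε, h1, P, Q, hP, hQ, h2⟩ := exists_pow_unit (K := K) hϖ hϖ0 hζ htop ha
  have hn : n = 0 := by
    by_contra hn
    apply ha0
    rw [h1, map_mul, map_pow, hϖ, zero_pow hn, zero_mul]
  rw [hn, Nat.cast_zero, zpow_zero, one_mul, ← algebraMap_evV, ← algebraMap_evV, ← map_mul] at h2
  have h3 := IsFractionRing.injective V K h2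
  have h4 := congrArg (residue V) h3
  rw [map_mul, residue_evV V ζ hϖ, residue_evV V ζ hϖ] at h4
  have h5 : MvPolynomial.aeval (fun j => residue V (ζ j)) (Q.coeff 0) ≠ 0 := fun h =>
    hQ (hζ.eq_zero_of_aeval_eq_zero _ h)
  have hmem : ∀ p : MvPolynomial σ k, MvPolynomial.aeval (fun j => residue V (ζ j)) p ∈
      adjoin k (Set.range (fun j => residue V (ζ j))) := by
    intro p
    apply algebra_adjoin_le_adjoin
    rw [Algebra.adjoin_range_eq_range_aeval]
    exact ⟨p, rfl⟩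
  rw [(eq_div_iff h5).mpr h4]
  exact div_mem (hmem _) (hmem _)

theorem maximalIdeal_eq {ζ : σ → V} {ϖ : V} (hϖ : residue V ϖ = 0) (hϖ0 : ϖ ≠ 0)
    (hζ : AlgebraicIndependent k (fun j => residue V (ζ j)))
    (htop : adjoin k (Set.range (fun j => algebraMap V K (ζ j)) ∪ {algebraMap V K ϖ}) = ⊤) :
    maximalIdeal V = Ideal.span {ϖ} := by
  apply le_antisymm
  · intro a ha
    rw [Ideal.mem_span_singleton]
    by_cases ha0 : a = 0
    · rw [ha0]; exact dvd_zero _
    obtain ⟨n, ε, h1, -⟩ := exists_pow_unit (K := K) hϖ hϖ0 hζ htop ha0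
    have hn : n ≠ 0 := by
      rintro rfl
      rw [pow_zero, one_mul] at h1
      rw [h1] at ha
      exact (mem_maximalIdeal _).mp ha ε.isUnit
    rw [h1]
    exact (dvd_pow_self ϖ hn).mul_right _
  · rw [Ideal.span_singleton_le_iff_mem]
    exact (residue_eq_zero_iff ϖ).mp hϖ

end Vsec

end K1H20.RL
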