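import Pool.Agent.K1H20.RL.Minp

set_option linter.unusedSectionVars false

namespace K1H20.RL

open Module IntermediateField

variable {k : Type} [Field k] {K : Type} [Field K] [Algebra k K] {σ : Type} [Fintype σ]
  [DecidableEq σ]

theorem sum_of_hom {n : ℕ} {p : MvPolynomial σ k} (hp : p.IsHomogeneous n) {m : σ →₀ ℕ}
    (hm : m ∈ p.support) : ∑ i, m i = n := by
  have h1 := hp (MvPolynomial.mem_support_iff.mp hm)
  have h2 : Finsupp.weight (1 : σ → ℕ) m = m.degree :=
    (DFunLike.congr_fun (Finsupp.degree_eq_weight_one (R := ℕ) (σ := σ)) m).symm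
  rw [← h1, h2, Finsupp.degree_eq_sum]

theorem aeval_scale {A : Type} [CommRing A] [Algebra k A] {n : ℕ} {p : MvPolynomial σ k}
    (hp : p.IsHomogeneous n) (t : A) (x : σ → A) :
    MvPolynomial.aeval (fun i => t * x i) p = t ^ n * MvPolynomial.aeval x p := by
  rw [MvPolynomial.aeval_def, MvPolynomial.aeval_def, MvPolynomial.eval₂_eq',
    MvPolynomial.eval₂_eq', Finset.mul_sum]
  refine Finset.sum_congr rfl fun m hm => ?_
  rw [← sum_of_hom hp hm]
  simp only [mul_pow, Finset.prod_mul_distrib, Finset.prod_pow_eq_pow_sum]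
  ring

/-- the monic version of the sheared polynomial -/
noncomputable def mq (f : σ) (a : σ → k) (Δ : MvPolynomial σ k) :
    Polynomial (MvPolynomial (Ex f) k) :=
  Polynomial.C (MvPolynomial.C (MvPolynomial.eval a Δ)⁻¹) * shear f a Δ

theorem isUnit_CC {τ : Type} {c : k} (hc : c ≠ 0) :
    IsUnit (Polynomial.C (MvPolynomial.C c) : Polynomial (MvPolynomial τ k)) :=
  (IsUnit.mk0 c hc).map (Polynomial.C.comp MvPolynomial.C)

theorem mq_spec {f : σ} {a : σ → k} {Δ : MvPolynomial σ k} {D : ℕ} (hD : Δ.IsHomogeneous D)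
    (ha : a f = 1) (h0 : MvPolynomial.eval a Δ ≠ 0) :
    (mq f a Δ).Monic ∧ (mq f a Δ).natDegree = D := by
  obtain ⟨h1, h2⟩ := shear_coeff f a hD ha
  have h3 : (mq f a Δ).coeff D = 1 := by
    rw [mq, Polynomial.coeff_C_mul, h2, ← map_mul, inv_mul_cancel₀ h0, map_one]
  have h4 : (mq f a Δ).natDegree ≤ D := (Polynomial.natDegree_C_mul_le _ _).trans h1
  have h5 := Polynomial.monic_of_natDegree_le_of_coeff_eq_one D h4 h3
  refine ⟨h5, le_antisymm h4 ?_⟩
  apply Polynomial.le_natDegree_of_ne_zero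
  rw [h3]; exact one_ne_zero

theorem mq_associated {f : σ} {a : σ → k} {Δ : MvPolynomial σ k}
    (h0 : MvPolynomial.eval a Δ ≠ 0) : Associated (shear f a Δ) (mq f a Δ) := by
  obtain ⟨u, hu⟩ := isUnit_CC (τ := Ex f) (inv_ne_zero h0)
  exact ⟨u, by rw [mq, hu, mul_comm]⟩

theorem mq_irreducible {f : σ} {a : σ → k} {Δ : MvPolynomial σ k}
    (h0 : MvPolynomial.eval a Δ ≠ 0) (h : Irreducible Δ) : Irreducible (mq f a Δ) := by
  refine (mq_associated h0).irreducible ?_
  exact (MulEquiv.irreducible_iff (shearEquiv f a)).mpr h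

theorem mq_ev {f : σ} {a : σ → k} {Δ : MvPolynomial σ k} {y : σ → K}
    (hy : MvPolynomial.aeval y Δ = 0) : ev k (ww f a y) (y f) (mq f a Δ) = 0 := by
  rw [mq, map_mul, ev_shear, hy, mul_zero]

theorem mq_dvd_iff {f : σ} {a : σ → k} {Δ : MvPolynomial σ k}
    (h0 : MvPolynomial.eval a Δ ≠ 0) (p : MvPolynomial σ k) :
    mq f a Δ ∣ shear f a p ↔ Δ ∣ p := by
  rw [← (mq_associated h0).dvd_iff_dvd_left]
  exact map_dvd_iff (shearEquiv f a)

theorem pos_degree {Δ : MvPolynomial σ k} {D : ℕ} (hD : Δ.IsHomogeneous D)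
    (h : Irreducible Δ) : 1 ≤ D := by
  by_contra hlt
  have hD0 : D = 0 := by omega
  subst hD0
  have h1 : Δ.totalDegree = 0 := Nat.le_zero.mp hD.totalDegree_le
  rw [MvPolynomial.totalDegree_eq_zero_iff_eq_C] at h1
  rw [h1] at h
  by_cases hc : MvPolynomial.coeff 0 Δ = 0
  · rw [hc, map_zero] at h
    exact not_irreducible_zero h
  · exact h.not_isUnit ((IsUnit.mk0 _ hc).map MvPolynomial.C)

theorem range_ww_subset (f : σ) (a : σ → k) (y : σ → K) :
    Set.range y ⊆ adjoin k (Set.range (ww f a y) ∪ {y f}) := by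
  rintro _ ⟨i, rfl⟩
  have hf : y f ∈ adjoin k (Set.range (ww f a y) ∪ {y f}) := subset_adjoin k _ (Or.inr rfl)
  by_cases h : i = f
  · rw [h]; exact hf
  · have h1 : ww f a y ⟨i, h⟩ ∈ adjoin k (Set.range (ww f a y) ∪ {y f}) :=
      subset_adjoin k _ (Or.inl ⟨_, rfl⟩)
    have h2 : y i = ww f a y ⟨i, h⟩ + algebraMap k K (a i) * y f := by
      simp [ww]
    rw [h2]
    exact add_mem h1 (mul_mem (IntermediateField.algebraMap_mem _ _) hf)

/-- existence of a point with `a f = 1` where a nonzero homogeneous polynomial does not vanish -/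
theorem exists_point [Infinite k] (f : σ) {Δ : MvPolynomial σ k} {D : ℕ}
    (hD : Δ.IsHomogeneous D) (h : Δ ≠ 0) : ∃ a : σ → k, a f = 1 ∧ MvPolynomial.eval a Δ ≠ 0 := by
  have h1 : Δ * MvPolynomial.X f ≠ 0 := mul_ne_zero h (MvPolynomial.X_ne_zero f)
  obtain ⟨b, hb⟩ : ∃ b : σ → k, MvPolynomial.eval b (Δ * MvPolynomial.X f) ≠ 0 := by
    by_contra hcon
    push Not at hcon
    exact h1 (MvPolynomial.funext (fun x => by rw [hcon x, map_zero]))
  rw [map_mul, MvPolynomial.eval_X] at hb
  have hb1 : b f ≠ 0 := right_ne_zero_of_mul hb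
  have hb2 : MvPolynomial.eval b Δ ≠ 0 := left_ne_zero_of_mul hb
  refine ⟨fun i => (b f)⁻¹ * b i, inv_mul_cancel₀ hb1, ?_⟩
  have h2 : MvPolynomial.eval (fun i => (b f)⁻¹ * b i) Δ = ((b f)⁻¹) ^ D * MvPolynomial.eval b Δ := by
    have := aeval_scale hD (b f)⁻¹ b
    exact this
  rw [h2]
  exact mul_ne_zero (pow_ne_zero _ (inv_ne_zero hb1)) hb2

theorem exists_disc [Infinite k] (f : σ) (y : σ → K)
    (hhom : ∀ p : MvPolynomial σ k, MvPolynomial.aeval y p = 0 →
      ∀ n, MvPolynomial.aeval y (MvPolynomial.homogeneousComponent n p) = 0)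
    (hne : ∃ p : MvPolynomial σ k, p ≠ 0 ∧ MvPolynomial.aeval y p = 0)
    (htr : (Fintype.card σ : ℕ∞) ≤ tr k (Set.range y) + 1) :
    ∃ (Δ : MvPolynomial σ k) (D : ℕ), Δ.IsHomogeneous D ∧ Irreducible Δ ∧
      ∀ p, MvPolynomial.aeval y p = 0 ↔ Δ ∣ p := by
  classical
  -- the minimal degree
  have hex : ∃ n : ℕ, ∃ p : MvPolynomial σ k, p ≠ 0 ∧ p.IsHomogeneous n ∧
      MvPolynomial.aeval y p = 0 := by
    obtain ⟨p, hp0, hp⟩ := hne
    obtain ⟨n, hn⟩ : ∃ n, MvPolynomial.homogeneousComponent n p ≠ 0 := by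
      by_contra hcon
      push Not at hcon
      apply hp0
      rw [← MvPolynomial.sum_homogeneousComponent p]
      exact Finset.sum_eq_zero fun i _ => hcon i
    exact ⟨n, _, hn, MvPolynomial.homogeneousComponent_isHomogeneous n p, hhom p hp n⟩
  obtain ⟨Δ, hΔ0, hD, hΔy⟩ := Nat.find_spec hex
  set D := Nat.find hex with hDdef
  have hmin : ∀ p : MvPolynomial σ k, p ≠ 0 → MvPolynomial.aeval y p = 0 → D ≤ p.totalDegree := by
    intro p hp0 hp
    obtain ⟨n, hn⟩ : ∃ n, MvPolynomial.homogeneousComponent n p ≠ 0 := by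
      by_contra hcon
      push Not at hcon
      apply hp0
      rw [← MvPolynomial.sum_homogeneousComponent p]
      exact Finset.sum_eq_zero fun i _ => hcon i
    have h1 : D ≤ n := Nat.find_min' hex ⟨_, hn,
      MvPolynomial.homogeneousComponent_isHomogeneous n p, hhom p hp n⟩
    have h2 : n ≤ p.totalDegree := by
      by_contra hlt
      exact hn (MvPolynomial.homogeneousComponent_eq_zero _ _ (by omega))
    omega
  have hirr : Irreducible Δ := by
    constructor
    · intro hu
      have := hu.map (MvPolynomial.aeval (R := k) y)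
      rw [hΔy] at this
      exact not_isUnit_zero this
    · intro a b hab
      have ha0 : a ≠ 0 := by rintro rfl; exact hΔ0 (by rw [hab, zero_mul])
      have hb0 : b ≠ 0 := by rintro rfl; exact hΔ0 (by rw [hab, mul_zero])
      have hdeg : a.totalDegree + b.totalDegree = D := by
        rw [← MvPolynomial.totalDegree_mul_of_isDomain ha0 hb0, ← hab]
        exact hD.totalDegree hΔ0
      have hunit : ∀ q : MvPolynomial σ k, q ≠ 0 → q.totalDegree = 0 → IsUnit q := by
        intro q hq0 hq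
        rw [MvPolynomial.totalDegree_eq_zero_iff_eq_C] at hq
        rw [hq]
        refine (IsUnit.mk0 _ ?_).map MvPolynomial.C
        intro h0
        apply hq0
        rw [hq, h0, map_zero]
      have h1 : MvPolynomial.aeval y a * MvPolynomial.aeval y b = 0 := by
        rw [← map_mul, ← hab, hΔy]
      rcases mul_eq_zero.mp h1 with h2 | h2
      · have := hmin a ha0 h2
        exact Or.inr (hunit b hb0 (by omega))
      · have := hmin b hb0 h2
        exact Or.inl (hunit a ha0 (by omega))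
  refine ⟨Δ, D, hD, hirr, fun p => ⟨fun hp => ?_, fun ⟨q, hq⟩ => by
    rw [hq, map_mul, hΔy, zero_mul]⟩⟩
  obtain ⟨a, ha, hΔa⟩ := exists_point f hD hΔ0
  obtain ⟨hmon, hdeg⟩ := mq_spec hD ha hΔa
  -- `w` is algebraically independent
  have hint : IsAlgebraic (adjoin k (Set.range (ww f a y))) (y f) := by
    refine ⟨(mq f a Δ).map ((MvPolynomial.aeval (R := k) (fun j => (⟨ww f a y j,
      subset_adjoin k _ ⟨j, rfl⟩⟩ : adjoin k (Set.range (ww f a y))))).toRingHom),
      (hmon.map _).ne_zero, ?_⟩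
    rw [Polynomial.aeval_def, Polynomial.eval₂_map]
    have := mq_ev (f := f) (a := a) hΔy
    unfold ev at this
    rw [Polynomial.coe_eval₂RingHom] at this
    rw [← this]
    congr 1
    apply MvPolynomial.ringHom_ext
    · intro r
      simp
    · intro j
      simp
  have htr2 : tr k (Set.range y) ≤ tr k (Set.range (ww f a y)) := by
    apply tr_le_of_alg'
    rintro _ ⟨i, rfl⟩
    by_cases h : i = f
    · rw [h]; exact hint
    · have h2 : y i = ww f a y ⟨i, h⟩ + algebraMap k K (a i) * y f := by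
        simp [ww]
      rw [h2]
      refine IsAlgebraic.add ?_ (IsAlgebraic.mul ?_ hint)
      · exact isAlgebraic_algebraMap (A := K) (⟨ww f a y ⟨i, h⟩, subset_adjoin k _ ⟨_, rfl⟩⟩ :
          adjoin k (Set.range (ww f a y)))
      · exact (isAlgebraic_algebraMap (A := K) (algebraMap k (adjoin k (Set.range (ww f a y))) (a i)))
  have hcard : Fintype.card (Ex f) + 1 = Fintype.card σ := by
    have := Fintype.card_subtype_compl (fun i : σ => i = f)
    simp only [Fintype.card_subtype_eq] at this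
    have h2 : 0 < Fintype.card σ := Fintype.card_pos_iff.mpr ⟨f⟩
    rw [this]; omega
  have hw : AlgebraicIndependent k (ww f a y) := by
    apply algInd_of_le_tr
    have h3 := htr.trans (add_le_add_left htr2 1)
    rw [← hcard, Nat.cast_add, Nat.cast_one] at h3
    exact (ENat.add_le_add_iff_right (by simp)).mp h3
  have h4 := (minp hw hmon (mq_irreducible hΔa hirr) (mq_ev hΔy)).1 (shear f a p)
    (by rw [ev_shear, hp])
  exact (mq_dvd_iff hΔa p).mp h4

/-- degree of the projection -/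
theorem degree_proj {f : σ} {a : σ → k} {Δ : MvPolynomial σ k} {D : ℕ} {y : σ → K}
    (hD : Δ.IsHomogeneous D) (hirr : Irreducible Δ)
    (hker : ∀ p, MvPolynomial.aeval y p = 0 ↔ Δ ∣ p)
    (ha : a f = 1) (hΔa : MvPolynomial.eval a Δ ≠ 0) :
    AlgebraicIndependent k (ww f a y) ∧
      (adjoin k (Set.range y) = ⊤ → finrank (adjoin k (Set.range (ww f a y))) K = D) := by
  obtain ⟨hmon, hdeg⟩ := mq_spec hD ha hΔa
  have hΔy : MvPolynomial.aeval y Δ = 0 := (hker Δ).mpr dvd_rfl
  have hw : AlgebraicIndependent k (ww f a y) := by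
    rw [algebraicIndependent_iff]
    intro p hp
    by_contra hp0
    have h1 : MvPolynomial.aeval y (unshear f a (Polynomial.C p)) = 0 := by
      rw [← ev_shear f a, shear_unshear, ev_C, hp]
    have h2 := (mq_dvd_iff (f := f) hΔa _).mpr ((hker _).mp h1)
    rw [shear_unshear] at h2
    have h3 := Polynomial.natDegree_le_of_dvd h2 (by
      rw [Ne, Polynomial.C_eq_zero]; exact hp0)
    rw [Polynomial.natDegree_C, hdeg] at h3
    have := pos_degree hD hirr
    omega
  refine ⟨hw, fun htop => ?_⟩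
  rw [(minp hw hmon (mq_irreducible hΔa hirr) (mq_ev hΔy)).2 ?_, hdeg]
  rw [eq_top_iff, ← htop, adjoin_le_iff]
  exact range_ww_subset f a y

end K1H20.RL
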