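import Pool.Agent.K1H20.RL.Spec
import Pool.Agent.K1H20.RL.HS

set_option linter.unusedSectionVars false

namespace K1H20.RL

open Module IntermediateField

variable {k : Type} [Field k] {W : Type} [AddCommGroup W] [Module k W] [FiniteDimensional k W]
  {ι : Type} [DecidableEq ι]

/-- the products `c x ^ 2` -/
def yy (G : Finset ι) {A : Type} [CommRing A] (x c : ι → A) : G → A := fun i => c i * x i ^ 2

theorem range_yy (G : Finset ι) {A : Type} [CommRing A] (x c : ι → A) :
    Set.range (yy G x c) = (fun i => c i * x i ^ 2) '' (G : Set ι) := by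
  ext a
  simp [yy]

variable {K : Type} [Field K] [Algebra k K] {v : ι → W} {N : Submodule k W} {G : Finset ι}
  {f : ι} {x c : ι → K}

theorem IsGen.specP (h : IsGen v N G f x c) {A : Type} [CommRing A] [Algebra k A] {x' c' : ι → A}
    (hp : IsPair v N G x' c') (hf' : x' f = 1) (P : Polynomial (MvPolynomial G k)) {j : ι}
    (hj : j ∈ G)
    (h0 : Polynomial.eval₂ (MvPolynomial.aeval (R := k) (yy G x c)).toRingHom (x j) P = 0) :
    Polynomial.eval₂ (MvPolynomial.aeval (R := k) (yy G x' c')).toRingHom (x' j) P = 0 := by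
  obtain ⟨J, hJ, z, X, C, hz, hXC, hΦ⟩ := h.spec
  obtain ⟨Φ, hΦ⟩ := hΦ A x' c' hp hf'
  let Y : G → MvPolynomial J k := yy G X C
  have h1 : (MvPolynomial.aeval (R := k) (yy G x c)).toRingHom =
      (MvPolynomial.aeval (R := k) z).toRingHom.comp (MvPolynomial.aeval (R := k) Y).toRingHom := by
    apply MvPolynomial.ringHom_ext
    · intro r
      simp
    · intro i
      have := hXC i i.2
      simp [Y, yy, this.1, this.2]
  have h2 : (MvPolynomial.aeval (R := k) (yy G x' c')).toRingHom =
      Φ.toRingHom.comp (MvPolynomial.aeval (R := k) Y).toRingHom := by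
    apply MvPolynomial.ringHom_ext
    · intro r
      simp
    · intro i
      have := hΦ i i.2
      simp [Y, yy, this.1, this.2]
  rw [h1, ← (hXC j hj).1] at h0
  have h3 := Polynomial.hom_eval₂ P (MvPolynomial.aeval (R := k) Y).toRingHom
    (MvPolynomial.aeval (R := k) z).toRingHom (X j)
  have h4 : Polynomial.eval₂ (MvPolynomial.aeval (R := k) Y).toRingHom (X j) P = 0 := by
    apply hz
    rw [map_zero]
    exact h3.trans h0
  rw [h2, ← (hΦ j hj).1]
  have h5 := Polynomial.hom_eval₂ P (MvPolynomial.aeval (R := k) Y).toRingHom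
    Φ.toRingHom (X j)
  rw [h4] at h5
  refine Eq.trans h5.symm ?_
  exact map_zero Φ

theorem IsGen.specY (h : IsGen v N G f x c) {A : Type} [CommRing A] [Algebra k A] {x' c' : ι → A}
    (hp : IsPair v N G x' c') (hf' : x' f = 1) {p : MvPolynomial G k}
    (h0 : MvPolynomial.aeval (yy G x c) p = 0) : MvPolynomial.aeval (yy G x' c') p = 0 := by
  have := h.specP hp hf' (Polynomial.C p) h.hf (by rw [Polynomial.eval₂_C]; exact h0)
  rwa [Polynomial.eval₂_C] at this

/-- the kernel does not depend on the generic pair -/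
theorem IsGen.ker_iff (h : IsGen v N G f x c) {K' : Type} [Field K'] [Algebra k K']
    {x' c' : ι → K'} (h' : IsGen v N G f x' c') (p : MvPolynomial G k) :
    MvPolynomial.aeval (yy G x c) p = 0 ↔ MvPolynomial.aeval (yy G x' c') p = 0 :=
  ⟨fun h0 => h.specY h'.toIsPair h'.hxf h0, fun h0 => h'.specY h.toIsPair h.hxf h0⟩

theorem IsGen.hom (h : IsGen v N G f x c) {p : MvPolynomial G k}
    (h0 : MvPolynomial.aeval (yy G x c) p = 0) (n : ℕ) :
    MvPolynomial.aeval (yy G x c) (MvPolynomial.homogeneousComponent n p) = 0 := by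
  have hp : IsPair v N G (A := Polynomial K) (fun i => Polynomial.C (x i))
      (fun i => Polynomial.X * Polynomial.C (c i)) := by
    constructor
    · intro a ha
      have := h.hx a ha
      rw [← Polynomial.C_0, ← this, map_sum]
      refine Finset.sum_congr rfl fun i _ => ?_
      rw [Polynomial.smul_C]
    · intro l hl
      have := h.hc l hl
      have e : ∑ i ∈ G, l (v i) • (Polynomial.X * Polynomial.C (c i)) =
          (Polynomial.X : Polynomial K) * Polynomial.C (∑ i ∈ G, l (v i) • c i) := by
        rw [map_sum, Finset.mul_sum]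
        refine Finset.sum_congr rfl fun i _ => ?_
        rw [← Polynomial.smul_C, mul_smul_comm]
      rw [e, this, map_zero, mul_zero]
  have h1 := h.specY hp (by rw [h.hxf, map_one]) h0
  have h2 : yy G (A := Polynomial K) (fun i => Polynomial.C (x i))
      (fun i => Polynomial.X * Polynomial.C (c i)) =
      fun i => Polynomial.X * Polynomial.C (yy G x c i) := by
    funext i
    simp only [yy, map_mul, map_pow]
    ring
  rw [h2] at h1
  have h3 : ∀ q : MvPolynomial G k, MvPolynomial.aeval (fun i => Polynomial.C (yy G x c i)) q =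
      Polynomial.C (MvPolynomial.aeval (yy G x c) q) := by
    intro q
    have := MvPolynomial.aeval_algebraMap_apply (R := k) (A := K) (B := Polynomial K) (yy G x c) q
    exact this
  have h4 : MvPolynomial.aeval (fun i => Polynomial.X * Polynomial.C (yy G x c i)) p =
      ∑ m ∈ Finset.range (p.totalDegree + 1), Polynomial.X ^ m *
        Polynomial.C (MvPolynomial.aeval (yy G x c) (MvPolynomial.homogeneousComponent m p)) := by
    conv_lhs => rw [← MvPolynomial.sum_homogeneousComponent p]
    rw [map_sum]
    refine Finset.sum_congr rfl fun m _ => ?_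
    rw [aeval_scale (MvPolynomial.homogeneousComponent_isHomogeneous m p), h3]
  rw [h4] at h1
  by_cases hn : n ≤ p.totalDegree
  · have h5 := congrArg (fun q => Polynomial.coeff q n) h1
    simp only [Polynomial.finsetSum_coeff, Polynomial.coeff_zero] at h5
    rw [Finset.sum_eq_single n] at h5
    · rwa [mul_comm, Polynomial.coeff_C_mul_X_pow, if_pos rfl] at h5
    · intro m _ hm
      rw [mul_comm, Polynomial.coeff_C_mul_X_pow, if_neg (Ne.symm hm)]
    · intro hn'
      exact absurd (Finset.mem_range.mpr (by omega)) hn'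
  · rw [MvPolynomial.homogeneousComponent_eq_zero _ _ (by omega), map_zero]

/-- `Δ` is the discriminant of `(N, G)` -/
structure IsDisc (v : ι → W) (N : Submodule k W) (G : Finset ι) (f : ι) (Δ : MvPolynomial G k)
    (D : ℕ) : Prop where
  hom : Δ.IsHomogeneous D
  irr : Irreducible Δ
  ker : ∀ (K : Type) [Field K] [Algebra k K] (x c : ι → K), IsGen v N G f x c →
    ∀ p, MvPolynomial.aeval (yy G x c) p = 0 ↔ Δ ∣ p

theorem IsGen.exists_isDisc [Infinite k] (h : IsGen v N G f x c)
    (htr : (G.card : ℕ∞) ≤ tr k (Set.range (yy G x c)) + 1) :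
    ∃ (Δ : MvPolynomial G k) (D : ℕ), IsDisc v N G f Δ D := by
  classical
  have hne : ∃ p : MvPolynomial G k, p ≠ 0 ∧ MvPolynomial.aeval (yy G x c) p = 0 := by
    by_contra hcon
    push Not at hcon
    have hai : AlgebraicIndependent k (yy G x c) := by
      rw [algebraicIndependent_iff]
      intro p hp
      by_contra h0
      exact hcon p h0 hp
    have h1 := tr_range_of_algInd hai
    rw [Fintype.card_coe] at h1
    have h2 := tr_add_one_le (k := k) G (x := x) (c := c) h.hf h.hxf
    have h3 : tr k (Set.range (yy G x c)) ≤ tr k (x '' (G : Set ι) ∪ c '' (G : Set ι)) := by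
      apply tr_le_of_subset
      rintro _ ⟨i, rfl⟩
      have e1 : c i ∈ adjoin k (x '' (G : Set ι) ∪ c '' (G : Set ι)) :=
        subset_adjoin k _ (Or.inr ⟨i, i.2, rfl⟩)
      have e2 : x i ∈ adjoin k (x '' (G : Set ι) ∪ c '' (G : Set ι)) :=
        subset_adjoin k _ (Or.inl ⟨i, i.2, rfl⟩)
      exact mul_mem e1 (pow_mem e2 2)
    have h4 := h.finrank_eq
    have h5 := (add_le_add_left h3 1).trans h2
    rw [h1] at h5
    have h6 : G.card + 1 ≤ finrank k (Submodule.span k (x '' (G : Set ι))) +
        finrank k (Submodule.span k (c '' (G : Set ι))) := by exact_mod_cast h5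
    omega
  obtain ⟨Δ, D, h1, h2, h3⟩ := exists_disc (⟨f, h.hf⟩ : G) (yy G x c) (fun p hp n => h.hom hp n)
    hne (by rwa [Fintype.card_coe])
  refine ⟨Δ, D, h1, h2, fun K' _ _ x' c' h' p => ?_⟩
  rw [← h3 p]
  exact h'.ker_iff h p

end K1H20.RL
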