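import Pool.Agent.K1H20.RL.Defs
import Pool.Agent.K1H20.RL.Exg
import Pool.Agent.Helper834.EC.Dim1

set_option linter.unusedSectionVars false
set_option linter.style.haveILetI false

namespace K1H20.RecDual

open MvPolynomial K1H20.RL

variable {d n : ℕ}

/-- a linear form as a polynomial -/
noncomputable def lf (φ : Module.Dual ℂ (Fin (d + 1) → ℂ)) : MvPolynomial (Fin (d + 1)) ℂ :=
  ∑ j, C (φ (Pi.single j 1)) * X j

theorem eval_lf (φ : Module.Dual ℂ (Fin (d + 1) → ℂ)) (t : Fin (d + 1) → ℂ) :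
    eval t (lf φ) = φ t := by
  unfold lf
  rw [map_sum]
  simp only [map_mul, eval_C, eval_X]
  conv_rhs => rw [show t = ∑ j, t j • (Pi.single j (1 : ℂ) : Fin (d + 1) → ℂ) by
    funext i
    simp [Finset.sum_apply, Pi.single_apply]]
  rw [map_sum]
  exact Finset.sum_congr rfl fun j _ => by rw [map_smul, smul_eq_mul, mul_comm]

theorem lf_ne {φ : Module.Dual ℂ (Fin (d + 1) → ℂ)} (h : φ ≠ 0) : lf φ ≠ 0 := by
  intro h0
  apply h
  apply LinearMap.ext
  intro t
  rw [← eval_lf, h0, map_zero]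
  rfl

/-- polynomials vanishing at all good points -/
theorem eq_zero_of_good {l : Fin (n + 1) → Module.Dual ℂ (Fin (d + 1) → ℂ)} (hl : ∀ i, l i ≠ 0)
    {q : MvPolynomial (Fin (d + 1)) ℂ}
    (h : ∀ t : Fin (d + 1) → ℂ, (∀ i, l i t ≠ 0) → eval t q = 0) : q = 0 := by
  have h1 : q * ∏ i, lf (l i) = 0 := by
    apply MvPolynomial.funext
    intro t
    rw [map_mul, map_prod, map_zero]
    by_cases ht : ∀ i, l i t ≠ 0
    · rw [h t ht, zero_mul]
    · push Not at ht
      obtain ⟨i, hi⟩ := ht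
      rw [Finset.prod_eq_zero (Finset.mem_univ i) (by rw [eval_lf, hi]), mul_zero]
  rcases mul_eq_zero.mp h1 with h2 | h2
  · exact h2
  · obtain ⟨i, -, hi⟩ := Finset.prod_eq_zero_iff.mp h2
    exact absurd hi (lf_ne (hl i))

/-- the function field -/
abbrev FF (d : ℕ) := FractionRing (MvPolynomial (Fin (d + 1)) ℂ)

/-- a linear form as an element of the function field -/
noncomputable def af (φ : Module.Dual ℂ (Fin (d + 1) → ℂ)) : FF d :=
  algebraMap (MvPolynomial (Fin (d + 1)) ℂ) (FF d) (lf φ)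

theorem af_ne {φ : Module.Dual ℂ (Fin (d + 1) → ℂ)} (h : φ ≠ 0) : af φ ≠ 0 := by
  intro h0
  apply lf_ne h
  apply IsFractionRing.injective (MvPolynomial (Fin (d + 1)) ℂ) (FF d)
  rw [map_zero]
  exact h0

/-- the parametrisation -/
noncomputable def par (l : Fin (n + 1) → Module.Dual ℂ (Fin (d + 1) → ℂ)) :
    MvPolynomial (Fin (n + 1)) ℂ →ₐ[ℂ] FF d := aeval (fun i => (af (l i))⁻¹)

theorem clear {l : Fin (n + 1) → Module.Dual ℂ (Fin (d + 1) → ℂ)} (hl : ∀ i, l i ≠ 0)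
    (p : MvPolynomial (Fin (n + 1)) ℂ) : ∃ (N : ℕ) (q : MvPolynomial (Fin (d + 1)) ℂ),
      par l p * (∏ i, af (l i)) ^ N = algebraMap (MvPolynomial (Fin (d + 1)) ℂ) (FF d) q ∧
      ∀ t : Fin (d + 1) → ℂ, (∀ i, l i t ≠ 0) →
        eval (fun i => (l i t)⁻¹) p * (∏ i, l i t) ^ N = eval t q := by
  classical
  have hL : (∏ i, af (l i)) = algebraMap (MvPolynomial (Fin (d + 1)) ℂ) (FF d) (∏ i, lf (l i)) := by
    rw [map_prod]; rfl
  have hLt : ∀ t, (∏ i, l i t) = eval t (∏ i, lf (l i)) := by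
    intro t
    rw [map_prod]
    exact Finset.prod_congr rfl fun i _ => (eval_lf _ _).symm
  induction p using MvPolynomial.induction_on with
  | C r =>
    refine ⟨0, C r, ?_, fun t _ => ?_⟩
    · rw [pow_zero, mul_one]
      simp only [par, aeval_C]
      rw [IsScalarTower.algebraMap_apply ℂ (MvPolynomial (Fin (d + 1)) ℂ) (FF d)]
      rfl
    · simp
  | add p p' hp hp' =>
    obtain ⟨N, q, h1, h2⟩ := hp
    obtain ⟨N', q', h1', h2'⟩ := hp'
    refine ⟨N + N', q * (∏ i, lf (l i)) ^ N' + q' * (∏ i, lf (l i)) ^ N, ?_, fun t ht => ?_⟩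
    · rw [map_add, map_add, map_mul, map_mul, map_pow, map_pow, ← h1, ← h1', ← hL]
      ring
    · rw [map_add, map_add, map_mul, map_mul, map_pow, map_pow, ← h2 t ht, ← h2' t ht, ← hLt]
      ring
  | mul_X p j hp =>
    obtain ⟨N, q, h1, h2⟩ := hp
    refine ⟨N + 1, q * ∏ i ∈ Finset.univ.erase j, lf (l i), ?_, fun t ht => ?_⟩
    · have e1 : (∏ i, af (l i)) = af (l j) * algebraMap (MvPolynomial (Fin (d + 1)) ℂ) (FF d)
          (∏ i ∈ Finset.univ.erase j, lf (l i)) := by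
        rw [← Finset.mul_prod_erase Finset.univ _ (Finset.mem_univ j), map_prod]; rfl
      have e2 : par l (X j) = (af (l j))⁻¹ := by simp [par]
      rw [map_mul, map_mul, ← h1, e2]
      calc par l p * (af (l j))⁻¹ * (∏ i, af (l i)) ^ (N + 1)
          = par l p * (∏ i, af (l i)) ^ N * ((af (l j))⁻¹ * ∏ i, af (l i)) := by ring
        _ = _ := by
            congr 1
            rw [e1, ← mul_assoc, inv_mul_cancel₀ (af_ne (hl j)), one_mul]
    · have e1 : (∏ i, l i t) = l j t * eval t (∏ i ∈ Finset.univ.erase j, lf (l i)) := by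
        rw [← Finset.mul_prod_erase Finset.univ _ (Finset.mem_univ j), map_prod]
        congr 1
        exact Finset.prod_congr rfl fun i _ => (eval_lf _ _).symm
      rw [map_mul, map_mul, ← h2 t ht, eval_X]
      calc eval (fun i => (l i t)⁻¹) p * (l j t)⁻¹ * (∏ i, l i t) ^ (N + 1)
          = eval (fun i => (l i t)⁻¹) p * (∏ i, l i t) ^ N * ((l j t)⁻¹ * ∏ i, l i t) := by ring
        _ = _ := by
            congr 1
            rw [e1, ← mul_assoc, inv_mul_cancel₀ (ht j), one_mul]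

theorem mem_recipIdeal {l : Fin (n + 1) → Module.Dual ℂ (Fin (d + 1) → ℂ)}
    {p : MvPolynomial (Fin (n + 1)) ℂ} : p ∈ recipIdeal l ↔
      ∀ t : Fin (d + 1) → ℂ, (∀ i, l i t ≠ 0) → eval (fun i => (l i t)⁻¹) p = 0 := by
  unfold recipIdeal
  rw [mem_vanishingIdeal_iff]
  constructor
  · intro h t ht
    exact h _ ⟨t, ht, fun i => rfl⟩
  · rintro h z ⟨t, ht, hz⟩
    have : z = fun i => (l i t)⁻¹ := funext hz
    rw [this]
    exact h t ht

theorem mem_recipIdeal_iff {l : Fin (n + 1) → Module.Dual ℂ (Fin (d + 1) → ℂ)} (hl : ∀ i, l i ≠ 0)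
    (p : MvPolynomial (Fin (n + 1)) ℂ) : p ∈ recipIdeal l ↔ par l p = 0 := by
  obtain ⟨N, q, h1, h2⟩ := clear hl p
  have hP : (∏ i, af (l i)) ^ N ≠ 0 :=
    pow_ne_zero _ (Finset.prod_ne_zero_iff.mpr fun i _ => af_ne (hl i))
  rw [mem_recipIdeal]
  constructor
  · intro h
    have h3 : q = 0 := eq_zero_of_good hl (fun t ht => by rw [← h2 t ht, h t ht, zero_mul])
    rw [h3, map_zero] at h1
    exact (mul_eq_zero.mp h1).resolve_right hP
  · intro h t ht
    rw [h, zero_mul] at h1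
    have h3 : q = 0 := by
      apply IsFractionRing.injective (MvPolynomial (Fin (d + 1)) ℂ) (FF d)
      rw [← h1, map_zero]
    have h4 := h2 t ht
    rw [h3, map_zero] at h4
    exact (mul_eq_zero.mp h4).resolve_right
      (pow_ne_zero _ (Finset.prod_ne_zero_iff.mpr fun i _ => ht i))

theorem recipIdeal_eq_ker {l : Fin (n + 1) → Module.Dual ℂ (Fin (d + 1) → ℂ)}
    (hl : ∀ i, l i ≠ 0) : recipIdeal l = RingHom.ker (par l) := by
  ext p
  rw [mem_recipIdeal_iff hl, RingHom.mem_ker]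

/-- linearity of `lf` -/
theorem lf_sum {m : ℕ} (c : Fin m → ℂ) (φ : Fin m → Module.Dual ℂ (Fin (d + 1) → ℂ)) :
    lf (∑ i, c i • φ i) = ∑ i, C (c i) * lf (φ i) := by
  apply MvPolynomial.funext
  intro t
  rw [eval_lf, map_sum]
  simp only [map_mul, eval_C, eval_lf]
  rw [LinearMap.sum_apply]
  rfl

theorem adjoin_top {l : Fin (n + 1) → Module.Dual ℂ (Fin (d + 1) → ℂ)}
    (hspan : Submodule.span ℂ (Set.range l) = ⊤) :
    IntermediateField.adjoin ℂ (Set.range (fun i => (af (l i))⁻¹)) = ⊤ := by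
  rw [eq_top_iff, ← adjoin_X_top (k := ℂ) (Fin (d + 1)), IntermediateField.adjoin_le_iff]
  rintro _ ⟨j, rfl⟩
  set S := IntermediateField.adjoin ℂ (Set.range (fun i => (af (l i))⁻¹)) with hS
  have h1 : ∀ i, af (l i) ∈ S := by
    intro i
    have h2 : (af (l i))⁻¹ ∈ S := IntermediateField.subset_adjoin ℂ _ ⟨i, rfl⟩
    have h3 := S.inv_mem h2
    rwa [inv_inv] at h3
  have h4 : LinearMap.proj j ∈ Submodule.span ℂ (Set.range l) := by rw [hspan]; trivial
  obtain ⟨c, hc⟩ := (Submodule.mem_span_range_iff_exists_fun ℂ).mp h4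
  have h5 : lf (LinearMap.proj j : Module.Dual ℂ (Fin (d + 1) → ℂ)) = X j := by
    apply MvPolynomial.funext
    intro t
    rw [eval_lf, eval_X]; rfl
  change algebraMap (MvPolynomial (Fin (d + 1)) ℂ) (FF d) (X j) ∈ S
  rw [← h5, ← hc, lf_sum, map_sum]
  refine sum_mem fun i _ => ?_
  rw [map_mul]
  refine mul_mem ?_ (h1 i)
  have : algebraMap (MvPolynomial (Fin (d + 1)) ℂ) (FF d) (C (c i)) =
      algebraMap ℂ (FF d) (c i) := by
    rw [IsScalarTower.algebraMap_apply ℂ (MvPolynomial (Fin (d + 1)) ℂ) (FF d)]; rfl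
  rw [this]
  exact S.algebraMap_mem _

theorem trdeg_FF : Algebra.trdeg ℂ (FF d) = ((d + 1 : ℕ) : Cardinal) := by
  have h1 : AlgebraicIndependent ℂ (fun j : Fin (d + 1) =>
      algebraMap (MvPolynomial (Fin (d + 1)) ℂ) (FF d) (X j)) := by
    have h1 : AlgebraicIndependent ℂ (MvPolynomial.X : Fin (d + 1) → MvPolynomial (Fin (d + 1)) ℂ) :=
      MvPolynomial.algebraicIndependent_X _ _
    exact h1.map' (f := IsScalarTower.toAlgHom ℂ (MvPolynomial (Fin (d + 1)) ℂ) (FF d))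
      (IsFractionRing.injective (MvPolynomial (Fin (d + 1)) ℂ) (FF d))
  have h2 : IsTranscendenceBasis ℂ (fun j : Fin (d + 1) =>
      algebraMap (MvPolynomial (Fin (d + 1)) ℂ) (FF d) (X j)) := by
    rw [h1.isTranscendenceBasis_iff_isAlgebraic]
    refine ⟨fun x => ?_⟩
    apply isAlgebraic_of_mem_adjoin
    rw [adjoin_X_top]; trivial
  have := h2.cardinalMk_eq_trdeg
  rw [← this]
  simp

theorem krull {l : Fin (n + 1) → Module.Dual ℂ (Fin (d + 1) → ℂ)}
    (hspan : Submodule.span ℂ (Set.range l) = ⊤) (hl : ∀ i, l i ≠ 0) :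
    ringKrullDim (MvPolynomial (Fin (n + 1)) ℂ ⧸ recipIdeal l) = ((d + 1 : ℕ) : WithBot ℕ∞) := by
  set S := (par l).range with hS
  have h1 : ringKrullDim (MvPolynomial (Fin (n + 1)) ℂ ⧸ recipIdeal l) = ringKrullDim S := by
    rw [recipIdeal_eq_ker hl]
    exact ringKrullDim_eq_of_ringEquiv (Ideal.quotientKerEquivRange (par l)).toRingEquiv
  have hSeq : S = Algebra.adjoin ℂ (Set.range (fun i => (af (l i))⁻¹)) :=
    (Algebra.adjoin_range_eq_range_aeval ℂ (fun i => (af (l i))⁻¹)).symm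
  haveI : Algebra.FiniteType ℂ S := by
    refine Algebra.FiniteType.of_surjective (par l).rangeRestrict (par l).rangeRestrict_surjective
  obtain ⟨s, hs1, hs2⟩ := Pool.Agent.Helper834.EC.exists_ringKrullDim_eq_trdeg ℂ S
  haveI : Algebra.IsAlgebraic S (FF d) := by
    refine ⟨fun x => ?_⟩
    have h2 : IsAlgebraic (Algebra.adjoin ℂ (Set.range (fun i => (af (l i))⁻¹))) x := by
      apply isAlgebraic_of_mem_adjoin
      rw [adjoin_top hspan]; trivial
    rw [hSeq]
    exact h2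
  haveI : FaithfulSMul ℂ S :=
    (faithfulSMul_iff_algebraMap_injective ℂ S).mpr (algebraMap ℂ S).injective
  haveI : FaithfulSMul S (FF d) :=
    (faithfulSMul_iff_algebraMap_injective S (FF d)).mpr Subtype.val_injective
  have h3 : Algebra.trdeg ℂ S + Algebra.trdeg S (FF d) = Algebra.trdeg ℂ (FF d) :=
    trdeg_add_eq ℂ S
  have h5 : Algebra.trdeg S (FF d) = 0 := trdeg_eq_zero
  rw [trdeg_FF, h5, add_zero, hs2] at h3
  have h4 : s = d + 1 := by exact_mod_cast h3
  rw [h1, hs1, h4]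

end K1H20.RecDual
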