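import Pool.Agent.K1H20.RL.Pt
import Pool.Agent.Helper813.DC.A1

set_option linter.unusedSectionVars false
set_option linter.style.haveILetI false

namespace K1H20.RL

open Module IntermediateField IsLocalRing Pool.Agent.Helper766.Rad

section Beta

variable {ι : Type} [DecidableEq ι]

theorem sep_add (M : RankFn ι) {E A : Finset ι} (hA : A ⊆ E)
    (h : M.r A + M.r (E \ A) ≤ M.r E) {S : Finset ι} (hS : S ⊆ E) :
    M.r S = M.r (S ∩ A) + M.r (S \ A) := by
  apply le_antisymm
  · have h1 := r_union_le M (S ∩ A) (S \ A)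
    have h2 : S ∩ A ∪ S \ A = S := by
      rw [Finset.union_comm]; exact Finset.sdiff_union_inter S A
    rwa [h2] at h1
  · have h1 := M.submod S A
    have h2 := M.submod (S ∪ A) (E \ A)
    have h3 : (S ∪ A) ∪ (E \ A) = E := by
      ext i
      simp only [Finset.mem_union, Finset.mem_sdiff]
      constructor
      · rintro ((h | h) | h)
        · exact hS h
        · exact hA h
        · exact h.1
      · intro h
        by_cases hi : i ∈ A
        · exact Or.inl (Or.inr hi)
        · exact Or.inr ⟨h, hi⟩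
    have h4 : (S ∪ A) ∩ (E \ A) = S \ A := by
      ext i
      simp only [Finset.mem_union, Finset.mem_sdiff, Finset.mem_inter]
      constructor
      · rintro ⟨h | h, h2, h3⟩
        · exact ⟨h, h3⟩
        · exact absurd h h3
      · rintro ⟨h1, h2⟩
        exact ⟨Or.inl h1, hS h1, h2⟩
    rw [h3, h4] at h2
    omega

theorem sum_zero_of_beta {r : Finset ι → ℕ} {E : Finset ι} (h : DC813.beta r E = 0) :
    ∑ X ∈ E.powerset, (-1 : ℤ) ^ X.card * (r X : ℤ) = 0 := by
  unfold DC813.beta at h
  rcases mul_eq_zero.mp h with h | h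
  · exact absurd h (pow_ne_zero _ (by norm_num))
  · exact h

theorem beta_zero (M : RankFn ι) {E : Finset ι} (h : ¬ Conn M E) : DC813.beta M.r E = 0 := by
  unfold Conn at h
  push Not at h
  obtain ⟨A, hA, hne, hAE, hr⟩ := h
  obtain ⟨a, ha⟩ := hne
  obtain ⟨b, hb, hbA⟩ : ∃ b ∈ E, b ∉ A := by
    by_contra hcon
    push Not at hcon
    exact hAE (Finset.Subset.antisymm hA hcon)
  have h1 : DC813.beta (fun S => M.r (S ∩ A)) E = 0 := by
    refine (DC813.A1.mu_loop _ E b hb (fun X _ => ?_)).2
    simp only [Finset.insert_inter_of_notMem hbA]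
  have h2 : DC813.beta (fun S => M.r (S \ A)) E = 0 := by
    refine (DC813.A1.mu_loop _ E a (hA ha) (fun X _ => ?_)).2
    simp only [Finset.insert_sdiff_of_mem _ ha]
  have h3 := sum_zero_of_beta h1
  have h4 := sum_zero_of_beta h2
  unfold DC813.beta
  have h5 : ∑ X ∈ E.powerset, (-1 : ℤ) ^ X.card * (M.r X : ℤ) =
      ∑ X ∈ E.powerset, (-1 : ℤ) ^ X.card * ((M.r (X ∩ A) : ℕ) : ℤ) +
      ∑ X ∈ E.powerset, (-1 : ℤ) ^ X.card * ((M.r (X \ A) : ℕ) : ℤ) := by
    rw [← Finset.sum_add_distrib]
    refine Finset.sum_congr rfl fun X hX => ?_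
    rw [sep_add M hA hr (Finset.mem_powerset.mp hX)]
    push_cast
    ring
  rw [h5, h3, h4]
  simp

end Beta

variable {k : Type} [Field k] {W : Type} [AddCommGroup W] [Module k W] [FiniteDimensional k W]
  {ι : Type} [DecidableEq ι] {v : ι → W} {f : ι}

theorem deg_one {σ : Type} [Fintype σ] [DecidableEq σ] {Δ p : MvPolynomial σ k} {D : ℕ} (hD : Δ.IsHomogeneous D)
    (hirr : Irreducible Δ) (hp : p.totalDegree ≤ 1) (hp0 : p ≠ 0) (h : Δ ∣ p) : D = 1 := by
  have h1 := pos_degree hD hirr
  have h2 : D = Δ.totalDegree := (hD.totalDegree hirr.ne_zero).symm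
  have h3 := MvPolynomial.totalDegree_le_of_dvd_of_isDomain h hp0
  omega

theorem exists_isDisc_of_conn [Infinite k] {N : Submodule k W} {G : Finset ι}
    (hconn : Conn (rf v N) G) (hf : f ∈ G) (hv : v f ∉ N) :
    ∃ (Δ : MvPolynomial G k) (D : ℕ), IsDisc v N G f Δ D := by
  obtain ⟨K, _, _, x, c, h, -⟩ := exists_gen v N hf hv
  exact h.exists_isDisc (trY G.card N G rfl hconn K x c h)

theorem base_one [Infinite k] {N : Submodule k W} {G : Finset ι} (hG : G.card = 1)
    (hf : f ∈ G) (hv : v f ∉ N) {Δ : MvPolynomial G k} {D : ℕ} (h : IsDisc v N G f Δ D) :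
    (D : ℤ) = 2 ^ (rkN v N G - 1) * DC813.beta (rkN v N) G := by
  obtain ⟨K, _, _, x, c, hg, -⟩ := exists_gen v N hf hv
  have hGf : G = {f} := by
    obtain ⟨a, rfl⟩ := Finset.card_eq_one.mp hG
    rw [Finset.mem_singleton] at hf
    rw [hf]
  obtain ⟨l, hl, hlf⟩ := exists_dual hv
  have hc : c f = 0 := by
    have := hg.hc l hl
    rw [hGf, Finset.sum_singleton, hlf, one_smul] at this
    exact this
  have h1 : Δ ∣ MvPolynomial.X ⟨f, hf⟩ := by
    rw [← h.ker K x c hg, MvPolynomial.aeval_X]
    simp [yy, hc]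
  have hD := deg_one h.hom h.irr (by rw [MvPolynomial.totalDegree_X]) (MvPolynomial.X_ne_zero _) h1
  have hr : rkN v N {f} = 1 := rk_of_not_mem hv
  have hr0 : rkN v N ∅ = 0 := (rf v N).empty
  subst hGf
  rw [hD, hr]
  unfold DC813.beta
  rw [hr]
  have : ({f} : Finset ι).powerset = {∅, {f}} := by
    ext S
    simp [Finset.subset_singleton_iff]
  rw [this, Finset.sum_pair (by simp), hr0, hr]
  simp

theorem base_two [Infinite k] {N : Submodule k W} {G : Finset ι} (hG : G.card = 2)
    (hconn : Conn (rf v N) G)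
    (hf : f ∈ G) {Δ : MvPolynomial G k} {D : ℕ} (h : IsDisc v N G f Δ D) :
    (D : ℤ) = 2 ^ (rkN v N G - 1) * DC813.beta (rkN v N) G := by
  have hv : v f ∉ N := Conn.not_mem hconn hG.ge hf
  obtain ⟨K, _, _, x, c, hg, -⟩ := exists_gen v N hf hv
  have hne : (G.erase f).card = 1 := by rw [Finset.card_erase_of_mem hf, hG]
  obtain ⟨e, hGe⟩ := Finset.card_eq_one.mp hne
  have hee : e ∈ G.erase f := by rw [hGe]; simp
  obtain ⟨hef, he⟩ := Finset.mem_erase.mp hee
  have hGfe : G = {f, e} := by
    rw [← Finset.insert_erase hf, hGe]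
  have hve : v e ∉ N := Conn.not_mem hconn hG.ge he
  have herf : G.erase e = {f} := by
    rw [hGfe]
    ext i
    simp only [Finset.mem_erase, Finset.mem_insert, Finset.mem_singleton]
    constructor
    · rintro ⟨h1, h2 | h2⟩
      · exact h2
      · exact absurd h2 h1
    · rintro rfl
      exact ⟨hef.symm, Or.inl rfl⟩
  obtain ⟨a, ha⟩ := Conn.comb hconn hG.ge he
  have hxe := hg.toIsPair.x_eq he ha
  rw [herf, Finset.sum_singleton] at hxe
  obtain ⟨l, hl, hlf⟩ := exists_dual hv
  have hcf := hg.toIsPair.c_eq hf hl hlf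
  rw [hGe, Finset.sum_singleton] at hcf
  have hle : l (v e) = a f := by
    rw [herf, Finset.sum_singleton] at ha
    have := hl _ ha
    rw [map_sub, map_smul, hlf, smul_eq_mul, mul_one, sub_eq_zero] at this
    exact this
  have h1 : Δ ∣ MvPolynomial.X ⟨e, he⟩ + MvPolynomial.C (a f) * MvPolynomial.X ⟨f, hf⟩ := by
    rw [← h.ker K x c hg, map_add, map_mul, MvPolynomial.aeval_X, MvPolynomial.aeval_X,
      MvPolynomial.aeval_C]
    simp only [yy]
    rw [hcf, hle, hxe, hg.hxf, Algebra.smul_def, Algebra.smul_def]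
    ring
  have hp0 : (MvPolynomial.X ⟨e, he⟩ + MvPolynomial.C (a f) * MvPolynomial.X ⟨f, hf⟩ :
      MvPolynomial G k) ≠ 0 := by
    intro h0
    have := congrArg (MvPolynomial.eval (fun i : G => if i.1 = e then (1 : k) else 0)) h0
    rw [map_add, map_mul, MvPolynomial.eval_X, MvPolynomial.eval_X, if_pos rfl,
      if_neg (Ne.symm hef), mul_zero, add_zero, map_zero] at this
    exact one_ne_zero this
  have hdeg : (MvPolynomial.X ⟨e, he⟩ + MvPolynomial.C (a f) * MvPolynomial.X ⟨f, hf⟩ :
      MvPolynomial G k).totalDegree ≤ 1 := by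
    refine (MvPolynomial.totalDegree_add _ _).trans (max_le ?_ ?_)
    · rw [MvPolynomial.totalDegree_X]
    · refine (MvPolynomial.totalDegree_mul _ _).trans ?_
      rw [MvPolynomial.totalDegree_C, MvPolynomial.totalDegree_X]
  have hD := deg_one h.hom h.irr hdeg hp0 h1
  have hr : rkN v N {f} = 1 := rk_of_not_mem hv
  have hre : rkN v N {e} = 1 := rk_of_not_mem hve
  have hr0 : rkN v N ∅ = 0 := (rf v N).empty
  have hrG : rkN v N G = 1 := by
    have h3 : rkN v N (G.erase f) = rkN v N G := (hconn.nl hG.ge hf).2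
    rw [hGe, hre] at h3
    exact h3.symm
  rw [hD, hrG]
  unfold DC813.beta
  rw [hrG]
  have hfe : ({f} : Finset ι) ≠ {e} := by
    intro h
    exact hef (Finset.singleton_injective h).symm
  have hpow : G.powerset = {∅, {f}, {e}, G} := by
    rw [hGfe]
    ext S
    simp only [Finset.mem_powerset, Finset.mem_insert, Finset.mem_singleton]
    constructor
    · intro hS
      by_cases h1 : f ∈ S <;> by_cases h2 : e ∈ S
      · right; right; right
        exact Finset.Subset.antisymm hS (by
          intro i hi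
          simp only [Finset.mem_insert, Finset.mem_singleton] at hi
          rcases hi with rfl | rfl <;> assumption)
      · right; left
        ext i
        simp only [Finset.mem_singleton]
        constructor
        · intro hi
          have := hS hi
          simp only [Finset.mem_insert, Finset.mem_singleton] at this
          rcases this with rfl | rfl
          · rfl
          · exact absurd hi h2
        · rintro rfl; exact h1
      · right; right; left
        ext i
        simp only [Finset.mem_singleton]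
        constructor
        · intro hi
          have := hS hi
          simp only [Finset.mem_insert, Finset.mem_singleton] at this
          rcases this with rfl | rfl
          · exact absurd hi h1
          · rfl
        · rintro rfl; exact h2
      · left
        rw [Finset.eq_empty_iff_forall_notMem]
        intro i hi
        have := hS hi
        simp only [Finset.mem_insert, Finset.mem_singleton] at this
        rcases this with rfl | rfl <;> contradiction
    · rintro (rfl | rfl | rfl | rfl) <;> simp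
  have n1 : (∅ : Finset ι) ∉ ({{f}, {e}, G} : Finset (Finset ι)) := by
    simp only [Finset.mem_insert, Finset.mem_singleton, not_or]
    refine ⟨(Finset.singleton_ne_empty f).symm, (Finset.singleton_ne_empty e).symm, ?_⟩
    intro h
    rw [← h] at hG
    simp at hG
  have n2 : ({f} : Finset ι) ∉ ({{e}, G} : Finset (Finset ι)) := by
    simp only [Finset.mem_insert, Finset.mem_singleton, not_or]
    refine ⟨hfe, ?_⟩
    intro h
    rw [← h] at hG
    simp at hG
  have n3 : ({e} : Finset ι) ∉ ({G} : Finset (Finset ι)) := by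
    simp only [Finset.mem_singleton]
    intro h
    rw [← h] at hG
    simp at hG
  rw [hpow, Finset.sum_insert n1, Finset.sum_insert n2, Finset.sum_insert n3,
    Finset.sum_singleton, hr0, hr, hre, hrG, hG]
  simp

theorem main [CharZero k] : ∀ (n : ℕ) (N : Submodule k W) (G : Finset ι), G.card = n →
    Conn (rf v N) G → f ∈ G → v f ∉ N →
    ∃ (Δ : MvPolynomial G k) (D : ℕ), IsDisc v N G f Δ D ∧
      (D : ℤ) = 2 ^ (rkN v N G - 1) * DC813.beta (rkN v N) G := by
  classical
  intro n
  induction n with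
  | zero =>
    intro N G hG _ hf _
    rw [Finset.card_eq_zero] at hG
    subst hG
    simp at hf
  | succ n ih =>
    intro N G hG hconn hf hv
    obtain ⟨Δ, D, hΔ⟩ := exists_isDisc_of_conn hconn hf hv
    refine ⟨Δ, D, hΔ, ?_⟩
    by_cases h1 : G.card = 1
    · exact base_one h1 hf hv hΔ
    by_cases h2 : G.card = 2
    · exact base_two h2 hconn hf hΔ
    have h3 : 3 ≤ G.card := by omega
    have h2' : 2 ≤ G.card := by omega
    obtain ⟨K, _, _, x, c, h, htop⟩ := exists_gen v N hf hv
    have hne : (G.erase f).Nonempty := by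
      rw [← Finset.card_pos, Finset.card_erase_of_mem hf]; omega
    obtain ⟨e, he'⟩ := hne
    obtain ⟨hef, he⟩ := Finset.mem_erase.mp he'
    have hf' : f ∈ G.erase e := Finset.mem_erase.mpr ⟨hef.symm, hf⟩
    have hcard : (G.erase e).card = n := by rw [Finset.card_erase_of_mem he]; omega
    have hcard2 : 2 ≤ (G.erase e).card := by rw [Finset.card_erase_of_mem he]; omega
    -- the deletion
    obtain ⟨Δ1, D1, hΔ1⟩ : ∃ (Δ1 : MvPolynomial ((G.erase e : Finset ι) : Type) k) (D1 : ℕ),
        Conn (rf v N) (G.erase e) → IsDisc v N (G.erase e) f Δ1 D1 ∧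
          (D1 : ℤ) = 2 ^ (rkN v N (G.erase e) - 1) * DC813.beta (rkN v N) (G.erase e) := by
      by_cases hc : Conn (rf v N) (G.erase e)
      · obtain ⟨Δ1, D1, h1⟩ := ih N (G.erase e) hcard hc hf' hv
        exact ⟨Δ1, D1, fun _ => h1⟩
      · exact ⟨0, 0, fun h => absurd h hc⟩
    -- the contraction
    obtain ⟨Δ2, D2, hΔ2⟩ : ∃ (Δ2 : MvPolynomial ((G.erase e : Finset ι) : Type) k) (D2 : ℕ),
        Conn (rf v (N ⊔ Submodule.span k {v e})) (G.erase e) →
          IsDisc v (N ⊔ Submodule.span k {v e}) (G.erase e) f Δ2 D2 ∧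
          (D2 : ℤ) = 2 ^ (rkN v (N ⊔ Submodule.span k {v e}) (G.erase e) - 1) *
            DC813.beta (rkN v (N ⊔ Submodule.span k {v e})) (G.erase e) := by
      by_cases hc : Conn (rf v (N ⊔ Submodule.span k {v e})) (G.erase e)
      · obtain ⟨Δ2, D2, h2⟩ := ih (N ⊔ Submodule.span k {v e}) (G.erase e) hcard hc hf'
          (Conn.not_mem hc hcard2 hf')
        exact ⟨Δ2, D2, fun _ => h2⟩
      · exact ⟨0, 0, fun h => absurd h hc⟩
    -- the point
    have hve : v e ∉ N := Conn.not_mem hconn h2' he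
    obtain ⟨al, hal⟩ := Conn.comb hconn h2' he
    have hye : yy G x c ⟨e, he⟩ ≠ 0 := by
      simp only [yy]
      exact mul_ne_zero (h.c_ne he hal) (pow_ne_zero 2 (h.x_ne he hve))
    have hΔy : MvPolynomial.aeval (yy G x c) Δ = 0 := (hΔ.ker K x c h Δ).mpr dvd_rfl
    obtain ⟨P1, E1, hP1, hP1', hP1''⟩ : ∃ (P1 : MvPolynomial ((G.erase e : Finset ι) : Type) k)
        (E1 : ℕ), P1.IsHomogeneous E1 ∧ P1 ≠ 0 ∧ (Conn (rf v N) (G.erase e) → P1 = Δ1) := by
      by_cases hc : Conn (rf v N) (G.erase e)
      · exact ⟨Δ1, D1, (hΔ1 hc).1.hom, (hΔ1 hc).1.irr.ne_zero, fun _ => rfl⟩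
      · exact ⟨1, 0, MvPolynomial.isHomogeneous_one _ _, one_ne_zero, fun h => absurd h hc⟩
    obtain ⟨P2, E2, hP2, hP2', hP2''⟩ : ∃ (P2 : MvPolynomial ((G.erase e : Finset ι) : Type) k)
        (E2 : ℕ), P2.IsHomogeneous E2 ∧ P2 ≠ 0 ∧
          (Conn (rf v (N ⊔ Submodule.span k {v e})) (G.erase e) → P2 = Δ2) := by
      by_cases hc : Conn (rf v (N ⊔ Submodule.span k {v e})) (G.erase e)
      · exact ⟨Δ2, D2, (hΔ2 hc).1.hom, (hΔ2 hc).1.irr.ne_zero, fun _ => rfl⟩
      · exact ⟨1, 0, MvPolynomial.isHomogeneous_one _ _, one_ne_zero, fun h => absurd h hc⟩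
    obtain ⟨a, ha1, ha2, ha3, ha4, ha5⟩ := exists_pt hΔ.hom hΔ.irr hΔy he hye hf' hP1 hP1' hP2 hP2'
    have hrec := recursion h htop hconn h3 he hef hΔ (fun hc => (hΔ1 hc).1) (fun hc => (hΔ2 hc).1)
      a ha1 ha2 ha3 (fun hc => by rw [← hP1'' hc]; exact ha4) (fun hc => by rw [← hP2'' hc]; exact ha5)
    -- ranks
    have r1 : rkN v N (G.erase e) = rkN v N G := (hconn.nl h2' he).2
    have r2 : ∀ X ⊆ G.erase e, rkN v (N ⊔ Submodule.span k {v e}) X + 1 =
        rkN v N (insert e X) := by
      intro X _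
      have e1 := con_r (rf v N) (hconn.nl h2' he).1 X
      rw [con_rf] at e1
      exact e1
    have r3 : rkN v (N ⊔ Submodule.span k {v e}) (G.erase e) + 1 = rkN v N G := by
      have := r2 _ (Finset.Subset.refl _)
      rwa [Finset.insert_erase he] at this
    have hbeta := DC813.A1.beta_rec (rkN v N) (rkN v (N ⊔ Submodule.span k {v e})) G e he
      ⟨f, hf'⟩ r1 r2
    have t1 : ((if Conn (rf v N) (G.erase e) then 1 * D1 else 0 : ℕ) : ℤ) =
        2 ^ (rkN v N G - 1) * DC813.beta (rkN v N) (G.erase e) := by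
      by_cases hc : Conn (rf v N) (G.erase e)
      · rw [if_pos hc, one_mul, (hΔ1 hc).2, r1]
      · rw [if_neg hc]
        have : DC813.beta (rkN v N) (G.erase e) = 0 := beta_zero (rf v N) hc
        rw [this]; simp
    have t2 : ((if Conn (rf v (N ⊔ Submodule.span k {v e})) (G.erase e) then 2 * D2 else 0 : ℕ) : ℤ)
        = 2 ^ (rkN v N G - 1) * DC813.beta (rkN v (N ⊔ Submodule.span k {v e})) (G.erase e) := by
      by_cases hc : Conn (rf v (N ⊔ Submodule.span k {v e})) (G.erase e)
      · rw [if_pos hc]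
        push_cast
        rw [(hΔ2 hc).2, ← mul_assoc, ← pow_succ']
        congr 2
        have h5 : rkN v (N ⊔ Submodule.span k {v e}) {f} = 1 :=
          rk_of_not_mem (Conn.not_mem hc hcard2 hf')
        have h6 : rkN v (N ⊔ Submodule.span k {v e}) {f} ≤
            rkN v (N ⊔ Submodule.span k {v e}) (G.erase e) :=
          (rf v (N ⊔ Submodule.span k {v e})).mono _ _ (Finset.singleton_subset_iff.mpr hf')
        omega
      · rw [if_neg hc]
        have : DC813.beta (rkN v (N ⊔ Submodule.span k {v e})) (G.erase e) = 0 :=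
          beta_zero (rf v (N ⊔ Submodule.span k {v e})) hc
        rw [this]; simp
    rw [hrec, Nat.cast_add, t1, t2, hbeta]
    ring

end K1H20.RL
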