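import Pool.Agent.K1H20.RL.Geo1
import Pool.Agent.K1H20.RL.Ind

set_option linter.unusedSectionVars false
set_option linter.style.haveILetI false

namespace K1H20.RecDual

open MvPolynomial K1H20.RL

variable {d n : ℕ}

/-- derivative of a polynomial along a curve -/
theorem hasDerivAt_eval (p : MvPolynomial (Fin (n + 1)) ℂ) (g : Fin (n + 1) → ℂ → ℂ)
    (g' : Fin (n + 1) → ℂ) (hg : ∀ i, HasDerivAt (g i) (g' i) 0) :
    HasDerivAt (fun s => eval (fun i => g i s) p)
      (∑ i, eval (fun i => g i 0) (pderiv i p) * g' i) 0 := by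
  induction p using MvPolynomial.induction_on with
  | C a =>
    simp only [eval_C, pderiv_C, map_zero, zero_mul, Finset.sum_const_zero]
    exact hasDerivAt_const _ _
  | add p q hp hq =>
    simp only [map_add, add_mul, Finset.sum_add_distrib]
    exact hp.add hq
  | mul_X p j hp =>
    have h1 := hp.mul (hg j)
    have h2 : (fun s => eval (fun i => g i s) (p * X j)) =
        fun s => eval (fun i => g i s) p * g j s := by
      funext s
      rw [map_mul, eval_X]
    have h3 : (∑ i, eval (fun i => g i 0) (pderiv i (p * X j)) * g' i) =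
        (∑ i, eval (fun i => g i 0) (pderiv i p) * g' i) * g j 0 +
          eval (fun i => g i 0) p * g' j := by
      simp only [Derivation.leibniz, pderiv_X, smul_eq_mul, map_add, map_mul, eval_X]
      rw [Finset.sum_mul]
      simp only [add_mul, Finset.sum_add_distrib]
      rw [add_comm]
      congr 1
      · refine Finset.sum_congr rfl fun i _ => ?_
        ring
      · rw [Finset.sum_eq_single j]
        · simp
        · intro b _ hb
          simp [hb]
        · simp
    rw [h2, h3]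
    exact h1

/-- tangent vectors at the points of the torus -/
theorem tan_rel {l : Fin (n + 1) → Module.Dual ℂ (Fin (d + 1) → ℂ)}
    {p : MvPolynomial (Fin (n + 1)) ℂ} (hp : p ∈ recipIdeal l) {t : Fin (d + 1) → ℂ}
    (ht : ∀ i, l i t ≠ 0) (t' : Fin (d + 1) → ℂ) :
    ∑ i, eval (fun i => (l i t)⁻¹) (pderiv i p) * (((l i t)⁻¹) ^ 2 * l i t') = 0 := by
  rw [mem_recipIdeal] at hp
  have hg : ∀ i, HasDerivAt (fun s : ℂ => (l i t + s * l i t')⁻¹)
      (-(((l i t)⁻¹) ^ 2 * l i t')) 0 := by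
    intro i
    have h1 : HasDerivAt (fun s : ℂ => l i t + s * l i t') (l i t') 0 := by
      have := ((hasDerivAt_id (0 : ℂ)).mul_const (l i t')).const_add (l i t)
      simpa using this
    have h2 := h1.inv (by simpa using ht i)
    have h3 : -(((l i t)⁻¹) ^ 2 * l i t') = -(l i t') / (l i t + 0 * l i t') ^ 2 := by
      rw [zero_mul, add_zero, inv_pow, neg_div, div_eq_inv_mul]
    rw [h3]
    exact h2
  have h1 := hasDerivAt_eval p _ _ hg
  have h2 : (fun s : ℂ => eval (fun i => (l i t + s * l i t')⁻¹) p) =ᶠ[nhds 0] fun _ => 0 := by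
    have h3 : ∀ᶠ s in nhds (0 : ℂ), ∀ i, l i t + s * l i t' ≠ 0 := by
      rw [Filter.eventually_all]
      intro i
      have h4 : ContinuousAt (fun s : ℂ => l i t + s * l i t') 0 := by fun_prop
      exact h4.eventually_ne (by simpa using ht i)
    filter_upwards [h3] with s hs
    have h5 := hp (t + s • t') (fun i => by
      rw [map_add, map_smul, smul_eq_mul]; exact hs i)
    rw [← h5]
    congr 2
    funext i
    rw [map_add, map_smul, smul_eq_mul]
  have h3 := (hasDerivAt_const (0 : ℂ) (0 : ℂ)).congr_of_eventuallyEq h2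
  have h4 := h1.unique h3
  simp only [zero_mul, add_zero, mul_neg, Finset.sum_neg_distrib, neg_eq_zero] at h4
  exact h4

/-- the quadric cone polynomials -/
noncomputable def pc (c : Fin (n + 1) → ℂ) : MvPolynomial (Fin (n + 1)) ℂ :=
  ∑ i, C (c i) * ∏ j ∈ Finset.univ.erase i, X j

theorem pc_mem {l : Fin (n + 1) → Module.Dual ℂ (Fin (d + 1) → ℂ)} {c : Fin (n + 1) → ℂ}
    (hc : ∀ t, ∑ i, l i t * c i = 0) : pc c ∈ recipIdeal l := by
  rw [mem_recipIdeal]
  intro t ht
  unfold pc
  rw [map_sum]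
  simp only [map_mul, map_prod, eval_C, eval_X]
  have h1 : ∀ i, ∏ j ∈ Finset.univ.erase i, (l j t)⁻¹ = l i t * ∏ j, (l j t)⁻¹ := by
    intro i
    rw [← Finset.mul_prod_erase Finset.univ _ (Finset.mem_univ i), ← mul_assoc,
      mul_inv_cancel₀ (ht i), one_mul]
  simp only [h1]
  calc ∑ i, c i * (l i t * ∏ j, (l j t)⁻¹) = (∑ i, l i t * c i) * ∏ j, (l j t)⁻¹ := by
        rw [Finset.sum_mul]
        exact Finset.sum_congr rfl fun i _ => by ring
    _ = 0 := by rw [hc t, zero_mul]

theorem pderiv_prod (j : Fin (n + 1)) (s : Finset (Fin (n + 1))) (hj : j ∈ s) :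
    pderiv j (∏ m ∈ s, (X m : MvPolynomial (Fin (n + 1)) ℂ)) = ∏ m ∈ s.erase j, X m := by
  rw [← Finset.mul_prod_erase s _ hj, Derivation.leibniz, pderiv_X_self, smul_eq_mul, smul_eq_mul,
    mul_one]
  have h1 : pderiv j (∏ m ∈ s.erase j, (X m : MvPolynomial (Fin (n + 1)) ℂ)) = 0 := by
    apply pderiv_eq_zero_of_notMem_vars
    intro h
    have h2 := vars_prod (fun m => (X m : MvPolynomial (Fin (n + 1)) ℂ)) (s := s.erase j) h
    rw [Finset.mem_biUnion] at h2
    obtain ⟨m, hm, h3⟩ := h2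
    rw [vars_X, Finset.mem_singleton] at h3
    exact Finset.ne_of_mem_erase hm h3.symm
  rw [h1, mul_zero, zero_add]

theorem pderiv_prod_erase (i j : Fin (n + 1)) :
    pderiv j (∏ m ∈ Finset.univ.erase i, (X m : MvPolynomial (Fin (n + 1)) ℂ)) =
      if i = j then 0 else ∏ m ∈ (Finset.univ.erase i).erase j, X m := by
  by_cases h : i = j
  · rw [if_pos h]
    subst h
    apply pderiv_eq_zero_of_notMem_vars
    intro h
    have h2 := vars_prod (fun m => (X m : MvPolynomial (Fin (n + 1)) ℂ))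
      (s := Finset.univ.erase i) h
    rw [Finset.mem_biUnion] at h2
    obtain ⟨m, hm, h3⟩ := h2
    rw [vars_X, Finset.mem_singleton] at h3
    exact Finset.ne_of_mem_erase hm h3.symm
  · rw [if_neg h]
    exact pderiv_prod j _ (Finset.mem_erase.mpr ⟨Ne.symm h, Finset.mem_univ _⟩)

theorem eval_pderiv_pc {c x : Fin (n + 1) → ℂ} (hx : ∀ i, x i ≠ 0) (hcx : ∑ i, x i * c i = 0)
    (j : Fin (n + 1)) : eval (fun i => (x i)⁻¹) (pderiv j (pc c)) =
      -(∏ m, (x m)⁻¹) * (c j * x j ^ 2) := by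
  unfold pc
  rw [map_sum, map_sum]
  have h1 : ∀ i, eval (fun i => (x i)⁻¹) (pderiv j (C (c i) * ∏ m ∈ Finset.univ.erase i, X m)) =
      (∏ m, (x m)⁻¹) * x j * (if i = j then 0 else x i * c i) := by
    intro i
    rw [Derivation.leibniz, pderiv_C, smul_zero, add_zero, smul_eq_mul, pderiv_prod_erase]
    by_cases h : i = j
    · rw [if_pos h, if_pos h, mul_zero, map_zero, mul_zero]
    · rw [if_neg h, if_neg h, map_mul, eval_C, map_prod]
      simp only [eval_X]
      rw [← Finset.mul_prod_erase Finset.univ (fun m => (x m)⁻¹) (Finset.mem_univ i),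
        ← Finset.mul_prod_erase (Finset.univ.erase i) (fun m => (x m)⁻¹)
          (Finset.mem_erase.mpr ⟨Ne.symm h, Finset.mem_univ _⟩)]
      have hi := hx i
      have hj := hx j
      field_simp
  rw [Finset.sum_congr rfl fun i _ => h1 i, ← Finset.mul_sum]
  have h2 : ∑ i, (if i = j then 0 else x i * c i) = - (x j * c j) := by
    have h3 : ∑ i, (if i = j then 0 else x i * c i) + x j * c j = 0 := by
      have e1 := Finset.sum_erase_add Finset.univ (fun i => x i * c i) (Finset.mem_univ j)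
      have e2 := Finset.sum_erase_add Finset.univ (fun i => if i = j then 0 else x i * c i)
        (Finset.mem_univ j)
      have e3 : ∑ i ∈ Finset.univ.erase j, (if i = j then 0 else x i * c i) =
          ∑ i ∈ Finset.univ.erase j, x i * c i :=
        Finset.sum_congr rfl fun i hi => by rw [if_neg (Finset.ne_of_mem_erase hi)]
      rw [if_pos rfl, add_zero] at e2
      rw [← e2, e3, e1, hcx]
    exact eq_neg_of_add_eq_zero_left h3
  rw [h2]
  ring

/-- the linear map with image the linear space -/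
noncomputable def lmap (l : Fin (n + 1) → Module.Dual ℂ (Fin (d + 1) → ℂ)) :
    (Fin (d + 1) → ℂ) →ₗ[ℂ] (Fin (n + 1) → ℂ) := LinearMap.pi l

/-- functional as dot product -/
theorem dual_apply {m : ℕ} (φ : (Fin m → ℂ) →ₗ[ℂ] ℂ) (u : Fin m → ℂ) :
    φ u = ∑ i, u i * φ (Pi.single i 1) := by
  conv_lhs => rw [show u = ∑ j, u j • (Pi.single j (1 : ℂ) : Fin m → ℂ) by
    funext i
    simp [Finset.sum_apply, Pi.single_apply]]
  rw [map_sum]
  exact Finset.sum_congr rfl fun j _ => by rw [map_smul, smul_eq_mul]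

theorem mem_L {l : Fin (n + 1) → Module.Dual ℂ (Fin (d + 1) → ℂ)} {u : Fin (n + 1) → ℂ}
    (h : ∀ c : Fin (n + 1) → ℂ, (∀ t, ∑ i, l i t * c i = 0) → ∑ i, u i * c i = 0) :
    ∃ t, ∀ i, u i = l i t := by
  by_contra hcon
  have h1 : u ∉ LinearMap.range (lmap l) := by
    rintro ⟨t, ht⟩
    exact hcon ⟨t, fun i => (congrFun ht i).symm⟩
  obtain ⟨φ, hφu, hφ⟩ := Submodule.exists_le_ker_of_notMem h1
  apply hφu
  rw [dual_apply]
  apply h
  intro t
  have h2 : lmap l t ∈ LinearMap.ker φ := hφ ⟨t, rfl⟩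
  rw [LinearMap.mem_ker, dual_apply] at h2
  exact h2

/-- the tangent space at a torus point -/
theorem tangent_eq {l : Fin (n + 1) → Module.Dual ℂ (Fin (d + 1) → ℂ)} {t : Fin (d + 1) → ℂ}
    (ht : ∀ i, l i t ≠ 0) (w : Fin (n + 1) → ℂ) :
    w ∈ tangent (recipIdeal l) (fun i => (l i t)⁻¹) ↔
      ∃ t', ∀ i, w i = ((l i t)⁻¹) ^ 2 * l i t' := by
  constructor
  · intro hw
    have h1 : ∃ t', ∀ i, (l i t) ^ 2 * w i = l i t' := by
      apply mem_L
      intro c hc
      have h2 : ∑ i, eval (fun i => (l i t)⁻¹) (pderiv i (pc c)) * w i = 0 := hw _ (pc_mem hc)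
      simp only [eval_pderiv_pc ht (hc t)] at h2
      have h3 : -(∏ m, (l m t)⁻¹) * ∑ i, (l i t) ^ 2 * w i * c i = 0 := by
        rw [← h2, Finset.mul_sum]
        exact Finset.sum_congr rfl fun i _ => by ring
      have h4 : (∏ m, (l m t)⁻¹) ≠ 0 :=
        Finset.prod_ne_zero_iff.mpr fun i _ => inv_ne_zero (ht i)
      exact (mul_eq_zero.mp h3).resolve_left (neg_ne_zero.mpr h4)
    obtain ⟨t', ht'⟩ := h1
    refine ⟨t', fun i => ?_⟩
    rw [← ht' i]
    have := ht i
    field_simp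
  · rintro ⟨t', ht'⟩ p hp
    have h1 := tan_rel hp ht t'
    rw [← h1]
    exact Finset.sum_congr rfl fun i _ => by rw [ht' i]

theorem finrank_tangent {l : Fin (n + 1) → Module.Dual ℂ (Fin (d + 1) → ℂ)}
    (hspan : Submodule.span ℂ (Set.range l) = ⊤) {t : Fin (d + 1) → ℂ}
    (ht : ∀ i, l i t ≠ 0) :
    Module.finrank ℂ (tangent (recipIdeal l) (fun i => (l i t)⁻¹)) = d + 1 := by
  let M : (Fin (d + 1) → ℂ) →ₗ[ℂ] (Fin (n + 1) → ℂ) :=
    LinearMap.pi (fun i => (((l i t)⁻¹) ^ 2) • l i)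
  have h1 : tangent (recipIdeal l) (fun i => (l i t)⁻¹) = LinearMap.range M := by
    ext w
    rw [tangent_eq ht, LinearMap.mem_range]
    constructor
    · rintro ⟨t', ht'⟩
      exact ⟨t', funext fun i => (ht' i).symm⟩
    · rintro ⟨t', rfl⟩
      exact ⟨t', fun i => rfl⟩
  have h2 : Function.Injective M := by
    rw [← LinearMap.ker_eq_bot, LinearMap.ker_eq_bot']
    intro t' ht'
    have h3 : ∀ i, l i t' = 0 := by
      intro i
      have h4 : ((l i t)⁻¹) ^ 2 * l i t' = 0 := congrFun ht' i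
      exact (mul_eq_zero.mp h4).resolve_left (pow_ne_zero _ (inv_ne_zero (ht i)))
    funext j
    have h5 : (LinearMap.proj j : Module.Dual ℂ (Fin (d + 1) → ℂ)) ∈
        Submodule.span ℂ (Set.range l) := by rw [hspan]; trivial
    obtain ⟨c, hc⟩ := (Submodule.mem_span_range_iff_exists_fun ℂ).mp h5
    have h6 : (LinearMap.proj j : Module.Dual ℂ (Fin (d + 1) → ℂ)) t' = 0 := by
      rw [← hc, LinearMap.sum_apply]
      refine Finset.sum_eq_zero fun i _ => ?_
      rw [LinearMap.smul_apply, h3 i, smul_zero]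
    exact h6
  rw [h1, LinearMap.finrank_range_of_inj h2]
  simp

theorem smooth_torus {l : Fin (n + 1) → Module.Dual ℂ (Fin (d + 1) → ℂ)}
    (hspan : Submodule.span ℂ (Set.range l) = ⊤) {t : Fin (d + 1) → ℂ}
    (ht : ∀ i, l i t ≠ 0) : IsSmoothPt (recipIdeal l) (fun i => (l i t)⁻¹) := by
  have hl : ∀ i, l i ≠ 0 := fun i h => ht i (by rw [h]; rfl)
  refine ⟨?_, ?_, ?_⟩
  · intro h
    exact inv_ne_zero (ht 0) (congrFun h 0)
  · intro p hp
    exact mem_recipIdeal.mp hp t ht
  · rw [finrank_tangent hspan ht, krull hspan hl]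

/-- a vector orthogonal to the tangent space is a gradient -/
theorem grad_of_perp (I : Ideal (MvPolynomial (Fin (n + 1)) ℂ)) {z y : Fin (n + 1) → ℂ}
    (h : ∀ w ∈ tangent I z, ∑ i, y i * w i = 0) :
    ∃ p ∈ I, ∀ i, y i = eval z (pderiv i p) := by
  let gr : MvPolynomial (Fin (n + 1)) ℂ →ₗ[ℂ] (Fin (n + 1) → ℂ) :=
    LinearMap.pi (fun i => (aeval z).toLinearMap ∘ₗ (pderiv i).toLinearMap)
  by_contra hcon
  have h1 : y ∉ (I.restrictScalars ℂ).map gr := by
    rintro ⟨p, hp, hpy⟩
    exact hcon ⟨p, hp, fun i => (congrFun hpy i).symm⟩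
  obtain ⟨φ, hφy, hφ⟩ := Submodule.exists_le_ker_of_notMem h1
  apply hφy
  rw [dual_apply]
  apply h
  intro p hp
  have h2 : gr p ∈ LinearMap.ker φ := hφ ⟨p, hp, rfl⟩
  rw [LinearMap.mem_ker, dual_apply] at h2
  exact h2

end K1H20.RecDual
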