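import Pool.Agent.K1H20.RL.Geo2

set_option linter.unusedSectionVars false
set_option linter.style.haveILetI false

namespace K1H20.RecDual

open MvPolynomial K1H20.RL Pool.Agent.Helper766.Rad

variable {d n : ℕ}

/-- points of the linear space and orthogonal vectors form a pair -/
theorem isPair_of {l : Fin (n + 1) → Module.Dual ℂ (Fin (d + 1) → ℂ)} {x c : Fin (n + 1) → ℂ}
    (t : Fin (d + 1) → ℂ) (hx : ∀ i, x i = l i t) (hc : ∀ t', ∑ i, l i t' * c i = 0) :
    IsPair l (⊥ : Submodule ℂ (Module.Dual ℂ (Fin (d + 1) → ℂ))) Finset.univ x c := by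
  constructor
  · intro a ha
    rw [Submodule.mem_bot] at ha
    have h1 := LinearMap.congr_fun ha t
    rw [LinearMap.sum_apply] at h1
    simp only [LinearMap.smul_apply, LinearMap.zero_apply] at h1
    rw [← h1]
    exact Finset.sum_congr rfl fun i _ => by rw [hx i]
  · intro φ _
    obtain ⟨t', rfl⟩ := (Module.evalEquiv ℂ (Fin (d + 1) → ℂ)).surjective φ
    exact hc t'

theorem pair_x {l : Fin (n + 1) → Module.Dual ℂ (Fin (d + 1) → ℂ)} {A : Type} [CommRing A]
    [Algebra ℂ A] {x c : Fin (n + 1) → A}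
    (h : IsPair l (⊥ : Submodule ℂ (Module.Dual ℂ (Fin (d + 1) → ℂ))) Finset.univ x c)
    {a : Fin (n + 1) → ℂ} (ha : ∀ t, ∑ i, l i t * a i = 0) : ∑ i, a i • x i = 0 := by
  apply h.hx a
  rw [Submodule.mem_bot]
  apply LinearMap.ext
  intro t
  rw [LinearMap.sum_apply]
  simp only [LinearMap.smul_apply, LinearMap.zero_apply, smul_eq_mul]
  rw [← ha t]
  exact Finset.sum_congr rfl fun i _ => mul_comm _ _

theorem pair_c {l : Fin (n + 1) → Module.Dual ℂ (Fin (d + 1) → ℂ)} {A : Type} [CommRing A]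
    [Algebra ℂ A] {x c : Fin (n + 1) → A}
    (h : IsPair l (⊥ : Submodule ℂ (Module.Dual ℂ (Fin (d + 1) → ℂ))) Finset.univ x c)
    (t : Fin (d + 1) → ℂ) : ∑ i, l i t • c i = 0 := by
  refine h.hc (Module.evalEquiv ℂ (Fin (d + 1) → ℂ) t) ?_
  intro w hw
  rw [Submodule.mem_bot] at hw
  rw [hw, map_zero]

/-- the indexing equivalence -/
def ee (n : ℕ) : ((Finset.univ : Finset (Fin (n + 1))) : Type) ≃ Fin (n + 1) :=
  Equiv.subtypeUnivEquiv (fun _ => Finset.mem_univ _)

/-- transport of polynomials -/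
noncomputable def re (n : ℕ) : MvPolynomial ((Finset.univ : Finset (Fin (n + 1))) : Type) ℂ ≃ₐ[ℂ]
    MvPolynomial (Fin (n + 1)) ℂ := renameEquiv ℂ (ee n)

theorem aeval_re {A : Type} [CommRing A] [Algebra ℂ A] (y : Fin (n + 1) → A)
    (p : MvPolynomial ((Finset.univ : Finset (Fin (n + 1))) : Type) ℂ) :
    aeval y (re n p) = aeval (fun i : ((Finset.univ : Finset (Fin (n + 1))) : Type) => y i.1) p := by
  simp only [re, renameEquiv_apply, aeval_rename]
  rfl

section Core

variable {l : Fin (n + 1) → Module.Dual ℂ (Fin (d + 1) → ℂ)} {f : Fin (n + 1)}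
  {Δ : MvPolynomial ((Finset.univ : Finset (Fin (n + 1))) : Type) ℂ} {D : ℕ}

theorem vanish (hf : l f ≠ 0)
    (hΔ : IsDisc l (⊥ : Submodule ℂ (Module.Dual ℂ (Fin (d + 1) → ℂ))) Finset.univ f Δ D)
    {t : Fin (d + 1) → ℂ} (ht : l f t ≠ 0) {c : Fin (n + 1) → ℂ}
    (hc : ∀ t', ∑ i, l i t' * c i = 0) : aeval (fun i => c i * (l i t) ^ 2) (re n Δ) = 0 := by
  obtain ⟨K, _, _, X, C, hg, -⟩ := exists_gen l
    (⊥ : Submodule ℂ (Module.Dual ℂ (Fin (d + 1) → ℂ))) (Finset.mem_univ f)
    (by rw [Submodule.mem_bot]; exact hf)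
  have h0 : aeval (yy Finset.univ X C) Δ = 0 := (hΔ.ker K X C hg Δ).mpr dvd_rfl
  have h1 := hg.specY (x' := fun i => l i ((l f t)⁻¹ • t)) (c' := fun i => (l f t) ^ 2 * c i)
    (isPair_of ((l f t)⁻¹ • t) (fun i => rfl) (fun t' => by
      rw [← mul_zero ((l f t) ^ 2), ← hc t', Finset.mul_sum]
      exact Finset.sum_congr rfl fun i _ => by ring))
    (by simp only [map_smul, smul_eq_mul]; exact inv_mul_cancel₀ ht) h0
  rw [aeval_re, ← h1]
  congr 2
  funext i
  simp only [yy, map_smul, smul_eq_mul]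
  field_simp

theorem perp_torus {t : Fin (d + 1) → ℂ} (ht : ∀ i, l i t ≠ 0) {c : Fin (n + 1) → ℂ}
    (hc : ∀ t', ∑ i, l i t' * c i = 0) :
    ∀ w ∈ tangent (recipIdeal l) (fun i => (l i t)⁻¹), ∑ i, c i * (l i t) ^ 2 * w i = 0 := by
  intro w hw
  obtain ⟨t', ht'⟩ := (tangent_eq ht w).mp hw
  rw [← hc t']
  refine Finset.sum_congr rfl fun i _ => ?_
  rw [ht' i]
  have := ht i
  field_simp

theorem core (hspan : Submodule.span ℂ (Set.range l) = ⊤) (hl : ∀ i, l i ≠ 0)
    (hΔ : IsDisc l (⊥ : Submodule ℂ (Module.Dual ℂ (Fin (d + 1) → ℂ))) Finset.univ f Δ D)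
    (p : MvPolynomial (Fin (n + 1)) ℂ) :
    p ∈ vanishingIdeal ℂ (dualCone (recipIdeal l)) ↔ re n Δ ∣ p := by
  rw [mem_vanishingIdeal_iff]
  constructor
  · intro h
    obtain ⟨K, _, _, X, C, hg, -⟩ := exists_gen l
      (⊥ : Submodule ℂ (Module.Dual ℂ (Fin (d + 1) → ℂ))) (Finset.mem_univ f)
      (by rw [Submodule.mem_bot]; exact hl f)
    have hXne : ∀ i, X i ≠ 0 := fun i => hg.x_ne (Finset.mem_univ i)
      (by rw [Submodule.mem_bot]; exact hl i)
    obtain ⟨J, hJ, z, Xp, Cp, hz, hXC, -⟩ := hg.spec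
    have hzinj : Function.Injective (aeval (R := ℂ) z) := hz
    set P : MvPolynomial J ℂ := aeval (fun i => Cp i * Xp i ^ 2) p with hP
    have hP0 : P * ∏ i, Xp i = 0 := by
      apply MvPolynomial.funext
      intro b
      rw [map_mul, map_prod, map_zero]
      by_cases hb : ∀ i, eval b (Xp i) ≠ 0
      · have hx' : ∀ a : Fin (n + 1) → ℂ, (∀ t, ∑ i, l i t * a i = 0) →
            ∑ i, eval b (Xp i) * a i = 0 := by
          intro a ha
          have h1 := pair_x hg.toIsPair ha
          have h2 : ∑ i, a i • Xp i = 0 := by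
            apply hzinj
            rw [map_zero, ← h1, map_sum]
            exact Finset.sum_congr rfl fun i _ => by
              rw [map_smul, (hXC i (Finset.mem_univ i)).1]
          have h3 := congrArg (eval b) h2
          rw [map_sum, map_zero] at h3
          rw [← h3]
          exact Finset.sum_congr rfl fun i _ => by
            rw [smul_eval, mul_comm]
        have hc' : ∀ t, ∑ i, l i t * eval b (Cp i) = 0 := by
          intro t
          have h1 := pair_c hg.toIsPair t
          have h2 : ∑ i, l i t • Cp i = 0 := by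
            apply hzinj
            rw [map_zero, ← h1, map_sum]
            exact Finset.sum_congr rfl fun i _ => by
              rw [map_smul, (hXC i (Finset.mem_univ i)).2]
          have h3 := congrArg (eval b) h2
          rw [map_sum, map_zero] at h3
          rw [← h3]
          exact Finset.sum_congr rfl fun i _ => by rw [smul_eval]
        obtain ⟨t, ht⟩ := mem_L hx'
        have ht' : ∀ i, l i t ≠ 0 := fun i => by rw [← ht i]; exact hb i
        have h4 := h (fun i => eval b (Cp i) * (l i t) ^ 2)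
          ⟨_, smooth_torus hspan ht', perp_torus ht' hc'⟩
        have h5 : eval b P = aeval (fun i => eval b (Cp i) * (l i t) ^ 2) p := by
          rw [hP]
          have h6 : (aeval b).comp (aeval (R := ℂ) (fun i => Cp i * Xp i ^ 2)) =
              aeval (fun i => eval b (Cp i) * (l i t) ^ 2) := by
            apply algHom_ext
            intro i
            rw [AlgHom.comp_apply, aeval_X, aeval_X, map_mul, map_pow, ← ht i]
            rfl
          exact DFunLike.congr_fun h6 p
        rw [h5, h4, zero_mul]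
      · push Not at hb
        obtain ⟨i, hi⟩ := hb
        rw [Finset.prod_eq_zero (Finset.mem_univ i) hi, mul_zero]
    have hP1 : P = 0 := by
      rcases mul_eq_zero.mp hP0 with h1 | h1
      · exact h1
      · obtain ⟨i, -, hi⟩ := Finset.prod_eq_zero_iff.mp h1
        exact absurd (by rw [← (hXC i (Finset.mem_univ i)).1, hi, map_zero]) (hXne i)
    have h7 : aeval (yy Finset.univ X C) ((re n).symm p) = 0 := by
      have h8 : aeval (fun i => C i * X i ^ 2) p = aeval (R := ℂ) z P := by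
        rw [hP]
        have h6 : (aeval z).comp (aeval (R := ℂ) (fun i => Cp i * Xp i ^ 2)) =
            aeval (fun i => C i * X i ^ 2) := by
          apply algHom_ext
          intro i
          rw [AlgHom.comp_apply, aeval_X, aeval_X, map_mul, map_pow,
            (hXC i (Finset.mem_univ i)).1, (hXC i (Finset.mem_univ i)).2]
        exact (DFunLike.congr_fun h6 p).symm
      have h9 := aeval_re (fun i => C i * X i ^ 2) ((re n).symm p)
      rw [AlgEquiv.apply_symm_apply, h8, hP1, map_zero] at h9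
      exact h9.symm
    have h10 := (hΔ.ker K X C hg _).mp h7
    have h11 : re n Δ ∣ re n ((re n).symm p) := map_dvd (re n) h10
    rwa [AlgEquiv.apply_symm_apply] at h11
  · rintro ⟨q, rfl⟩ y ⟨z, hz, hy⟩
    rw [map_mul]
    obtain ⟨g, hg, hyg⟩ := grad_of_perp _ hy
    have h1 : aeval (fun i => pderiv i g) (re n Δ) ∈ recipIdeal l := by
      rw [mem_recipIdeal]
      intro t ht
      have h2 : eval (fun i => (l i t)⁻¹) (aeval (fun i => pderiv i g) (re n Δ)) =
          aeval (fun i => (eval (fun i => (l i t)⁻¹) (pderiv i g) * ((l i t)⁻¹) ^ 2) *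
            (l i t) ^ 2) (re n Δ) := by
        have h6 : (aeval (fun i => (l i t)⁻¹)).comp (aeval (R := ℂ) (fun i => pderiv i g)) =
            aeval (fun i => (eval (fun i => (l i t)⁻¹) (pderiv i g) * ((l i t)⁻¹) ^ 2) *
            (l i t) ^ 2) := by
          apply algHom_ext
          intro i
          rw [AlgHom.comp_apply, aeval_X, aeval_X, mul_assoc, ← mul_pow, inv_mul_cancel₀ (ht i),
            one_pow, mul_one]
          rfl
        exact DFunLike.congr_fun h6 _
      rw [h2]
      apply vanish (hl f) hΔ (ht f)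
      intro t'
      rw [← tan_rel hg ht t']
      exact Finset.sum_congr rfl fun i _ => by ring
    have h2 : aeval y (re n Δ) = 0 := by
      have h3 := hz.2.1 _ h1
      have h6 : (aeval z).comp (aeval (R := ℂ) (fun i => pderiv i g)) = aeval y := by
        apply algHom_ext
        intro i
        rw [AlgHom.comp_apply, aeval_X, aeval_X, hyg i]
        rfl
      rw [← h6]
      exact h3
    rw [h2, zero_mul]

end Core

theorem rkN_eq (l : Fin (n + 1) → Module.Dual ℂ (Fin (d + 1) → ℂ)) (S : Finset (Fin (n + 1))) :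
    rkN l (⊥ : Submodule ℂ (Module.Dual ℂ (Fin (d + 1) → ℂ))) S = rk l S := by
  have h := rkN_add l (⊥ : Submodule ℂ (Module.Dual ℂ (Fin (d + 1) → ℂ))) S
  rw [finrank_bot, add_zero, bot_sup_eq] at h
  exact h

theorem conn_of {l : Fin (n + 1) → Module.Dual ℂ (Fin (d + 1) → ℂ)} (h : Connected l) :
    Conn (rf l (⊥ : Submodule ℂ (Module.Dual ℂ (Fin (d + 1) → ℂ)))) Finset.univ := by
  intro A _ hne hA
  have h1 := h A hne hA
  have h2 := r_union_le (rf l (⊥ : Submodule ℂ (Module.Dual ℂ (Fin (d + 1) → ℂ)))) A (Finset.univ \ A)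
  rw [Finset.union_sdiff_of_subset (Finset.subset_univ A)] at h2
  change rkN l (⊥ : Submodule ℂ (Module.Dual ℂ (Fin (d + 1) → ℂ))) Finset.univ < rkN l (⊥ : Submodule ℂ (Module.Dual ℂ (Fin (d + 1) → ℂ))) A + rkN l (⊥ : Submodule ℂ (Module.Dual ℂ (Fin (d + 1) → ℂ))) (Finset.univ \ A)
  change rkN l (⊥ : Submodule ℂ (Module.Dual ℂ (Fin (d + 1) → ℂ))) Finset.univ ≤ rkN l (⊥ : Submodule ℂ (Module.Dual ℂ (Fin (d + 1) → ℂ))) A + rkN l (⊥ : Submodule ℂ (Module.Dual ℂ (Fin (d + 1) → ℂ))) (Finset.univ \ A) at h2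
  rw [rkN_eq, rkN_eq, rkN_eq] at h2 ⊢
  rw [← Finset.compl_eq_univ_sdiff] at h2 ⊢
  omega

theorem beta_eq (l : Fin (n + 1) → Module.Dual ℂ (Fin (d + 1) → ℂ)) :
    DC813.beta (rkN l (⊥ : Submodule ℂ (Module.Dual ℂ (Fin (d + 1) → ℂ)))) Finset.univ = beta l := by
  unfold DC813.beta beta
  rw [rkN_eq, Finset.powerset_univ]
  congr 1
  exact Finset.sum_congr rfl fun S _ => by rw [rkN_eq]

theorem rk_univ {l : Fin (n + 1) → Module.Dual ℂ (Fin (d + 1) → ℂ)}
    (hspan : Submodule.span ℂ (Set.range l) = ⊤) : rk l Finset.univ = d + 1 := by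
  unfold rk
  rw [Finset.coe_univ, Set.image_univ, hspan, finrank_top, Subspace.dual_finrank_eq]
  simp

theorem ne_zero_all {l : Fin (n + 1) → Module.Dual ℂ (Fin (d + 1) → ℂ)}
    (hspan : Submodule.span ℂ (Set.range l) = ⊤) (h : Connected l) (i : Fin (n + 1)) :
    l i ≠ 0 := by
  by_cases hn : n = 0
  · subst hn
    intro h0
    have h1 : Set.range l = {0} := by
      ext w
      constructor
      · rintro ⟨j, rfl⟩
        rw [show j = i by omega, h0]; rfl
      · rintro rfl
        exact ⟨i, h0⟩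
    rw [h1, Submodule.span_zero_singleton] at hspan
    have h2 : (LinearMap.proj 0 : Module.Dual ℂ (Fin (d + 1) → ℂ)) ∈
        (⊥ : Submodule ℂ (Module.Dual ℂ (Fin (d + 1) → ℂ))) := by rw [hspan]; trivial
    rw [Submodule.mem_bot] at h2
    have h3 := LinearMap.congr_fun h2 (fun _ => 1)
    simp at h3
  · have h2 : 2 ≤ (Finset.univ : Finset (Fin (n + 1))).card := by
      rw [Finset.card_univ, Fintype.card_fin]; omega
    have h3 := Conn.not_mem (conn_of h) h2 (Finset.mem_univ i)
    rwa [Submodule.mem_bot] at h3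

theorem not_X_dvd_X {i j : Fin (n + 1)} (hij : i ≠ j) :
    ¬ (X i : MvPolynomial (Fin (n + 1)) ℂ) ∣ X j := by
  rintro ⟨q, hq⟩
  have h := congrArg (eval (Pi.single j (1 : ℂ) : Fin (n + 1) → ℂ)) hq
  rw [map_mul, eval_X, eval_X, Pi.single_eq_same, Pi.single_eq_of_ne hij, zero_mul] at h
  exact one_ne_zero h

theorem final (l : Fin (n + 1) → Module.Dual ℂ (Fin (d + 1) → ℂ))
    (hspan : Submodule.span ℂ (Set.range l) = ⊤) (hconn : Connected l) :
    ∃ (D : ℕ) (Δ : MvPolynomial (Fin (n + 1)) ℂ), Δ.IsHomogeneous D ∧ Irreducible Δ ∧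
      vanishingIdeal ℂ (dualCone (recipIdeal l)) = Ideal.span {Δ} ∧
      (1 ≤ n → vanishingIdeal ℂ (dualCone (recipIdeal l) \ {0}) = Ideal.span {Δ}) ∧
      (D : ℤ) = 2 ^ d * beta l := by
  have hl := ne_zero_all hspan hconn
  obtain ⟨Δ, D, hΔ, hD⟩ := main (v := l) (f := 0) (Finset.univ : Finset (Fin (n + 1))).card
    (⊥ : Submodule ℂ (Module.Dual ℂ (Fin (d + 1) → ℂ)))
    Finset.univ rfl (conn_of hconn) (Finset.mem_univ _)
    (by rw [Submodule.mem_bot]; exact hl 0)
  have hmem := core hspan hl hΔ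
  have hirr : Irreducible (re n Δ) := (MulEquiv.irreducible_iff (re n)).mpr hΔ.irr
  have hideal : vanishingIdeal ℂ (dualCone (recipIdeal l)) = Ideal.span {re n Δ} := by
    ext p
    rw [hmem, Ideal.mem_span_singleton]
  refine ⟨D, re n Δ, ?_, hirr, hideal, ?_, ?_⟩
  · have h1 : (rename (ee n) Δ).IsHomogeneous D := hΔ.hom.rename_isHomogeneous
    exact h1
  · intro hn
    apply le_antisymm
    · intro p hp
      rw [mem_vanishingIdeal_iff] at hp
      rw [Ideal.mem_span_singleton]
      have h1 : ∀ i, re n Δ ∣ p * X i := by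
        intro i
        rw [← hmem, mem_vanishingIdeal_iff]
        intro y hy
        rw [map_mul, aeval_X]
        by_cases h0 : y = 0
        · rw [h0]; simp
        · rw [hp y ⟨hy, h0⟩, zero_mul]
      have hprime : Prime (re n Δ) := hirr.prime
      by_contra hnot
      let a : Fin (n + 1) := ⟨0, by omega⟩
      let b : Fin (n + 1) := ⟨1, by omega⟩
      have hab : a ≠ b := by
        intro h
        have := congrArg Fin.val h
        simp [a, b] at this
      have h2 : re n Δ ∣ X a := (hprime.dvd_or_dvd (h1 a)).resolve_left hnot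
      have h3 : re n Δ ∣ X b := (hprime.dvd_or_dvd (h1 b)).resolve_left hnot
      have h4 : Associated (re n Δ) (X a) := hirr.associated_of_dvd (by
        exact (X_prime).irreducible) h2
      exact not_X_dvd_X hab (h4.symm.dvd.trans h3)
    · rw [← hideal]
      exact vanishingIdeal_anti_mono Set.sdiff_subset
  · rw [hD, rkN_eq, rk_univ hspan, beta_eq, Nat.add_sub_cancel]

end K1H20.RecDual
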