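import Pool.Agent.K1H20.RL.Val

set_option linter.unusedSectionVars false

namespace K1H20.RL

open Module IntermediateField IsLocalRing

variable (V : Type) [CommRing V] [IsDomain V] [ValuationRing V]
  {K : Type} [Field K] [Algebra V K] [IsFractionRing V K]
  {k : Type} [Field k] [Algebra k V] [Algebra k K] [IsScalarTower k V K]
  {W : Type} [AddCommGroup W] [Module k W] [FiniteDimensional k W]
  {ι : Type} [DecidableEq ι]

open Classical in
/-- level set of `τ` -/
noncomputable def lev (G : Finset ι) (x c : ι → K) (τ : K) : Finset ι :=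
  G.filter (fun i => res V (c i * x i ^ 2) ≠ 0 ∧ x i / τ ∈ OO V K ∧ res V (x i / τ) ≠ 0)

open Classical in
/-- indices where `x` is smaller than `τ` -/
noncomputable def levU (G : Finset ι) (x : ι → K) (τ : K) : Finset ι :=
  G.filter (fun i => x i / τ ∈ OO V K ∧ res V (x i / τ) = 0)

theorem mem_lev {G : Finset ι} {x c : ι → K} {τ : K} {i : ι} : i ∈ lev V G x c τ ↔
    i ∈ G ∧ res V (c i * x i ^ 2) ≠ 0 ∧ x i / τ ∈ OO V K ∧ res V (x i / τ) ≠ 0 := by
  classical
  unfold lev
  rw [Finset.mem_filter]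

theorem mem_levU {G : Finset ι} {x : ι → K} {τ : K} {i : ι} : i ∈ levU V G x τ ↔
    i ∈ G ∧ x i / τ ∈ OO V K ∧ res V (x i / τ) = 0 := by
  classical
  unfold levU
  rw [Finset.mem_filter]

theorem lev_c {G : Finset ι} {x c : ι → K} (hy : ∀ i ∈ G, c i * x i ^ 2 ∈ OO V K) {τ : K}
    (hτ : τ ≠ 0) {i : ι} (hi : i ∈ G) (hU : i ∉ levU V G x τ) :
    c i * τ ^ 2 ∈ OO V K ∧ (i ∉ lev V G x c τ → res V (c i * τ ^ 2) = 0) := by
  rw [mem_levU] at hU
  push Not at hU
  have hx0 : x i ≠ 0 := by
    intro h0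
    apply hU hi
    · rw [h0, zero_div]; exact zero_mem _
    · rw [h0, zero_div, res_zero]
  have e1 : c i * τ ^ 2 = (c i * x i ^ 2) * ((x i / τ)⁻¹) ^ 2 := by
    field_simp
  by_cases h : x i / τ ∈ OO V K
  · have h1 := hU hi h
    have h2 := inv_mem_of_res V h h1
    refine ⟨?_, fun hT => ?_⟩
    · rw [e1]; exact mul_mem (hy i hi) (pow_mem h2 2)
    · rw [e1, res_mul V (hy i hi) (pow_mem h2 2)]
      have h3 : res V (c i * x i ^ 2) = 0 := by
        by_contra h4
        exact hT ((mem_lev V).mpr ⟨hi, h4, h, h1⟩)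
      rw [h3, zero_mul]
  · obtain ⟨h2, h3⟩ := inv_mem_res_of_not_mem V h
    refine ⟨?_, fun hT => ?_⟩
    · rw [e1]; exact mul_mem (hy i hi) (pow_mem h2 2)
    · rw [e1, res_mul V (hy i hi) (pow_mem h2 2), res_pow V h2, h3]
      simp

theorem lev_pair {v : ι → W} {N : Submodule k W} {G : Finset ι} {x c : ι → K}
    (h : IsPair v N G x c) (hy : ∀ i ∈ G, c i * x i ^ 2 ∈ OO V K) {τ : K} (hτ : τ ≠ 0) :
    IsPair v (N ⊔ Submodule.span k (v '' (levU V G x τ : Set ι))) (lev V G x c τ)
      (fun i => res V (x i / τ)) (fun i => res V (c i * τ ^ 2)) := by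
  classical
  have hdisj : ∀ i ∈ lev V G x c τ, i ∉ levU V G x τ := by
    intro i hi hi'
    rw [mem_lev] at hi
    rw [mem_levU] at hi'
    exact hi.2.2.2 hi'.2.2
  constructor
  · intro a ha
    obtain ⟨n, hn, u, hu, hnu⟩ := Submodule.mem_sup.mp ha
    rw [Submodule.mem_span_image_finset_iff_exists_fun'] at hu
    obtain ⟨b, hb⟩ := hu
    let a' : ι → k := fun i => if i ∈ lev V G x c τ then a i else
      if i ∈ levU V G x τ then - b i else 0
    have hsplit : ∀ {M : Type} [AddCommGroup M] [Module k M] (z : ι → M),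
        ∑ i ∈ G, a' i • z i = ∑ i ∈ lev V G x c τ, a i • z i -
          ∑ i ∈ levU V G x τ, b i • z i := by
      intro M _ _ z
      have e1 : ∑ i ∈ lev V G x c τ, a i • z i =
          ∑ i ∈ G, (if i ∈ lev V G x c τ then a i else 0) • z i := by
        rw [← Finset.sum_subset (s₁ := lev V G x c τ) (s₂ := G)
          (fun i hi => ((mem_lev V).mp hi).1) (fun i _ hi => by rw [if_neg hi, zero_smul])]
        exact Finset.sum_congr rfl fun i hi => by rw [if_pos hi]
      have e2 : ∑ i ∈ levU V G x τ, b i • z i =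
          ∑ i ∈ G, (if i ∈ levU V G x τ then b i else 0) • z i := by
        rw [← Finset.sum_subset (s₁ := levU V G x τ) (s₂ := G)
          (fun i hi => ((mem_levU V).mp hi).1) (fun i _ hi => by rw [if_neg hi, zero_smul])]
        exact Finset.sum_congr rfl fun i hi => by rw [if_pos hi]
      rw [e1, e2, ← Finset.sum_sub_distrib]
      refine Finset.sum_congr rfl fun i _ => ?_
      rw [← sub_smul]
      congr 1
      simp only [a']
      by_cases h1 : i ∈ lev V G x c τ
      · rw [if_pos h1, if_pos h1, if_neg (hdisj i h1), sub_zero]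
      · rw [if_neg h1, if_neg h1, zero_sub]
        split_ifs <;> simp
    have hN : ∑ i ∈ G, a' i • v i ∈ N := by
      rw [hsplit, ← hnu, hb, add_sub_cancel_right]
      exact hn
    have h1 := h.hx a' hN
    rw [hsplit] at h1
    have h2 : ∑ i ∈ lev V G x c τ, a i • (x i / τ) = ∑ i ∈ levU V G x τ, b i • (x i / τ) := by
      have h3 := congrArg (fun z => z / τ) (sub_eq_zero.mp h1)
      simp only [Finset.sum_div] at h3
      simpa only [Algebra.smul_def, mul_div_assoc] using h3
    have h3 := congrArg (res V) h2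
    rw [res_sum V _ (fun i hi => smul_mem_OO V _ ((mem_lev V).mp hi).2.2.1),
      res_sum V _ (fun i hi => smul_mem_OO V _ ((mem_levU V).mp hi).2.1)] at h3
    calc ∑ i ∈ lev V G x c τ, a i • res V (x i / τ) =
        ∑ i ∈ lev V G x c τ, res V (a i • (x i / τ)) :=
          Finset.sum_congr rfl fun i hi => (res_smul V _ ((mem_lev V).mp hi).2.2.1).symm
      _ = ∑ i ∈ levU V G x τ, res V (b i • (x i / τ)) := h3
      _ = 0 := Finset.sum_eq_zero fun i hi => by
          rw [res_smul V _ ((mem_levU V).mp hi).2.1, ((mem_levU V).mp hi).2.2, smul_zero]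
  · intro l hl
    have hlN : ∀ w ∈ N, l w = 0 := fun w hw => hl w (Submodule.mem_sup_left hw)
    have hlU : ∀ i ∈ levU V G x τ, l (v i) = 0 := fun i hi =>
      hl _ (Submodule.mem_sup_right (Submodule.subset_span ⟨i, hi, rfl⟩))
    have h1 := h.hc l hlN
    have h2 : ∑ i ∈ G, l (v i) • (c i * τ ^ 2) = 0 := by
      have h3 := congrArg (fun z => z * τ ^ 2) h1
      simp only [Finset.sum_mul, zero_mul] at h3
      rw [← h3]
      exact Finset.sum_congr rfl fun i _ => (smul_mul_assoc _ _ _).symm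
    have hO : ∀ i ∈ G, l (v i) • (c i * τ ^ 2) ∈ OO V K := by
      intro i hi
      by_cases hU : i ∈ levU V G x τ
      · rw [hlU i hU, zero_smul]; exact zero_mem _
      · exact smul_mem_OO V _ (lev_c V hy hτ hi hU).1
    have h3 := congrArg (res V) h2
    rw [res_sum V _ hO, res_zero] at h3
    rw [← h3]
    rw [← Finset.sum_subset (s₁ := lev V G x c τ) (s₂ := G) (fun i hi => ((mem_lev V).mp hi).1)]
    · refine Finset.sum_congr rfl fun i hi => ?_
      exact (res_smul V _ (lev_c V hy hτ ((mem_lev V).mp hi).1 (hdisj i hi)).1).symm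
    · intro i hi hi'
      by_cases hU : i ∈ levU V G x τ
      · rw [hlU i hU, zero_smul, res_zero]
      · obtain ⟨h4, h5⟩ := lev_c V hy hτ hi hU
        rw [res_smul V _ h4, h5 hi', smul_zero]

theorem tr_lev {v : ι → W} {N : Submodule k W} {G : Finset ι} {x c : ι → K}
    (h : IsPair v N G x c) (hy : ∀ i ∈ G, c i * x i ^ 2 ∈ OO V K) {τ : K} (hτ : τ ≠ 0)
    (hne : (lev V G x c τ).Nonempty) :
    tr k ((fun i => res V (c i * x i ^ 2)) '' (lev V G x c τ : Set ι)) + 1 ≤
      ((lev V G x c τ).card : ℕ∞) := by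
  have h1 := (lev_pair V h hy hτ).tr_y hne
  have h2 : ((fun i => res V (c i * τ ^ 2) * res V (x i / τ) ^ 2) '' (lev V G x c τ : Set ι)) =
      ((fun i => res V (c i * x i ^ 2)) '' (lev V G x c τ : Set ι)) := by
    apply Set.image_congr
    intro i hi
    have hi' := (mem_lev V).mp (Finset.mem_coe.mp hi)
    have hU : i ∉ levU V G x τ := fun hU => hi'.2.2.2 ((mem_levU V).mp hU).2.2
    have h3 := (lev_c V hy hτ hi'.1 hU).1
    rw [← res_pow V hi'.2.2.1, ← res_mul V h3 (pow_mem hi'.2.2.1 2)]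
    congr 1
    field_simp
  rwa [h2] at h1

end K1H20.RL
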