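import Mathlib
import Pool.Agent.Helper766.Rad.Basic

set_option linter.unusedSectionVars false

namespace K1H20.RL

open Module Pool.Agent.Helper766.Rad

variable {k : Type} [Field k] {W : Type} [AddCommGroup W] [Module k W] [FiniteDimensional k W]
  {ι : Type} [DecidableEq ι]

/-- rank of `S` modulo `N` -/
noncomputable def rkN (v : ι → W) (N : Submodule k W) (S : Finset ι) : ℕ :=
  finrank k (N ⊔ Submodule.span k (v '' (S : Set ι)) : Submodule k W) - finrank k N

theorem rkN_add (v : ι → W) (N : Submodule k W) (S : Finset ι) :
    rkN v N S + finrank k N = finrank k (N ⊔ Submodule.span k (v '' (S : Set ι)) : Submodule k W) :=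
  Nat.sub_add_cancel (Submodule.finrank_mono le_sup_left)

/-- the matroid of a vector configuration modulo a subspace -/
noncomputable def rf (v : ι → W) (N : Submodule k W) : RankFn ι where
  r := rkN v N
  empty := by
    change rkN v N ∅ = 0
    unfold rkN
    rw [Finset.coe_empty, Set.image_empty, Submodule.span_empty, sup_bot_eq, Nat.sub_self]
  mono A B h := by
    apply Nat.sub_le_sub_right
    apply Submodule.finrank_mono
    apply sup_le_sup_left
    exact Submodule.span_mono (Set.image_mono (by exact_mod_cast h))
  insert_le A x := by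
    have h1 := rkN_add v N A
    have h2 := rkN_add v N (insert x A)
    have h3 : (N ⊔ Submodule.span k (v '' ((insert x A : Finset ι) : Set ι)) : Submodule k W) ≤
        (N ⊔ Submodule.span k (v '' (A : Set ι))) ⊔ Submodule.span k {v x} := by
      rw [Finset.coe_insert, Set.image_insert_eq, Submodule.span_insert]
      apply sup_le
      · exact le_sup_left.trans le_sup_left
      · apply sup_le
        · exact le_sup_right
        · exact le_sup_right.trans le_sup_left
    have h4 := Submodule.finrank_mono h3
    have h5 := Submodule.finrank_add_le_finrank_add_finrank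
      (N ⊔ Submodule.span k (v '' (A : Set ι))) (Submodule.span k {v x})
    have h6 := finrank_span_le_card (R := k) ({v x} : Set W)
    simp at h6
    omega
  submod A B := by
    have h1 := rkN_add v N A
    have h2 := rkN_add v N B
    have h3 := rkN_add v N (A ∪ B)
    have h4 := rkN_add v N (A ∩ B)
    have h5 := Submodule.finrank_sup_add_finrank_inf_eq
      (N ⊔ Submodule.span k (v '' (A : Set ι))) (N ⊔ Submodule.span k (v '' (B : Set ι)))
    have h6 : (N ⊔ Submodule.span k (v '' ((A ∪ B : Finset ι) : Set ι))) =
        (N ⊔ Submodule.span k (v '' (A : Set ι))) ⊔ (N ⊔ Submodule.span k (v '' (B : Set ι))) := by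
      rw [Finset.coe_union, Set.image_union, Submodule.span_union]
      rw [sup_sup_sup_comm, sup_idem]
    have h7 : (N ⊔ Submodule.span k (v '' ((A ∩ B : Finset ι) : Set ι))) ≤
        (N ⊔ Submodule.span k (v '' (A : Set ι))) ⊓ (N ⊔ Submodule.span k (v '' (B : Set ι))) := by
      rw [Finset.coe_inter]
      apply le_inf
      · exact sup_le_sup_left (Submodule.span_mono (Set.image_mono Set.inter_subset_left)) _
      · exact sup_le_sup_left (Submodule.span_mono (Set.image_mono Set.inter_subset_right)) _
    have h8 := Submodule.finrank_mono h7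
    rw [h6] at h3
    omega

theorem rf_r (v : ι → W) (N : Submodule k W) (S : Finset ι) : (rf v N).r S = rkN v N S := rfl

theorem con_rf (v : ι → W) (N : Submodule k W) (e : ι) (S : Finset ι) :
    (con (rf v N) e).r S = (rf v (N ⊔ Submodule.span k {v e})).r S := by
  change rkN v N (insert e S) - rkN v N {e} = rkN v (N ⊔ Submodule.span k {v e}) S
  have h1 := rkN_add v N (insert e S)
  have h2 := rkN_add v N {e}
  have h3 := rkN_add v (N ⊔ Submodule.span k {v e}) S
  have h4 : (N ⊔ Submodule.span k {v e}) ⊔ Submodule.span k (v '' (S : Set ι)) =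
      N ⊔ Submodule.span k (v '' ((insert e S : Finset ι) : Set ι)) := by
    rw [Finset.coe_insert, Set.image_insert_eq, Submodule.span_insert, sup_assoc]
  rw [h4] at h3
  have h5 : (v '' (({e} : Finset ι) : Set ι)) = {v e} := by simp
  rw [h5] at h2
  omega

theorem conn_con_iff (v : ι → W) (N : Submodule k W) (e : ι) (G : Finset ι) :
    Conn (con (rf v N) e) G ↔ Conn (rf v (N ⊔ Submodule.span k {v e})) G := by
  unfold Conn
  simp only [con_rf]

/-- A pair `(x, c)`: `x` satisfies all relations of the configuration modulo `N`, and `c` is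
orthogonal to all values of linear forms killing `N`. -/
structure IsPair (v : ι → W) (N : Submodule k W) (G : Finset ι) {A : Type} [CommRing A]
    [Algebra k A] (x c : ι → A) : Prop where
  hx : ∀ a : ι → k, ∑ i ∈ G, a i • v i ∈ N → ∑ i ∈ G, a i • x i = 0
  hc : ∀ l : Dual k W, (∀ w ∈ N, l w = 0) → ∑ i ∈ G, l (v i) • c i = 0

/-- relations -/
def Rx (v : ι → W) (N : Submodule k W) (G : Finset ι) : Submodule k (G → k) :=
  N.comap (Fintype.linearCombination k (fun i : G => v i))

/-- values of linear forms -/
def Rc (v : ι → W) (N : Submodule k W) (G : Finset ι) : Submodule k (G → k) :=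
  N.dualAnnihilator.map (LinearMap.pi (fun i : G => Module.Dual.eval k W (v i)))

theorem range_lc {M : Type} [AddCommGroup M] [Module k M] (G : Finset ι) (x : ι → M) :
    (Fintype.linearCombination k (fun i : G => x i)).range =
      Submodule.span k (x '' (G : Set ι)) := by
  rw [Fintype.range_linearCombination]
  congr 1
  ext y
  simp

theorem finrank_Rx (v : ι → W) (N : Submodule k W) (G : Finset ι) :
    finrank k (Rx v N G) + rkN v N G = G.card := by
  let f : (G → k) →ₗ[k] W ⧸ N := N.mkQ ∘ₗ Fintype.linearCombination k (fun i : G => v i)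
  have hker : f.ker = Rx v N G := by
    ext a
    simp [f, Rx, LinearMap.mem_ker]
  have h1 := f.finrank_range_add_finrank_ker
  rw [hker] at h1
  have h2 : f.range = (Submodule.span k (v '' (G : Set ι))).map N.mkQ := by
    rw [LinearMap.range_comp, range_lc]
  have h3 : finrank k f.range + finrank k N =
      finrank k (N ⊔ Submodule.span k (v '' (G : Set ι)) : Submodule k W) := by
    rw [h2]
    have h4 := Submodule.finrank_sup_add_finrank_inf_eq N (Submodule.span k (v '' (G : Set ι)))
    let g : (Submodule.span k (v '' (G : Set ι)) : Submodule k W) →ₗ[k] W ⧸ N :=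
      N.mkQ.domRestrict _
    have h5 := g.finrank_range_add_finrank_ker
    have h6 : g.range = (Submodule.span k (v '' (G : Set ι))).map N.mkQ := by
      rw [LinearMap.range_domRestrict]
    have h7 : finrank k g.ker = finrank k (N ⊓ Submodule.span k (v '' (G : Set ι)) : Submodule k W) := by
      have h8 : g.ker.map (Submodule.subtype _) = N ⊓ Submodule.span k (v '' (G : Set ι)) := by
        ext w
        simp only [Submodule.mem_map, LinearMap.mem_ker, Submodule.subtype_apply, Submodule.mem_inf]
        constructor
        · rintro ⟨⟨y, hy⟩, h1, rfl⟩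
          refine ⟨?_, hy⟩
          simpa [g] using h1
        · rintro ⟨h1, h2⟩
          exact ⟨⟨w, h2⟩, by simpa [g] using h1, rfl⟩
      rw [← h8]
      exact (LinearEquiv.finrank_eq (Submodule.equivMapOfInjective _
        (Submodule.injective_subtype _) _))
    rw [h6] at h5
    omega
  have h9 := rkN_add v N G
  have h10 : finrank k (G → k) = G.card := by simp
  omega

theorem finrank_Rc (v : ι → W) (N : Submodule k W) (G : Finset ι) :
    finrank k (Rc v N G) = rkN v N G := by
  let f : N.dualAnnihilator →ₗ[k] (G → k) :=
    (LinearMap.pi (fun i : G => Module.Dual.eval k W (v i))).domRestrict _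
  have h1 := LinearMap.finrank_range_add_finrank_ker (K := k) (V := N.dualAnnihilator) f
  have h2 : f.range = Rc v N G := by
    rw [LinearMap.range_domRestrict]; rfl
  have h3 : finrank k f.ker =
      finrank k (N ⊔ Submodule.span k (v '' (G : Set ι)) : Submodule k W).dualAnnihilator := by
    have h8 : f.ker.map (Submodule.subtype _) =
        (N ⊔ Submodule.span k (v '' (G : Set ι)) : Submodule k W).dualAnnihilator := by
      ext l
      simp only [Submodule.mem_map, LinearMap.mem_ker, Submodule.subtype_apply]
      rw [Submodule.dualAnnihilator_sup_eq, Submodule.mem_inf]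
      constructor
      · rintro ⟨⟨y, hy⟩, h1, rfl⟩
        refine ⟨hy, ?_⟩
        rw [Submodule.mem_dualAnnihilator]
        intro w hw
        induction hw using Submodule.span_induction with
        | mem w hw =>
          obtain ⟨i, hi, rfl⟩ := hw
          exact congrFun h1 ⟨i, hi⟩
        | zero => simp
        | add a b _ _ ha hb => simp only at ha hb ⊢; rw [map_add, ha, hb, add_zero]
        | smul c a _ ha => simp only at ha ⊢; rw [map_smul, ha, smul_zero]
      · rintro ⟨h1, h2⟩
        refine ⟨⟨l, h1⟩, ?_, rfl⟩
        ext i
        exact (Submodule.mem_dualAnnihilator l).mp h2 _ (Submodule.subset_span ⟨i, i.2, rfl⟩)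
    rw [← h8]
    exact (LinearEquiv.finrank_eq (Submodule.equivMapOfInjective _
      (Submodule.injective_subtype _) _))
  have h4 := Subspace.finrank_add_finrank_dualAnnihilator_eq N
  have h5 := Subspace.finrank_add_finrank_dualAnnihilator_eq
    (N ⊔ Submodule.span k (v '' (G : Set ι)))
  have h6 := rkN_add v N G
  rw [h2, h3] at h1
  omega

/-- if `x` satisfies the relations `R`, it spans a space of dimension at most `|G| - dim R` -/
theorem finrank_span_add_le {M : Type} [AddCommGroup M] [Module k M] (G : Finset ι) (x : ι → M)
    (R : Submodule k (G → k)) (h : R ≤ (Fintype.linearCombination k (fun i : G => x i)).ker) :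
    finrank k (Submodule.span k (x '' (G : Set ι))) + finrank k R ≤ G.card := by
  have h1 := (Fintype.linearCombination k (fun i : G => x i)).finrank_range_add_finrank_ker
  rw [range_lc] at h1
  have h2 := Submodule.finrank_mono h
  have h10 : finrank k (G → k) = G.card := by simp
  omega

theorem sum_G {M : Type} [AddCommGroup M] [Module k M] (G : Finset ι) (x : ι → M) (a : G → k) :
    Fintype.linearCombination k (fun i : G => x i) a =
      ∑ i ∈ G, (if h : i ∈ G then a ⟨i, h⟩ else 0) • x i := by
  rw [Fintype.linearCombination_apply, ← Finset.sum_coe_sort G]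
  refine Finset.sum_congr rfl fun i _ => ?_
  simp

theorem IsPair.Rx_le {v : ι → W} {N : Submodule k W} {G : Finset ι} {A : Type} [CommRing A]
    [Algebra k A] {x c : ι → A} (h : IsPair v N G x c) :
    Rx v N G ≤ (Fintype.linearCombination k (fun i : G => x i)).ker := by
  intro a ha
  rw [LinearMap.mem_ker, sum_G]
  apply h.hx
  rw [← sum_G]
  exact ha

theorem IsPair.Rc_le {v : ι → W} {N : Submodule k W} {G : Finset ι} {A : Type} [CommRing A]
    [Algebra k A] {x c : ι → A} (h : IsPair v N G x c) :
    Rc v N G ≤ (Fintype.linearCombination k (fun i : G => c i)).ker := by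
  rintro _ ⟨l, hl, rfl⟩
  rw [LinearMap.mem_ker, Fintype.linearCombination_apply]
  have := h.hc l ((Submodule.mem_dualAnnihilator l).mp hl)
  rw [← Finset.sum_coe_sort G] at this
  exact this

theorem IsPair.finrank_x {v : ι → W} {N : Submodule k W} {G : Finset ι} {A : Type} [CommRing A]
    [Algebra k A] {x c : ι → A} (h : IsPair v N G x c) :
    finrank k (Submodule.span k (x '' (G : Set ι))) ≤ rkN v N G := by
  have h1 := finrank_span_add_le G x _ h.Rx_le
  have h2 := finrank_Rx v N G
  omega

theorem IsPair.finrank_c {v : ι → W} {N : Submodule k W} {G : Finset ι} {A : Type} [CommRing A]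
    [Algebra k A] {x c : ι → A} (h : IsPair v N G x c) :
    finrank k (Submodule.span k (c '' (G : Set ι))) + rkN v N G ≤ G.card := by
  have h1 := finrank_span_add_le G c _ h.Rc_le
  have h2 := finrank_Rc v N G
  omega

theorem rkN_le_card (v : ι → W) (N : Submodule k W) (G : Finset ι) : rkN v N G ≤ G.card := by
  have h2 := finrank_Rx v N G
  omega

end K1H20.RL
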