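import Mathlib

namespace K1H20.RL

open IntermediateField

/-- transcendence degree of the subfield generated by `s` -/
noncomputable def tr (k : Type) [Field k] {K : Type} [Field K] [Algebra k K] (s : Set K) : ℕ∞ :=
  (AlgebraicIndependent.matroid k K).eRk s

variable {k : Type} [Field k] {K : Type} [Field K] [Algebra k K]

theorem tr_mono {s t : Set K} (h : s ⊆ t) : tr k s ≤ tr k t := Matroid.eRk_mono _ h

theorem tr_le_encard (s : Set K) : tr k s ≤ s.encard := Matroid.eRk_le_encard _ s

theorem tr_union (s t : Set K) : tr k (s ∪ t) ≤ tr k s + tr k t :=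
  Matroid.eRk_union_le_eRk_add_eRk _ s t

theorem tr_empty : tr k (∅ : Set K) = 0 := Matroid.eRk_empty _

theorem tr_le_of_alg {s t : Set K} (h : ∀ x ∈ s, IsAlgebraic (Algebra.adjoin k t) x) :
    tr k s ≤ tr k t := by
  unfold tr
  rw [← Matroid.eRk_closure_eq _ t]
  apply Matroid.eRk_mono
  rw [AlgebraicIndependent.matroid_closure_eq]
  intro x hx
  exact h x hx

open scoped algebraAdjoinAdjoin in
theorem isAlgebraic_of_mem_adjoin {t : Set K} {x : K} (h : x ∈ adjoin k t) :
    IsAlgebraic (Algebra.adjoin k t) x := by
  have h1 : IsAlgebraic (Algebra.adjoin k t) (⟨x, h⟩ : adjoin k t) :=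
    Algebra.IsAlgebraic.isAlgebraic _
  exact (isAlgebraic_algebraMap_iff (FaithfulSMul.algebraMap_injective (adjoin k t) K)).mpr h1

theorem tr_le_of_subset {s t : Set K} (h : s ⊆ adjoin k t) : tr k s ≤ tr k t :=
  tr_le_of_alg fun _ hx => isAlgebraic_of_mem_adjoin (h hx)

open scoped algebraAdjoinAdjoin in
theorem tr_le_of_alg' {s t : Set K} (h : ∀ x ∈ s, IsAlgebraic (adjoin k t) x) :
    tr k s ≤ tr k t := by
  refine tr_le_of_alg fun x hx => ?_
  exact (IsFractionRing.isAlgebraic_iff (Algebra.adjoin k t) (adjoin k t) K).mpr (h x hx)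

theorem tr_range_of_algInd {σ : Type} [Fintype σ] {z : σ → K} (h : AlgebraicIndependent k z) :
    tr k (Set.range z) = Fintype.card σ := by
  have h1 : (AlgebraicIndependent.matroid k K).Indep (Set.range z) := h.to_subtype_range
  unfold tr
  rw [h1.eRk_eq_encard, ← Set.image_univ, h.injective.encard_image, Set.encard_univ]
  simp

theorem algInd_of_le_tr {σ : Type} [Fintype σ] {z : σ → K}
    (h : (Fintype.card σ : ℕ∞) ≤ tr k (Set.range z)) : AlgebraicIndependent k z := by
  have h1 : (Set.range z).encard ≤ Fintype.card σ := by
    have := Set.encard_image_le z Set.univ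
    rw [Set.image_univ, Set.encard_univ] at this
    simpa using this
  have h2 : (AlgebraicIndependent.matroid k K).Indep (Set.range z) := by
    rw [Matroid.indep_iff_eRk_eq_encard_of_finite (Set.finite_range z)]
    exact le_antisymm (Matroid.eRk_le_encard _ _) (h1.trans h)
  have h3 : (Set.range z).encard = Fintype.card σ := le_antisymm h1 (h.trans (tr_le_encard _))
  have hinj : Function.Injective z := by
    have : Function.Injective z := by
      have h4 : Nat.card (Set.range z) = Nat.card σ := by
        have : (Set.range z).ncard = Fintype.card σ := by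
          rw [Set.ncard, h3]; rfl
        rw [Nat.card_coe_set_eq, this, Nat.card_eq_fintype_card]
      have h5 : Function.Injective (Set.rangeFactorization z) :=
        (Set.rangeFactorization_surjective.bijective_of_nat_card_le h4.ge).1
      intro a b hab
      exact h5 (Subtype.ext hab)
    exact this
  exact AlgebraicIndependent.of_subtype_range hinj h2

end K1H20.RL
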