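import Pool.Agent.K1H20.RL.Lin
import Pool.Agent.K1H20.RL.TR

set_option linter.unusedSectionVars false

namespace K1H20.RL

open Module IntermediateField

variable {k : Type} [Field k] {K : Type} [Field K] [Algebra k K]

theorem exists_finset_basis (U : Submodule k K) [FiniteDimensional k U] (s0 : Finset K)
    (h0 : LinearIndepOn k id (s0 : Set K)) (hU : (s0 : Set K) ⊆ U) :
    ∃ g : Finset K, s0 ⊆ g ∧ LinearIndepOn k id (g : Set K) ∧ Submodule.span k (g : Set K) = U ∧
      g.card = finrank k U := by
  classical
  obtain ⟨b, hb1, hb2, hb3, hb4⟩ := exists_linearIndepOn_id_extension h0 hU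
  have hspan : Submodule.span k b = U := by
    apply le_antisymm
    · exact Submodule.span_le.mpr hb1
    · exact hb3
  have hfin : b.Finite := by
    have : FiniteDimensional k (Submodule.span k b) := by rw [hspan]; infer_instance
    have h5 : LinearIndependent k (fun x : b => (⟨x, Submodule.subset_span x.2⟩ : Submodule.span k b)) := by
      have h6 : LinearIndependent k (Subtype.val : b → K) := hb4
      exact LinearIndependent.of_comp (Submodule.subtype _) h6
    exact Set.finite_coe_iff.mp h5.finite
  lift b to Finset K using hfin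
  refine ⟨b, by exact_mod_cast hb2, hb4, hspan, ?_⟩
  rw [← hspan]
  exact (finrank_span_finset_eq_card hb4).symm

theorem span_le_adjoin (s : Set K) {x : K} (hx : x ∈ Submodule.span k s) : x ∈ adjoin k s := by
  have : Submodule.span k s ≤ Subalgebra.toSubmodule (adjoin k s).toSubalgebra := by
    rw [Submodule.span_le]
    exact subset_adjoin k s
  exact this hx

/-- the span of `s` is contained in a field generated by `dim - 1` elements if it contains `1` -/
theorem span_le_adjoin_erase {s : Set K} {g : Finset K} [DecidableEq K] {x : K}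
    (hg : (s : Set K) ⊆ Submodule.span k (g : Set K)) (hx : x ∈ s) :
    x ∈ adjoin k ((g.erase 1 : Finset K) : Set K) := by
  have h1 := hg hx
  have : Submodule.span k (g : Set K) ≤
      Subalgebra.toSubmodule (adjoin k ((g.erase 1 : Finset K) : Set K)).toSubalgebra := by
    rw [Submodule.span_le]
    intro y hy
    by_cases h : y = 1
    · subst h; exact one_mem (adjoin k ((g.erase 1 : Finset K) : Set K))
    · exact subset_adjoin k _ (Finset.mem_coe.mpr (Finset.mem_erase.mpr ⟨h, hy⟩))
  exact this h1

theorem one_indep : LinearIndepOn k id (({1} : Finset K) : Set K) := by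
  rw [Finset.coe_singleton]
  exact LinearIndepOn.singleton (by simp)

variable {W : Type} [AddCommGroup W] [Module k W] [FiniteDimensional k W]
  {ι : Type} [DecidableEq ι]

instance finDimSpan (G : Finset ι) (x : ι → K) :
    FiniteDimensional k (Submodule.span k (x '' (G : Set ι))) :=
  FiniteDimensional.span_of_finite k ((Finset.finite_toSet G).image x)

/-- transcendence degree of a normalised pair -/
theorem tr_add_one_le (G : Finset ι) {x c : ι → K} {f : ι} (hf : f ∈ G) (hxf : x f = 1) :
    tr k (x '' (G : Set ι) ∪ c '' (G : Set ι)) + 1 ≤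
      ((finrank k (Submodule.span k (x '' (G : Set ι))) +
        finrank k (Submodule.span k (c '' (G : Set ι))) : ℕ) : ℕ∞) := by
  classical
  obtain ⟨g, h1, h2, h3, h4⟩ := exists_finset_basis (Submodule.span k (x '' (G : Set ι))) {1}
    one_indep (by
      rw [Finset.coe_singleton, Set.singleton_subset_iff]
      exact Submodule.subset_span ⟨f, hf, hxf⟩)
  obtain ⟨g', -, h2', h3', h4'⟩ := exists_finset_basis (Submodule.span k (c '' (G : Set ι))) ∅
    (by simp) (by simp)
  have h5 : tr k (x '' (G : Set ι) ∪ c '' (G : Set ι)) ≤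
      tr k (((g.erase 1 : Finset K) : Set K) ∪ (g' : Set K)) := by
    apply tr_le_of_subset
    rintro y (hy | hy)
    · have := span_le_adjoin_erase (s := x '' (G : Set ι)) (g := g) (x := y)
        (by rw [h3]; exact Submodule.subset_span) hy
      exact (adjoin.mono k _ _ Set.subset_union_left) this
    · have : y ∈ Submodule.span k (g' : Set K) := by
        rw [h3']; exact Submodule.subset_span hy
      exact (adjoin.mono k _ _ Set.subset_union_right) (span_le_adjoin _ this)
  have h6 : tr k (((g.erase 1 : Finset K) : Set K) ∪ (g' : Set K)) ≤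
      ((g.erase 1).card + g'.card : ℕ) := by
    refine (tr_union _ _).trans ?_
    rw [Nat.cast_add]
    refine add_le_add ?_ ?_
    · refine (tr_le_encard _).trans ?_
      rw [Set.encard_coe_eq_coe_finsetCard]
    · refine (tr_le_encard _).trans ?_
      rw [Set.encard_coe_eq_coe_finsetCard]
  have h7 : (g.erase 1).card + 1 = g.card := Finset.card_erase_add_one (h1 (by simp))
  rw [← h4, ← h4', ← h7]
  refine (add_le_add_left (h5.trans h6) 1).trans ?_
  push_cast
  ring_nf
  rfl

/-- the products `c x ^ 2` of a pair generate a field of transcendence degree less than `|G|` -/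
theorem IsPair.tr_y {v : ι → W} {N : Submodule k W} {G : Finset ι} {x c : ι → K}
    (h : IsPair v N G x c) (hG : G.Nonempty) :
    tr k ((fun i => c i * x i ^ 2) '' (G : Set ι)) + 1 ≤ (G.card : ℕ∞) := by
  classical
  by_cases h0 : ∀ i ∈ G, x i = 0
  · have h1 : tr k ((fun i => c i * x i ^ 2) '' (G : Set ι)) ≤ tr k (∅ : Set K) := by
      apply tr_le_of_subset
      rintro _ ⟨i, hi, rfl⟩
      simp [h0 i hi]
    rw [tr_empty] at h1
    have h2 : (1 : ℕ∞) ≤ (G.card : ℕ∞) := by exact_mod_cast hG.card_pos
    calc tr k ((fun i => c i * x i ^ 2) '' (G : Set ι)) + 1 ≤ 0 + 1 := add_le_add_left h1 1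
      _ ≤ _ := by simpa using h2
  · push Not at h0
    obtain ⟨f, hf, hxf⟩ := h0
    let x' : ι → K := fun i => (x f)⁻¹ * x i
    let c' : ι → K := fun i => (x f) ^ 2 * c i
    have h' : IsPair v N G x' c' := by
      constructor
      · intro a ha
        have := h.hx a ha
        calc ∑ i ∈ G, a i • x' i = (x f)⁻¹ * ∑ i ∈ G, a i • x i := by
              rw [Finset.mul_sum]
              refine Finset.sum_congr rfl fun i _ => ?_
              simp only [x', Algebra.smul_def]; ring
          _ = 0 := by rw [this, mul_zero]
      · intro l hl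
        have := h.hc l hl
        calc ∑ i ∈ G, l (v i) • c' i = (x f) ^ 2 * ∑ i ∈ G, l (v i) • c i := by
              rw [Finset.mul_sum]
              refine Finset.sum_congr rfl fun i _ => ?_
              simp only [c', Algebra.smul_def]; ring
          _ = 0 := by rw [this, mul_zero]
    have h1 := tr_add_one_le (k := k) G (x := x') (c := c') hf (by simp [x', hxf])
    have h2 := h'.finrank_x
    have h3 := h'.finrank_c
    have h4 : tr k ((fun i => c i * x i ^ 2) '' (G : Set ι)) ≤
        tr k (x' '' (G : Set ι) ∪ c' '' (G : Set ι)) := by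
      apply tr_le_of_subset
      rintro _ ⟨i, hi, rfl⟩
      have : c i * x i ^ 2 = c' i * x' i ^ 2 := by
        simp only [c', x']; field_simp
      change c i * x i ^ 2 ∈ adjoin k (x' '' (G : Set ι) ∪ c' '' (G : Set ι))
      rw [this]
      have e1 : c' i ∈ adjoin k (x' '' (G : Set ι) ∪ c' '' (G : Set ι)) :=
        subset_adjoin k _ (Or.inr ⟨i, hi, rfl⟩)
      have e2 : x' i ∈ adjoin k (x' '' (G : Set ι) ∪ c' '' (G : Set ι)) :=
        subset_adjoin k _ (Or.inl ⟨i, hi, rfl⟩)
      exact mul_mem e1 (pow_mem e2 2)
    refine (add_le_add_left h4 1).trans (h1.trans ?_)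
    exact_mod_cast (by omega)

end K1H20.RL
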