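import Pool.Agent.K1H20.RL.Bir
import Pool.Agent.K1H20.RL.Exist

set_option linter.unusedSectionVars false
set_option linter.style.haveILetI false

namespace K1H20.RL

open Module IntermediateField IsLocalRing Pool.Agent.Helper766.Rad

variable {k : Type} [Field k] {W : Type} [AddCommGroup W] [Module k W] [FiniteDimensional k W]
  {ι : Type} [DecidableEq ι]

section Lin

variable {v : ι → W} {N : Submodule k W} {G : Finset ι}

theorem span_singleton_image (v : ι → W) (e : ι) :
    Submodule.span k (v '' (({e} : Finset ι) : Set ι)) = Submodule.span k {v e} := by simp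

theorem not_mem_of_rk {e : ι} (h : rkN v N {e} = 1) : v e ∉ N := by
  intro hmem
  have h1 := rkN_add v N {e}
  rw [span_singleton_image, sup_eq_left.mpr ((Submodule.span_singleton_le_iff_mem _ _).mpr hmem)]
    at h1
  omega

theorem rk_of_not_mem {e : ι} (h : v e ∉ N) : rkN v N {e} = 1 := by
  have h1 := rkN_add v N {e}
  have h2 := r_singleton_le (rf v N) e
  change rkN v N {e} ≤ 1 at h2
  by_contra hne
  have h3 : rkN v N {e} = 0 := by omega
  rw [h3, zero_add] at h1
  have h4 : N = N ⊔ Submodule.span k (v '' (({e} : Finset ι) : Set ι)) :=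
    Submodule.eq_of_le_of_finrank_eq le_sup_left h1
  apply h
  rw [h4]
  exact Submodule.mem_sup_right (Submodule.subset_span ⟨e, by simp, rfl⟩)

theorem exists_dual {e : ι} (h : v e ∉ N) :
    ∃ l : Dual k W, (∀ w ∈ N, l w = 0) ∧ l (v e) = 1 := by
  have h1 : ¬ ∀ φ ∈ N.dualAnnihilator, φ (v e) = 0 := by
    rw [Subspace.forall_mem_dualAnnihilator_apply_eq_zero_iff]
    exact h
  push Not at h1
  obtain ⟨φ, hφ, hne⟩ := h1
  refine ⟨(φ (v e))⁻¹ • φ, fun w hw => ?_, ?_⟩
  · rw [LinearMap.smul_apply, (Submodule.mem_dualAnnihilator φ).mp hφ w hw, smul_zero]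
  · rw [LinearMap.smul_apply, smul_eq_mul, inv_mul_cancel₀ hne]

/-- an element of the closure is a combination -/
theorem exists_comb {e : ι} {T : Finset ι} (h : rkN v N (insert e T) = rkN v N T) :
    ∃ a : ι → k, v e - ∑ i ∈ T, a i • v i ∈ N := by
  have h1 := rkN_add v N (insert e T)
  have h2 := rkN_add v N T
  have h3 : N ⊔ Submodule.span k (v '' (T : Set ι)) =
      N ⊔ Submodule.span k (v '' ((insert e T : Finset ι) : Set ι)) := by
    apply Submodule.eq_of_le_of_finrank_eq
    · exact sup_le_sup_left (Submodule.span_mono (Set.image_mono (by simp))) _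
    · omega
  have h4 : v e ∈ N ⊔ Submodule.span k (v '' (T : Set ι)) := by
    rw [h3]
    exact Submodule.mem_sup_right (Submodule.subset_span ⟨e, by simp, rfl⟩)
  obtain ⟨n, hn, u, hu, hnu⟩ := Submodule.mem_sup.mp h4
  rw [Submodule.mem_span_image_finset_iff_exists_fun'] at hu
  obtain ⟨a, ha⟩ := hu
  refine ⟨a, ?_⟩
  rw [ha, ← hnu, add_sub_cancel_right]
  exact hn

theorem Conn.not_mem (h : Conn (rf v N) G) (h2 : 2 ≤ G.card) {e : ι} (he : e ∈ G) : v e ∉ N :=
  not_mem_of_rk (h.nl h2 he).1

theorem Conn.comb (h : Conn (rf v N) G) (h2 : 2 ≤ G.card) {e : ι} (he : e ∈ G) :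
    ∃ a : ι → k, v e - ∑ i ∈ G.erase e, a i • v i ∈ N := by
  apply exists_comb
  rw [Finset.insert_erase he]
  exact (h.nl h2 he).2.symm

end Lin

section Pairs

variable {A : Type} [CommRing A] [Algebra k A] {v : ι → W} {N : Submodule k W} {G : Finset ι}
  {x c : ι → A}

theorem IsPair.x_eq (h : IsPair v N G x c) {e : ι} (he : e ∈ G) {a : ι → k}
    (ha : v e - ∑ i ∈ G.erase e, a i • v i ∈ N) : x e = ∑ i ∈ G.erase e, a i • x i := by
  have h1 := h.hx (fun i => if i = e then 1 else - a i) (by
    rw [← Finset.add_sum_erase G _ he, if_pos rfl, one_smul]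
    convert ha using 1
    rw [sub_eq_add_neg, ← Finset.sum_neg_distrib]
    congr 1
    refine Finset.sum_congr rfl fun i hi => ?_
    rw [if_neg (Finset.ne_of_mem_erase hi), neg_smul])
  rw [← Finset.add_sum_erase G _ he, if_pos rfl, one_smul] at h1
  rw [eq_comm, ← sub_eq_zero, ← neg_eq_zero, ← h1, neg_sub, sub_eq_add_neg,
    ← Finset.sum_neg_distrib]
  congr 1
  refine Finset.sum_congr rfl fun i hi => ?_
  rw [if_neg (Finset.ne_of_mem_erase hi), neg_smul]

theorem IsPair.c_eq (h : IsPair v N G x c) {e : ι} (he : e ∈ G) {l : Dual k W}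
    (hl : ∀ w ∈ N, l w = 0) (hle : l (v e) = 1) :
    c e = - ∑ i ∈ G.erase e, l (v i) • c i := by
  have h1 := h.hc l hl
  rw [← Finset.add_sum_erase G _ he, hle, one_smul] at h1
  exact eq_neg_of_add_eq_zero_left h1

/-- relation in a contraction -/
theorem exists_b {e : ι} (he : e ∈ G) {a : ι → k}
    (ha : ∑ i ∈ G.erase e, a i • v i ∈ N ⊔ Submodule.span k {v e}) :
    ∃ b : k, ∑ i ∈ G, (if i = e then b else a i) • v i ∈ N := by
  obtain ⟨n, hn, u, hu, hnu⟩ := Submodule.mem_sup.mp ha
  obtain ⟨b, rfl⟩ := Submodule.mem_span_singleton.mp hu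
  refine ⟨-b, ?_⟩
  rw [← Finset.add_sum_erase G _ he, if_pos rfl]
  have : ∑ i ∈ G.erase e, (if i = e then -b else a i) • v i = ∑ i ∈ G.erase e, a i • v i :=
    Finset.sum_congr rfl fun i hi => by rw [if_neg (Finset.ne_of_mem_erase hi)]
  rw [this, ← hnu, neg_smul]
  have e1 : -(b • v e) + (n + b • v e) = n := by abel
  rw [e1]
  exact hn

end Pairs

section Disc

variable {K : Type} [Field K] [Algebra k K] {v : ι → W} {N : Submodule k W} {G : Finset ι}
  {x c : ι → K}

/-- restriction to one side of a separation -/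
theorem IsPair.restrict (h : IsPair v N G x c) {A : Finset ι} (hA : A ⊆ G)
    (hr : rkN v N A + rkN v N (G \ A) ≤ rkN v N G) : IsPair v N A x c := by
  constructor
  · intro a ha
    have h1 := h.hx (fun i => if i ∈ A then a i else 0) (by
      rw [← Finset.sum_subset hA (fun i _ hi => by rw [if_neg hi, zero_smul])]
      convert ha using 1
      exact Finset.sum_congr rfl fun i hi => by rw [if_pos hi])
    rw [← Finset.sum_subset hA (fun i _ hi => by rw [if_neg hi, zero_smul])] at h1
    rw [← h1]
    exact Finset.sum_congr rfl fun i hi => by rw [if_pos hi]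
  · intro l hl
    set SA := N ⊔ Submodule.span k (v '' (A : Set ι)) with hSA
    set SB := N ⊔ Submodule.span k (v '' ((G \ A : Finset ι) : Set ι)) with hSB
    have e1 := rkN_add v N A
    have e2 := rkN_add v N (G \ A)
    have e3 := rkN_add v N G
    have e4 := Submodule.finrank_sup_add_finrank_inf_eq SA SB
    have e5 : SA ⊔ SB = N ⊔ Submodule.span k (v '' (G : Set ι)) := by
      rw [hSA, hSB, sup_sup_sup_comm, sup_idem, ← Submodule.span_union, ← Set.image_union,
        ← Finset.coe_union, Finset.union_sdiff_of_subset hA]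
    have e6 : N = SA ⊓ SB := by
      apply Submodule.eq_of_le_of_finrank_le (le_inf le_sup_left le_sup_left)
      rw [e5] at e4
      change finrank k (SA ⊓ SB : Submodule k W) ≤ finrank k N
      rw [← hSA] at e1
      rw [← hSB] at e2
      omega
    have hl' : l ∈ SA.dualAnnihilator ⊔ SB.dualAnnihilator := by
      rw [← Subspace.dualAnnihilator_inf_eq, ← e6]
      exact (Submodule.mem_dualAnnihilator l).mpr hl
    obtain ⟨lA, hlA, lB, hlB, rfl⟩ := Submodule.mem_sup.mp hl'
    rw [Submodule.mem_dualAnnihilator] at hlA hlB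
    have h1 := h.hc lB (fun w hw => hlB w (Submodule.mem_sup_left hw))
    rw [← Finset.sum_subset hA (fun i hi hi' => by
      rw [hlB (v i) (Submodule.mem_sup_right (Submodule.subset_span
        ⟨i, by simpa using ⟨hi, hi'⟩, rfl⟩)), zero_smul])] at h1
    rw [← h1]
    refine Finset.sum_congr rfl fun i hi => ?_
    rw [LinearMap.add_apply, hlA (v i) (Submodule.mem_sup_right (Submodule.subset_span
        ⟨i, hi, rfl⟩)), zero_add]

/-- disconnected configurations have small dual varieties -/
theorem IsPair.conn (h : IsPair v N G x c)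
    (htr : (G.card : ℕ∞) ≤ tr k ((fun i => c i * x i ^ 2) '' (G : Set ι)) + 1) :
    Conn (rf v N) G := by
  intro A hA hAne hAG
  by_contra hlt
  rw [not_lt] at hlt
  change rkN v N A + rkN v N (G \ A) ≤ rkN v N G at hlt
  have hBne : (G \ A).Nonempty := by
    rw [Finset.sdiff_nonempty]
    intro hh
    exact hAG (Finset.Subset.antisymm hA hh)
  have h1 := (h.restrict hA hlt).tr_y hAne
  have h2 := (h.restrict (A := G \ A) Finset.sdiff_subset (by
    rw [Finset.sdiff_sdiff_eq_self hA]; omega)).tr_y hBne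
  have h3 := trn_union (k := k) (fun i => c i * x i ^ 2) A (G \ A)
  rw [Finset.union_sdiff_of_subset hA] at h3
  rw [← trn_eq] at h1 h2 htr
  have h1' : trn k (fun i => c i * x i ^ 2) A + 1 ≤ A.card := by exact_mod_cast h1
  have h2' : trn k (fun i => c i * x i ^ 2) (G \ A) + 1 ≤ (G \ A).card := by exact_mod_cast h2
  have h4 : G.card ≤ trn k (fun i => c i * x i ^ 2) G + 1 := by exact_mod_cast htr
  have h5 := Finset.card_sdiff_add_card_eq_card hA
  omega

end Disc

section Res

variable (V : Type) [CommRing V] [IsDomain V] [ValuationRing V]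
  {K : Type} [Field K] [Algebra V K] [IsFractionRing V K]
  [Algebra k V] [Algebra k K] [IsScalarTower k V K]
  {v : ι → W} {N : Submodule k W} {G : Finset ι} {x c : ι → K}

theorem IsPair.res_con (h : IsPair v N G x c) (hx : ∀ i ∈ G, x i ∈ OO V K)
    (hc : ∀ i ∈ G, c i ∈ OO V K) {e : ι} (he : e ∈ G) (hxe : res V (x e) = 0) :
    IsPair v (N ⊔ Submodule.span k {v e}) (G.erase e) (fun i => res V (x i))
      (fun i => res V (c i)) := by
  have hG : ∀ i ∈ G.erase e, i ∈ G := fun i hi => Finset.mem_of_mem_erase hi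
  constructor
  · intro a ha
    obtain ⟨b, hb⟩ := exists_b he ha
    have h1 := congrArg (res V) (h.hx _ hb)
    rw [res_sum V _ (fun i hi => smul_mem_OO V _ (hx i hi)), res_zero,
      ← Finset.add_sum_erase G _ he, if_pos rfl, res_smul V _ (hx e he), hxe, smul_zero,
      zero_add] at h1
    rw [← h1]
    refine Finset.sum_congr rfl fun i hi => ?_
    rw [if_neg (Finset.ne_of_mem_erase hi), res_smul V _ (hx i (hG i hi))]
  · intro l hl
    have hlN : ∀ w ∈ N, l w = 0 := fun w hw => hl w (Submodule.mem_sup_left hw)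
    have hle : l (v e) = 0 := hl _ (Submodule.mem_sup_right (Submodule.mem_span_singleton_self _))
    have h1 := congrArg (res V) (h.hc l hlN)
    rw [res_sum V _ (fun i hi => smul_mem_OO V _ (hc i hi)), res_zero,
      ← Finset.add_sum_erase G _ he, hle, zero_smul, res_zero, zero_add] at h1
    rw [← h1]
    refine Finset.sum_congr rfl fun i hi => ?_
    rw [res_smul V _ (hc i (hG i hi))]

theorem IsPair.res_del (h : IsPair v N G x c) (hx : ∀ i ∈ G, x i ∈ OO V K)
    (hc : ∀ i ∈ G, c i ∈ OO V K) {e : ι} (he : e ∈ G) (hce : res V (c e) = 0) :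
    IsPair v N (G.erase e) (fun i => res V (x i)) (fun i => res V (c i)) := by
  have hG : ∀ i ∈ G.erase e, i ∈ G := fun i hi => Finset.mem_of_mem_erase hi
  constructor
  · intro a ha
    have h1 := congrArg (res V) (h.hx (fun i => if i = e then 0 else a i) (by
      rw [← Finset.add_sum_erase G _ he, if_pos rfl, zero_smul, zero_add]
      convert ha using 1
      refine Finset.sum_congr rfl fun i hi => ?_
      rw [if_neg (Finset.ne_of_mem_erase hi)]))
    rw [res_sum V _ (fun i hi => smul_mem_OO V _ (hx i hi)), res_zero,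
      ← Finset.add_sum_erase G _ he, if_pos rfl, zero_smul, res_zero, zero_add] at h1
    rw [← h1]
    refine Finset.sum_congr rfl fun i hi => ?_
    rw [if_neg (Finset.ne_of_mem_erase hi), res_smul V _ (hx i (hG i hi))]
  · intro l hl
    have h1 := congrArg (res V) (h.hc l hl)
    rw [res_sum V _ (fun i hi => smul_mem_OO V _ (hc i hi)), res_zero,
      ← Finset.add_sum_erase G _ he, res_smul V _ (hc e he), hce, smul_zero, zero_add] at h1
    rw [← h1]
    refine Finset.sum_congr rfl fun i hi => ?_
    rw [res_smul V _ (hc i (hG i hi))]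

end Res

end K1H20.RL
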