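import Pool.Agent.K1H20.RL.Shear

set_option linter.unusedSectionVars false

namespace K1H20.RL

open Module IntermediateField

variable {k : Type} [Field k] {K : Type} [Field K] [Algebra k K] {σ : Type}

theorem minp {w : σ → K} {s : K} (hw : AlgebraicIndependent k w)
    {q : Polynomial (MvPolynomial σ k)} (hq : q.Monic) (hirr : Irreducible q)
    (h0 : ev k w s q = 0) :
    (∀ p, ev k w s p = 0 → q ∣ p) ∧
      (adjoin k (Set.range w ∪ {s}) = ⊤ → finrank (adjoin k (Set.range w)) K = q.natDegree) := by
  let E := adjoin k (Set.range w)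
  have hmem : ∀ p : MvPolynomial σ k, MvPolynomial.aeval w p ∈ E := by
    intro p
    apply algebra_adjoin_le_adjoin
    rw [Algebra.adjoin_range_eq_range_aeval]
    exact ⟨p, rfl⟩
  let α : MvPolynomial σ k →ₐ[k] E := MvPolynomial.aeval (fun j => ⟨w j, subset_adjoin k _ ⟨j, rfl⟩⟩)
  have hα : ∀ p, (α p : K) = MvPolynomial.aeval w p := by
    intro p
    have : E.val.comp α = MvPolynomial.aeval w := by
      ext j
      simp [α]
    exact congrArg (fun g => g p) this
  have hαinj : Function.Injective α := by
    intro p p' h
    apply hw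
    rw [← hα, ← hα, h]
  letI : Algebra (MvPolynomial σ k) E := α.toRingHom.toAlgebra
  have hαmap : ∀ p, algebraMap (MvPolynomial σ k) E p = α p := fun p => rfl
  haveI : FaithfulSMul (MvPolynomial σ k) E := (faithfulSMul_iff_algebraMap_injective _ _).mpr hαinj
  haveI : IsFractionRing (MvPolynomial σ k) E := by
    apply IsFractionRing.of_field
    intro z
    have hz := z.2
    rw [mem_adjoin_iff_div] at hz
    obtain ⟨a, ha, b, hb, hab⟩ := hz
    rw [Algebra.adjoin_range_eq_range_aeval] at ha hb
    obtain ⟨p, rfl⟩ := ha
    obtain ⟨p', rfl⟩ := hb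
    refine ⟨p, p', Subtype.ext ?_⟩
    rw [hαmap, hαmap]
    change (z : K) = ((α p / α p' : E) : K)
    rw [IntermediateField.coe_div, hα, hα]
    exact hab
  have hev : ∀ p : Polynomial (MvPolynomial σ k), Polynomial.aeval s (p.map (algebraMap _ E)) =
      ev k w s p := by
    intro p
    rw [Polynomial.aeval_def, Polynomial.eval₂_map]
    unfold ev
    rw [Polynomial.coe_eval₂RingHom]
    congr 1
    apply RingHom.ext
    intro p
    exact hα p
  have hqE : (q.map (algebraMap (MvPolynomial σ k) E)).Monic := hq.map _
  have hirrE : Irreducible (q.map (algebraMap (MvPolynomial σ k) E)) :=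
    (hq.irreducible_iff_irreducible_map_fraction_map).mp hirr
  have hmin : q.map (algebraMap (MvPolynomial σ k) E) = minpoly E s :=
    minpoly.eq_of_irreducible_of_monic hirrE (by rw [hev, h0]) hqE
  have hint : IsIntegral E s := ⟨_, hqE, by
    rw [← Polynomial.aeval_def, hev, h0]⟩
  refine ⟨fun p hp => ?_, fun htop => ?_⟩
  · have h1 : q.map (algebraMap (MvPolynomial σ k) E) ∣ p.map (algebraMap _ E) := by
      rw [hmin]
      exact minpoly.dvd E s (by rw [hev, hp])
    exact (Polynomial.map_dvd_map _ hαinj hq).mp h1
  · have h1 : (adjoin E {s} : IntermediateField E K) = ⊤ := by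
      rw [eq_top_iff]
      intro x _
      have hx : x ∈ adjoin k (Set.range w ∪ {s}) := by rw [htop]; trivial
      have h2 : adjoin k (Set.range w ∪ {s}) ≤
          (adjoin E {s} : IntermediateField E K).restrictScalars k := by
        rw [adjoin_le_iff]
        rintro y (hy | hy)
        · have : y ∈ E := subset_adjoin k _ hy
          exact (adjoin E {s}).algebraMap_mem ⟨y, this⟩
        · rw [Set.mem_singleton_iff] at hy
          subst hy
          exact mem_adjoin_simple_self E y
      exact h2 hx
    have h2 := adjoin.finrank hint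
    rw [h1, ← hmin, hq.natDegree_map, finrank_top'] at h2
    exact h2

end K1H20.RL
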