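import Pool.Agent.K1H20.RL.Exist

set_option linter.unusedSectionVars false
set_option linter.style.haveILetI false
set_option linter.overlappingInstances false

namespace K1H20.RL

open Module IntermediateField IsLocalRing

/-- A valuation ring of `K` over `k`. -/
structure Pl (k K : Type) [Field k] [Field K] [Algebra k K] where
  V : Type
  [cr : CommRing V]
  [dom : IsDomain V]
  [vr : ValuationRing V]
  [algK : Algebra V K]
  [fr : IsFractionRing V K]
  [algk : Algebra k V]
  [tow : IsScalarTower k V K]

attribute [instance] Pl.cr Pl.dom Pl.vr Pl.algK Pl.fr Pl.algk Pl.tow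

section

variable (k S K : Type) [Field k] [CommRing S] [IsDedekindDomain S] [Field K]
  [Algebra S K] [IsFractionRing S K] [Algebra k S] [Algebra k K] [IsScalarTower k S K]
  (q : Ideal S) [hq : q.IsPrime]

theorem units_of_compl (y : q.primeCompl) : IsUnit (algebraMap S K y) := by
  apply IsUnit.mk0
  intro h0
  have : (y : S) = 0 := IsFractionRing.injective S K (by rw [h0, map_zero])
  exact y.2 (by rw [this]; exact zero_mem q)

/-- the fraction field as an algebra over the localization -/
noncomputable abbrev algLoc : Algebra (Localization.AtPrime q) K :=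
  (IsLocalization.lift (M := q.primeCompl) (S := Localization.AtPrime q)
    (units_of_compl S K q)).toAlgebra

theorem towerLoc : letI := algLoc S K q; IsScalarTower S (Localization.AtPrime q) K := by
  letI := algLoc S K q
  exact IsScalarTower.of_algebraMap_eq (fun x => (IsLocalization.lift_eq _ x).symm)

theorem fracLoc : letI := algLoc S K q; IsFractionRing (Localization.AtPrime q) K := by
  letI := algLoc S K q
  haveI := towerLoc S K q
  exact IsFractionRing.isFractionRing_of_isDomain_of_isLocalization q.primeCompl _ _

theorem towLoc : letI := algLoc S K q; IsScalarTower k (Localization.AtPrime q) K := by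
  letI := algLoc S K q
  haveI := towerLoc S K q
  refine IsScalarTower.of_algebraMap_eq (fun x => ?_)
  rw [IsScalarTower.algebraMap_apply k S K, IsScalarTower.algebraMap_apply k S (Localization.AtPrime q),
    ← IsScalarTower.algebraMap_apply S (Localization.AtPrime q) K]

theorem vrLoc (h0 : q ≠ ⊥) : ValuationRing (Localization.AtPrime q) := by
  haveI := IsLocalization.AtPrime.isDiscreteValuationRing_of_dedekind_domain S h0
    (Localization.AtPrime q)
  infer_instance

/-- the place of a prime -/
noncomputable def plOf (h0 : q ≠ ⊥) : Pl k K :=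
  { V := Localization.AtPrime q
    vr := vrLoc S q h0
    algK := algLoc S K q
    fr := fracLoc S K q
    tow := towLoc k S K q }

section Unb

variable [Algebra (Localization.AtPrime q) K] [IsScalarTower S (Localization.AtPrime q) K]
  [IsFractionRing (Localization.AtPrime q) K] [ValuationRing (Localization.AtPrime q)]
  [IsScalarTower k (Localization.AtPrime q) K]

theorem lo_alg (s : S) : algebraMap (Localization.AtPrime q) K (algebraMap S (Localization.AtPrime q) s) = algebraMap S K s :=
  (IsScalarTower.algebraMap_apply S (Localization.AtPrime q) K s).symm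

theorem lo_mem (s : S) : algebraMap S K s ∈ OO (Localization.AtPrime q) K :=
  ⟨algebraMap S (Localization.AtPrime q) s, lo_alg S K q s⟩

theorem lo_res (s : S) : res (Localization.AtPrime q) (algebraMap S K s) = 0 ↔ s ∈ q := by
  rw [← lo_alg S K q s, res_map, residue_eq_zero_iff]
  exact IsLocalization.AtPrime.to_map_mem_maximal_iff (Localization.AtPrime q) q s

theorem lo_frac {u : K} (hu : u ∈ OO (Localization.AtPrime q) K) :
    ∃ s s' : S, s' ∉ q ∧ u * algebraMap S K s' = algebraMap S K s := by
  obtain ⟨a, rfl⟩ := hu
  obtain ⟨s, s', rfl⟩ := IsLocalization.exists_mk'_eq q.primeCompl a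
  refine ⟨s, s', s'.2, ?_⟩
  rw [← lo_alg S K q s', ← map_mul, ← lo_alg S K q s]
  congr 1
  exact IsLocalization.mk'_spec _ _ _

theorem lo_ram (h0 : q ≠ ⊥) {R : Type} [CommRing R] [Algebra R S] [Algebra R K]
    [IsScalarTower R S K] (p : Ideal R) [q.LiesOver p] {t : R} {ϖ : (Localization.AtPrime q)} {n : ℕ}
    {u : ((Localization.AtPrime q))ˣ} (ht : p = Ideal.span {t})
    (hϖ : maximalIdeal (Localization.AtPrime q) = Ideal.span {ϖ})
    (h : algebraMap R K t = algebraMap (Localization.AtPrime q) K (ϖ ^ n * u)) :
    q.ramificationIdx R = n := by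
  have hD := IsLocalization.AtPrime.isDiscreteValuationRing_of_dedekind_domain S h0 (Localization.AtPrime q)
  have h1 : algebraMap R (Localization.AtPrime q) t = ϖ ^ n * u := by
    apply IsFractionRing.injective (Localization.AtPrime q) K
    rw [← h, IsScalarTower.algebraMap_apply R S (Localization.AtPrime q), lo_alg S K q,
      ← IsScalarTower.algebraMap_apply R S K]
  rw [Ideal.ramificationIdx_eq p q]
  have h2 : p.map (algebraMap R (Localization.AtPrime q)) = (maximalIdeal (Localization.AtPrime q)) ^ n := by
    rw [ht, Ideal.map_span, Set.image_singleton, h1, hϖ, Ideal.span_singleton_pow]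
    exact Ideal.span_singleton_mul_right_unit u.isUnit _
  rw [h2, hD.length_quotient_pow_maximalIdeal, ENat.toNat_natCast]

theorem lo_inertia {R : Type} [CommRing R] [Algebra R S] [Algebra R K]
    [IsScalarTower R S K] (p : Ideal R) [p.IsMaximal] [q.IsMaximal] [q.LiesOver p]
    (M : IntermediateField k (ResidueField (Localization.AtPrime q)))
    (hM : ∀ z, z ∈ M ↔ ∃ r : R, res (Localization.AtPrime q) (algebraMap R K r) = z) :
    q.inertiaDeg R = finrank M (ResidueField (Localization.AtPrime q)) := by
  rw [Ideal.inertiaDeg_eq_of_isMaximal p q]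
  letI : Field (R ⧸ p) := Ideal.Quotient.field p
  letI : Field (S ⧸ q) := Ideal.Quotient.field q
  let j : (S ⧸ q) ≃+* ResidueField (Localization.AtPrime q) :=
    RingEquiv.ofBijective (algebraMap (S ⧸ q) q.ResidueField)
      (q.bijective_algebraMap_quotient_residueField)
  have hj : ∀ r : R, j (algebraMap (R ⧸ p) (S ⧸ q) (Ideal.Quotient.mk p r)) =
      res (Localization.AtPrime q) (algebraMap R K r) := by
    intro r
    rw [IsScalarTower.algebraMap_apply R S K, ← lo_alg S K q, res_map]
    rfl
  have hmem : ∀ z : R ⧸ p, j (algebraMap (R ⧸ p) (S ⧸ q) z) ∈ M := by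
    intro z
    obtain ⟨r, rfl⟩ := Ideal.Quotient.mk_surjective z
    exact (hM _).mpr ⟨r, (hj r).symm⟩
  let i0 : (R ⧸ p) →+* M := (j.toRingHom.comp (algebraMap (R ⧸ p) (S ⧸ q))).codRestrict M hmem
  have hi0 : Function.Bijective i0 := by
    refine ⟨i0.injective, ?_⟩
    rintro ⟨z, hz⟩
    obtain ⟨r, hr⟩ := (hM z).mp hz
    exact ⟨Ideal.Quotient.mk p r, Subtype.ext ((hj r).trans hr)⟩
  refine Algebra.finrank_eq_of_equiv_equiv (RingEquiv.ofBijective i0 hi0) j ?_
  rfl

end Unb

end

end K1H20.RL
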