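import Pool.Agent.K1H20.RL.Rec
import Pool.Agent.K1H20.RL.Exg

set_option linter.unusedSectionVars false
set_option linter.style.haveILetI false

namespace K1H20.RL

open Module IntermediateField IsLocalRing Pool.Agent.Helper766.Rad

section Poly

variable {k : Type} [Field k] {σ : Type} [Fintype σ] [DecidableEq σ]

/-- a polynomial vanishing on a coordinate hyperplane is divisible by the variable -/
theorem X_dvd_of_vanish [Infinite k] (e : σ) (p : MvPolynomial σ k)
    (h : ∀ b : σ → k, b e = 0 → MvPolynomial.eval b p = 0) : MvPolynomial.X e ∣ p := by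
  rw [MvPolynomial.X_dvd_iff_modMonomial_eq_zero]
  set r := p.modMonomial (Finsupp.single e 1) with hr
  have h1 : ∀ m ∈ r.support, m e = 0 := by
    intro m hm
    by_contra hne
    have hle : Finsupp.single e 1 ≤ m := by
      rw [Finsupp.single_le_iff]; omega
    rw [MvPolynomial.mem_support_iff, hr, MvPolynomial.coeff_modMonomial_of_le _ hle] at hm
    exact hm rfl
  have h2 : ∀ b : σ → k, MvPolynomial.eval b r = MvPolynomial.eval (Function.update b e 0) r := by
    intro b
    rw [MvPolynomial.eval_eq', MvPolynomial.eval_eq']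
    refine Finset.sum_congr rfl fun m hm => ?_
    congr 1
    refine Finset.prod_congr rfl fun i _ => ?_
    by_cases hi : i = e
    · subst hi; rw [h1 m hm, pow_zero, pow_zero]
    · rw [Function.update_of_ne hi]
  have h3 : ∀ b : σ → k, MvPolynomial.eval b r = 0 := by
    intro b
    rw [h2 b]
    have h4 := MvPolynomial.divMonomial_add_modMonomial_single p e
    have h5 := congrArg (MvPolynomial.eval (Function.update b e 0)) h4
    rw [map_add, map_mul, MvPolynomial.eval_X, Function.update_self, zero_mul, zero_add] at h5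
    rw [hr, h5]
    exact h _ (Function.update_self _ _ _)
  exact MvPolynomial.funext (fun b => by rw [h3 b, map_zero])

end Poly

variable {k : Type} [Field k] {W : Type} [AddCommGroup W] [Module k W] [FiniteDimensional k W]
  {ι : Type} [DecidableEq ι] {v : ι → W} {f : ι} {N : Submodule k W} {G : Finset ι}
  {K : Type} [Field K] [Algebra k K] {x c : ι → K}

/-- setting a variable to zero -/
noncomputable def rho (e : ι) (G : Finset ι) :
    MvPolynomial G k →ₐ[k] MvPolynomial ((G.erase e : Finset ι) : Type) k :=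
  MvPolynomial.aeval (fun i : G => if h : i.1 = e then 0 else
    MvPolynomial.X ⟨i.1, Finset.mem_erase.mpr ⟨h, i.2⟩⟩)

/-- extension by zero -/
def ext0 (e : ι) (G : Finset ι) (b : ((G.erase e : Finset ι) : Type) → k) : G → k :=
  fun i => if h : i.1 = e then 0 else b ⟨i.1, Finset.mem_erase.mpr ⟨h, i.2⟩⟩

theorem eval_rho (e : ι) (G : Finset ι) (b : ((G.erase e : Finset ι) : Type) → k)
    (p : MvPolynomial G k) :
    MvPolynomial.eval b (rho e G p) = MvPolynomial.eval (ext0 e G b) p := by
  have h : (MvPolynomial.aeval b).comp (rho (k := k) e G) =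
      MvPolynomial.aeval (ext0 e G b) := by
    apply MvPolynomial.algHom_ext
    intro i
    simp only [rho, ext0, AlgHom.comp_apply, MvPolynomial.aeval_X]
    split_ifs with h
    · exact map_zero _
    · exact MvPolynomial.aeval_X _ _
  exact DFunLike.congr_fun h p

theorem rst_ext0 (e : ι) (G : Finset ι) (b : ((G.erase e : Finset ι) : Type) → k) :
    rst e (ext0 e G b) = b := by
  funext i
  simp only [rst, ext0]
  rw [dif_neg (Finset.ne_of_mem_erase i.2)]

theorem ext0_rst (e : ι) (G : Finset ι) (a : G → k) (ha : ∀ he : e ∈ G, a ⟨e, he⟩ = 0) :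
    ext0 e G (rst e a) = a := by
  funext i
  simp only [rst, ext0]
  split_ifs with h
  · obtain ⟨i, hi⟩ := i
    subst h
    exact (ha hi).symm
  · rfl

theorem exists_pt [Infinite k] {Δ : MvPolynomial G k} {D : ℕ} (hD : Δ.IsHomogeneous D)
    (hirr : Irreducible Δ) {y : G → K} (hy : MvPolynomial.aeval y Δ = 0) {e : ι} (he : e ∈ G)
    (hye : y ⟨e, he⟩ ≠ 0) (hf : f ∈ G.erase e)
    {Δ1 Δ2 : MvPolynomial ((G.erase e : Finset ι) : Type) k} {D1 D2 : ℕ}
    (h1 : Δ1.IsHomogeneous D1) (h1' : Δ1 ≠ 0) (h2 : Δ2.IsHomogeneous D2) (h2' : Δ2 ≠ 0) :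
    ∃ a : G → k, a ⟨f, Finset.mem_of_mem_erase hf⟩ = 1 ∧ a ⟨e, he⟩ = 0 ∧
      MvPolynomial.eval a Δ ≠ 0 ∧ MvPolynomial.eval (rst e a) Δ1 ≠ 0 ∧
      MvPolynomial.eval (rst e a) Δ2 ≠ 0 := by
  have h0 : rho e G Δ ≠ 0 := by
    intro h0
    have h3 : MvPolynomial.X ⟨e, he⟩ ∣ Δ := by
      apply X_dvd_of_vanish
      intro b hb
      rw [← ext0_rst e G b (fun _ => hb), ← eval_rho, h0, map_zero]
    obtain ⟨q, hq⟩ := h3
    have hX : ¬ IsUnit (MvPolynomial.X (⟨e, he⟩ : G) : MvPolynomial G k) := by
      intro hu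
      have := hu.map (MvPolynomial.eval (0 : G → k))
      rw [MvPolynomial.eval_X] at this
      exact not_isUnit_zero this
    have hqu : IsUnit q := (hirr.isUnit_or_isUnit hq).resolve_left hX
    rw [hq, map_mul, MvPolynomial.aeval_X] at hy
    rcases mul_eq_zero.mp hy with h | h
    · exact hye h
    · have := hqu.map (MvPolynomial.aeval (R := k) y)
      rw [h] at this
      exact not_isUnit_zero this
  have hprod : rho e G Δ * (Δ1 * (Δ2 * MvPolynomial.X ⟨f, hf⟩)) ≠ 0 :=
    mul_ne_zero h0 (mul_ne_zero h1' (mul_ne_zero h2' (MvPolynomial.X_ne_zero _)))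
  obtain ⟨b, hb⟩ : ∃ b : ((G.erase e : Finset ι) : Type) → k,
      MvPolynomial.eval b (rho e G Δ * (Δ1 * (Δ2 * MvPolynomial.X ⟨f, hf⟩))) ≠ 0 := by
    by_contra hcon
    push Not at hcon
    exact hprod (MvPolynomial.funext (fun x => by rw [hcon x, map_zero]))
  simp only [map_mul, MvPolynomial.eval_X] at hb
  have b0 := left_ne_zero_of_mul hb
  have hb' := right_ne_zero_of_mul hb
  have b1 := left_ne_zero_of_mul hb'
  have hb'' := right_ne_zero_of_mul hb'
  have b2 := left_ne_zero_of_mul hb''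
  have b3 := right_ne_zero_of_mul hb''
  rw [eval_rho] at b0
  set t := (b ⟨f, hf⟩)⁻¹ with ht
  have ht0 : t ≠ 0 := inv_ne_zero b3
  have hfe : f ≠ e := Finset.ne_of_mem_erase hf
  have hsc : ∀ {τ : Type} [Fintype τ] [DecidableEq τ] {n : ℕ} {p : MvPolynomial τ k} (hp : p.IsHomogeneous n) (s : τ → k),
      MvPolynomial.eval s p ≠ 0 → MvPolynomial.eval (fun i => t * s i) p ≠ 0 := by
    intro τ _ _ n p hp s hs
    have h3 : MvPolynomial.eval (fun i => t * s i) p = t ^ n * MvPolynomial.eval s p :=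
      aeval_scale hp t s
    rw [h3]
    exact mul_ne_zero (pow_ne_zero _ ht0) hs
  have hr : rst e (fun i : G => t * ext0 e G b i) = fun i => t * b i := by
    funext i
    have := congrFun (rst_ext0 e G b) i
    simp only [rst] at this ⊢
    rw [this]
  refine ⟨fun i => t * ext0 e G b i, ?_, ?_, hsc hD _ b0, ?_, ?_⟩
  · simp only [ext0]
    rw [dif_neg hfe, ht]
    exact inv_mul_cancel₀ b3
  · simp only [ext0, dif_pos, mul_zero]
  · rw [hr]; exact hsc h1 _ b1
  · rw [hr]; exact hsc h2 _ b2

end K1H20.RL
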