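import Pool.Agent.K1H20.RL.Val2

set_option linter.unusedSectionVars false
set_option linter.style.haveILetI false

namespace K1H20.RL

open Module IntermediateField IsLocalRing Pool.Agent.Helper766.Rad

variable {k : Type} [Field k] {W : Type} [AddCommGroup W] [Module k W] [FiniteDimensional k W]
  {ι : Type} [DecidableEq ι] {v : ι → W} {f : ι} {N : Submodule k W} {G : Finset ι}
  {K : Type} [Field K] [Algebra k K] {x c : ι → K}

/-- index map -/
def psi {G : Finset ι} {f e : ι} (hf : f ∈ G) (he : e ∈ G) (hef : e ≠ f) (hf' : f ∈ G.erase e) :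
    {j : Ex (⟨f, hf⟩ : G) // j ≠ ⟨⟨e, he⟩, fun h => hef (congrArg Subtype.val h)⟩} →
      Ex (⟨f, hf'⟩ : (G.erase e : Finset ι)) :=
  fun j => ⟨⟨j.1.1.1, Finset.mem_erase.mpr ⟨fun h => j.2 (Subtype.ext (Subtype.ext h)),
    j.1.1.2⟩⟩, fun h => j.1.2 (Subtype.ext (Subtype.mk.inj h))⟩

theorem psi_injective {G : Finset ι} {f e : ι} (hf : f ∈ G) (he : e ∈ G) (hef : e ≠ f)
    (hf' : f ∈ G.erase e) : Function.Injective (psi hf he hef hf') := by
  intro j j' h
  have h1 : j.1.1.1 = j'.1.1.1 := congrArg (fun a => a.1.1) h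
  exact Subtype.ext (Subtype.ext (Subtype.ext h1))

theorem psi_surjective {G : Finset ι} {f e : ι} (hf : f ∈ G) (he : e ∈ G) (hef : e ≠ f)
    (hf' : f ∈ G.erase e) : Function.Surjective (psi hf he hef hf') := by
  intro j
  refine ⟨⟨⟨⟨j.1.1, Finset.mem_of_mem_erase j.1.2⟩, fun h => j.2 (Subtype.ext
    (Subtype.mk.inj h))⟩, fun h => Finset.ne_of_mem_erase j.1.2 ?_⟩, ?_⟩
  · exact congrArg (fun a => a.1.1) h
  · rfl

/-- the point in the coordinate hyperplane -/
def rst {G : Finset ι} (e : ι) (a : G → k) : ((G.erase e : Finset ι) : Type) → k :=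
  fun i => a ⟨i.1, Finset.mem_of_mem_erase i.2⟩

theorem res_ww (V : Type) [CommRing V] [IsDomain V] [ValuationRing V] [Algebra V K]
    [IsFractionRing V K] [Algebra k V] [IsScalarTower k V K]
    (hx : ∀ i ∈ G, x i ∈ OO V K) (hc : ∀ i ∈ G, c i ∈ OO V K)
    {e : ι} (hf : f ∈ G) (he : e ∈ G) (hef : e ≠ f) (hf' : f ∈ G.erase e) (a : G → k) :
    (fun j : {j : Ex (⟨f, hf⟩ : G) // j ≠ ⟨⟨e, he⟩, fun h => hef (congrArg Subtype.val h)⟩} =>
      res V (ww ⟨f, hf⟩ a (yy G x c) j)) =
    (ww ⟨f, hf'⟩ (rst e a) (yy (G.erase e) (fun i => res V (x i)) (fun i => res V (c i)))) ∘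
      (psi hf he hef hf') := by
  funext j
  have h1 := res_yy V hx hc j.1.1.1 j.1.1.2
  have h2 := res_yy V hx hc f hf
  simp only [Function.comp_apply, ww, yy, psi, rst]
  rw [sub_eq_add_neg, res_add V h1.1 (neg_mem (mul_mem (algebraMap_mem_OO V _) h2.1)), h1.2,
    ← neg_mul, ← map_neg, res_mul V (algebraMap_mem_OO V _) h2.1, h2.2, res_algebraMap, map_neg,
    neg_mul, ← sub_eq_add_neg]

open Classical in
theorem recursion [CharZero k] {Δ : MvPolynomial G k} {D : ℕ}
    (h : IsGen v N G f x c) (htop : adjoin k (x '' (G : Set ι) ∪ c '' (G : Set ι)) = ⊤)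
    (hconn : Conn (rf v N) G) (h3 : 3 ≤ G.card)
    {e : ι} (he : e ∈ G) (hef : e ≠ f) (hΔ : IsDisc v N G f Δ D)
    {Δ1 : MvPolynomial ((G.erase e : Finset ι) : Type) k} {D1 : ℕ}
    (hΔ1 : Conn (rf v N) (G.erase e) → IsDisc v N (G.erase e) f Δ1 D1)
    {Δ2 : MvPolynomial ((G.erase e : Finset ι) : Type) k} {D2 : ℕ}
    (hΔ2 : Conn (rf v (N ⊔ Submodule.span k {v e})) (G.erase e) →
      IsDisc v (N ⊔ Submodule.span k {v e}) (G.erase e) f Δ2 D2)
    (a : G → k) (ha : a ⟨f, h.hf⟩ = 1) (hae : a ⟨e, he⟩ = 0) (hΔa : MvPolynomial.eval a Δ ≠ 0)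
    (hΔ1a : Conn (rf v N) (G.erase e) → MvPolynomial.eval (rst e a) Δ1 ≠ 0)
    (hΔ2a : Conn (rf v (N ⊔ Submodule.span k {v e})) (G.erase e) →
      MvPolynomial.eval (rst e a) Δ2 ≠ 0) :
    D = (if Conn (rf v N) (G.erase e) then 1 * D1 else 0) +
      (if Conn (rf v (N ⊔ Submodule.span k {v e})) (G.erase e) then 2 * D2 else 0) := by
  have h2 : 2 ≤ G.card := by omega
  have hf := h.hf
  have hf' : f ∈ G.erase e := Finset.mem_erase.mpr ⟨hef.symm, hf⟩
  have hG : ∀ i ∈ G.erase e, i ∈ G := fun i hi => Finset.mem_of_mem_erase hi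
  have hcardG := Finset.card_erase_add_one he
  have hG'2 : 2 ≤ (G.erase e).card := by omega
  have hve : v e ∉ N := Conn.not_mem hconn h2 he
  obtain ⟨al, hal⟩ := Conn.comb hconn h2 he
  obtain ⟨l, hl, hle⟩ := exists_dual hve
  have hxne : ∀ i ∈ G, x i ≠ 0 := fun i hi => h.x_ne hi (Conn.not_mem hconn h2 hi)
  have hxe := hxne e he
  have hce := h.c_ne he hal
  have htrY := trY G.card N G rfl hconn K x c h
  have hbir := h.birational hΔ htrY hxne
  have hΔy : MvPolynomial.aeval (yy G x c) Δ = 0 := (hΔ.ker K x c h Δ).mpr dvd_rfl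
  obtain ⟨hwai, hwfin⟩ := degree_proj (f := (⟨f, hf⟩ : G)) (a := a) hΔ.hom hΔ.irr (hΔ.ker K x c h)
    ha hΔa
  have hDpos := pos_degree hΔ.hom hΔ.irr
  have hwfin' := hwfin (hbir.trans htop)
  set w := ww (⟨f, hf⟩ : G) a (yy G x c) with hw
  let j0 : Ex (⟨f, hf⟩ : G) := ⟨⟨e, he⟩, fun h => hef (congrArg Subtype.val h)⟩
  have hwj0 : w j0 = c e * x e ^ 2 := by
    simp only [hw, ww, j0, yy, hae, map_zero, zero_mul, sub_zero]
  obtain ⟨Q, hQ, P, ee, fd, hsum, hint, ht0, hai, heram, hfd, hinj, hex⟩ :=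
    sum_w hwai j0 hDpos hwfin'
  -- integrality
  have hwO : ∀ q j, w j ∈ OO (P q).V K := by
    intro q j
    refine hint q _ ⟨Polynomial.X - Polynomial.C (MvPolynomial.X j), Polynomial.monic_X_sub_C _, ?_⟩
    rw [map_sub, ev_X, ev_C, MvPolynomial.aeval_X, sub_self]
  have hyf : ∀ q, c f * x f ^ 2 ∈ OO (P q).V K := by
    intro q
    exact hint q _ ⟨mq (⟨f, hf⟩ : G) a Δ, (mq_spec hΔ.hom ha hΔa).1, mq_ev hΔy⟩
  have hyO : ∀ q, ∀ i ∈ G, c i * x i ^ 2 ∈ OO (P q).V K := by
    intro q i hi
    by_cases hif : i = f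
    · rw [hif]; exact hyf q
    · have h4 := hwO q ⟨⟨i, hi⟩, fun h => hif (congrArg Subtype.val h)⟩
      have h5 : c i * x i ^ 2 = w ⟨⟨i, hi⟩, fun h => hif (congrArg Subtype.val h)⟩ +
          algebraMap k K (a ⟨i, hi⟩) * (c f * x f ^ 2) := by
        simp only [hw, ww, yy]; ring
      rw [h5]
      exact add_mem h4 (mul_mem (algebraMap_mem_OO _ _) (hyf q))
  have hye : ∀ q, res (P q).V (c e * x e ^ 2) = 0 := fun q => by rw [← hwj0]; exact ht0 q
  -- transcendence degree of the residues
  have htr : ∀ q, ((G.erase e).card : ℕ∞) ≤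
      tr k ((fun i => res (P q).V (c i * x i ^ 2)) '' ((G.erase e : Finset ι) : Set ι)) + 1 := by
    intro q
    have h4 := tr_range_of_algInd (hai q)
    have h5 : tr k (Set.range (fun j : {j // j ≠ j0} => res (P q).V (w j))) ≤
        tr k ((fun i => res (P q).V (c i * x i ^ 2)) '' ((G.erase e : Finset ι) : Set ι)) := by
      apply tr_le_of_subset
      rintro _ ⟨j, rfl⟩
      have h6 : ∀ i ∈ G.erase e, res (P q).V (c i * x i ^ 2) ∈ adjoin k
          ((fun i => res (P q).V (c i * x i ^ 2)) '' ((G.erase e : Finset ι) : Set ι)) :=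
        fun i hi => subset_adjoin k _ ⟨i, hi, rfl⟩
      have hji : j.1.1.1 ∈ G.erase e := Finset.mem_erase.mpr
        ⟨fun h => j.2 (Subtype.ext (Subtype.ext h)), j.1.1.2⟩
      have h7 : w j.1 = c j.1.1.1 * x j.1.1.1 ^ 2 +
          algebraMap k K (- a j.1.1) * (c f * x f ^ 2) := by
        simp only [hw, ww, yy, map_neg]; ring
      change res (P q).V (w j.1) ∈ _
      rw [h7, res_add _ (hyO q _ j.1.1.2) (mul_mem (algebraMap_mem_OO _ _) (hyf q)),
        res_mul _ (algebraMap_mem_OO _ _) (hyf q), res_algebraMap]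
      exact add_mem (h6 _ hji) (mul_mem (IntermediateField.algebraMap_mem _ _) (h6 f hf'))
    have h8 : Fintype.card {j : Ex (⟨f, hf⟩ : G) // j ≠ j0} + 1 = (G.erase e).card := by
      have e1 := Fintype.card_congr (Equiv.ofBijective (psi hf he hef hf')
        ⟨psi_injective hf he hef hf', psi_surjective hf he hef hf'⟩)
      have e2 := Fintype.card_subtype_compl
        (fun i : (G.erase e : Finset ι) => i = (⟨f, hf'⟩ : (G.erase e : Finset ι)))
      simp only [Fintype.card_subtype_eq, Fintype.card_coe] at e2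
      have e3 : Fintype.card {j : Ex (⟨f, hf⟩ : G) // j ≠ j0} =
        Fintype.card (Ex (⟨f, hf'⟩ : (G.erase e : Finset ι))) := e1
      rw [e3]
      have e4 : Fintype.card (Ex (⟨f, hf'⟩ : (G.erase e : Finset ι))) = (G.erase e).card - 1 := e2
      omega
    rw [← h8, Nat.cast_add, Nat.cast_one]
    refine add_le_add_left ?_ 1
    rw [← h4]; exact h5
  -- units
  have hunits : ∀ q, ∀ i ∈ G.erase e, (x i ∈ OO (P q).V K ∧ res (P q).V (x i) ≠ 0) ∧
      (c i ∈ OO (P q).V K ∧ res (P q).V (c i) ≠ 0) := by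
    intro q
    refine all_units (P q).V h.toIsPair (hyO q) hf' h.hxf (hye q) hG'2 ?_
    have h4 := htr q
    rw [← trn_eq] at h4
    exact_mod_cast h4
  have hxO : ∀ q, ∀ i ∈ G, x i ∈ OO (P q).V K := by
    intro q i hi
    by_cases hie : i = e
    · rw [hie, h.toIsPair.x_eq he hal]
      exact sum_mem fun i hi => smul_mem_OO _ _ (hunits q i hi).1.1
    · exact (hunits q i (Finset.mem_erase.mpr ⟨hie, hi⟩)).1.1
  have hcO : ∀ q, ∀ i ∈ G, c i ∈ OO (P q).V K := by
    intro q i hi
    by_cases hie : i = e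
    · rw [hie, h.toIsPair.c_eq he hl hle]
      exact neg_mem (sum_mem fun i hi => smul_mem_OO _ _ (hunits q i hi).2.1)
    · exact (hunits q i (Finset.mem_erase.mpr ⟨hie, hi⟩)).2.1
  have hone : ∀ q, res (P q).V (c e) = 0 ∨ res (P q).V (x e) = 0 := by
    intro q
    have h4 := hye q
    rw [(res_yy _ (hxO q) (hcO q) e he).2] at h4
    rcases mul_eq_zero.mp h4 with h5 | h5
    · exact Or.inl h5
    · exact Or.inr (pow_eq_zero_iff (two_ne_zero) |>.mp h5)
  have hyres : ∀ q, (fun i => res (P q).V (c i * x i ^ 2)) '' ((G.erase e : Finset ι) : Set ι) =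
      Set.range (yy (G.erase e) (fun i => res (P q).V (x i)) (fun i => res (P q).V (c i))) := by
    intro q
    rw [range_yy]
    exact Set.image_congr fun i hi => (res_yy _ (hxO q) (hcO q) i (hG i hi)).2
  have htr2 : ∀ q, ((G.erase e).card : ℕ∞) ≤
      tr k ((fun i => res (P q).V (x i)) '' ((G.erase e : Finset ι) : Set ι) ∪
        (fun i => res (P q).V (c i)) '' ((G.erase e : Finset ι) : Set ι)) + 1 := by
    intro q
    refine (htr q).trans (add_le_add_left ?_ 1)
    rw [hyres q]
    apply tr_le_of_subset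
    rintro _ ⟨i, rfl⟩
    exact yy_mem (G.erase e) _ _ i
  have hnotboth : ∀ q, ¬ (res (P q).V (c e) = 0 ∧ res (P q).V (x e) = 0) := by
    rintro q ⟨hc0, hx0⟩
    have p1 := (h.toIsPair.res_con (P q).V (hxO q) (hcO q) he hx0).finrank_x
    have p2 := (h.toIsPair.res_del (P q).V (hxO q) (hcO q) he hc0).finrank_c
    have p3 := tr_add_one_le (k := k) (G.erase e) (x := fun i => res (P q).V (x i))
      (c := fun i => res (P q).V (c i)) hf' (by rw [h.hxf, res_one])
    have p4 : rkN v N (G.erase e) = rkN v N G := (hconn.nl h2 he).2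
    have p5 : rkN v (N ⊔ Submodule.span k {v e}) (G.erase e) + 1 = rkN v N G := by
      have e1 := con_r (rf v N) (hconn.nl h2 he).1 (G.erase e)
      rw [con_rf, Finset.insert_erase he] at e1
      exact e1
    have p6 := (htr2 q).trans p3
    have p7 : (G.erase e).card ≤
      finrank k (Submodule.span k ((fun i => res (P q).V (x i)) '' ((G.erase e : Finset ι) : Set ι)))
      + finrank k (Submodule.span k
        ((fun i => res (P q).V (c i)) '' ((G.erase e : Finset ι) : Set ι))) := by
      exact_mod_cast p6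
    omega
  -- the key computation
  have key : ∀ (π ρ : K) (N'' : Submodule k W) (n : ℕ) (Δ'' : MvPolynomial ((G.erase e : Finset ι) : Type) k)
      (D'' : ℕ), π ≠ 0 → c e * x e ^ 2 = π ^ n * ρ →
      (∀ q, π ∈ OO (P q).V K) → (∀ q, ρ ∈ OO (P q).V K) →
      (∀ q, res (P q).V π = 0 → res (P q).V ρ ≠ 0) →
      (∀ (V : Type) [CommRing V] [IsDomain V] [ValuationRing V] [Algebra V K]
        [IsFractionRing V K] [Algebra k V] [IsScalarTower k V K],
        (∀ i ∈ G, x i ∈ OO V K) → (∀ i ∈ G, c i ∈ OO V K) → res V π = 0 →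
        IsPair v N'' (G.erase e) (fun i => res V (x i)) (fun i => res V (c i))) →
      (Conn (rf v N'') (G.erase e) → ∃ (σ : Type) (_ : Fintype σ) (z : σ → K), Adap k G x c σ z π) →
      (∀ (V : Type) [CommRing V] [IsDomain V] [ValuationRing V] [Algebra V K]
        [IsFractionRing V K] [Algebra k V] [IsScalarTower k V K],
        (∀ i ∈ G, x i ∈ OO V K) → (∀ i ∈ G, c i ∈ OO V K) → res V π = 0 →
        res V (c e * x e ^ 2) = 0) →
      (Conn (rf v N'') (G.erase e) → IsDisc v N'' (G.erase e) f Δ'' D'') →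
      (Conn (rf v N'') (G.erase e) → MvPolynomial.eval (rst e a) Δ'' ≠ 0) →
      ∑ q ∈ Finset.univ.filter (fun q => res (P q).V π = 0), ee q * fd q =
        if Conn (rf v N'') (G.erase e) then n * D'' else 0 := by
    intro π ρ N'' n Δ'' D'' hπ hπρ hπO hρO hρres hpair hadap hyπ hdisc hdisca
    have hconnq : ∀ q, res (P q).V π = 0 → Conn (rf v N'') (G.erase e) := by
      intro q hq
      refine (hpair (P q).V (hxO q) (hcO q) hq).conn ?_
      rw [← range_yy, ← hyres q]
      exact htr q
    by_cases hc'' : Conn (rf v N'') (G.erase e)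
    · rw [if_pos hc'']
      obtain ⟨σ, hσ, z, hA⟩ := hadap hc''
      have hD'' := hdisc hc''
      -- value
      have hval : ∀ q, res (P q).V π = 0 → ee q * fd q = n * D'' := by
        intro q hq
        obtain ⟨⟨ϖ, hϖ, hmax⟩, htopk, -⟩ := adap_place (P q).V hA h.toIsPair hconn h2 htop
          (hxO q) (hcO q) (hπO q) hq hπ he (htr q)
        have hgen : IsGen v N'' (G.erase e) f (fun i => res (P q).V (x i))
            (fun i => res (P q).V (c i)) :=
          { toIsPair := hpair (P q).V (hxO q) (hcO q) hq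
            hf := hf'
            hxf := by rw [h.hxf, res_one]
            htr := htr2 q }
        have e1 : ee q = n := by
          obtain ⟨r, hr⟩ := hρO q
          have hru : IsUnit r := by
            rw [← residue_ne_zero_iff_isUnit, ← res_map (P q).V (K := K), hr]
            exact hρres q hq
          obtain ⟨r, rfl⟩ := hru
          refine heram q ϖ n r hmax ?_
          rw [hwj0, hπρ, map_mul, map_pow, hϖ, hr]
        have hb := hgen.birational hD'' (by rw [← hyres q]; exact htr q)
          (fun i hi => (hunits q i hi).1.2)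
        have hdp := degree_proj (f := (⟨f, hf'⟩ : (G.erase e : Finset ι))) (a := rst e a)
          hD''.hom hD''.irr (hD''.ker _ _ _ hgen) (by exact ha) (hdisca hc'')
        have e2 : fd q = D'' := by
          rw [hfd q, ← hdp.2 (hb.trans htopk)]
          have hS : Set.range (fun j : {j // j ≠ j0} => res (P q).V (w j)) =
              Set.range (ww (⟨f, hf'⟩ : (G.erase e : Finset ι)) (rst e a)
                (yy (G.erase e) (fun i => res (P q).V (x i)) (fun i => res (P q).V (c i)))) := by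
            have := res_ww (P q).V (hxO q) (hcO q) hf he hef hf' a
            rw [show (fun j : {j // j ≠ j0} => res (P q).V (w j)) = _ from this]
            rw [Set.range_comp, (psi_surjective hf he hef hf').range_eq, Set.image_univ]
          have hgeneral : ∀ S S' : Set (ResidueField (P q).V), S = S' →
              finrank (adjoin k S) (ResidueField (P q).V) =
              finrank (adjoin k S') (ResidueField (P q).V) := by
            rintro S _ rfl; rfl
          exact hgeneral _ _ hS
        rw [e1, e2]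
      -- uniqueness
      have huniq : ∀ q q', res (P q).V π = 0 → res (P q').V π = 0 → q = q' := by
        intro q q' hq hq'
        apply hinj
        intro u
        obtain ⟨-, -, h5⟩ := adap_place (P q).V hA h.toIsPair hconn h2 htop
          (hxO q) (hcO q) (hπO q) hq hπ he (htr q)
        obtain ⟨-, -, h6⟩ := adap_place (P q').V hA h.toIsPair hconn h2 htop
          (hxO q') (hcO q') (hπO q') hq' hπ he (htr q')
        rw [h5, h6]
      -- existence
      have hexist : ∃ q, res (P q).V π = 0 := by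
        obtain ⟨V, algV, towV, ζ, ϖ, hζ, hϖ, hϖ0, hζai⟩ := exists_val hA.ai
        have hzO : ∀ j, z j ∈ OO V K := fun j => ⟨ζ j, hζ j⟩
        have hπV : π ∈ OO V K := ⟨ϖ, hϖ⟩
        have hπ0 : res V π = 0 := by rw [← hϖ, res_map, hϖ0]
        obtain ⟨hxV, hcV⟩ := adap_mem V hA hzO hπV
        have hai' : AlgebraicIndependent k (fun j => res V (z j)) := by
          have : (fun j => res V (z j)) = fun j => residue V (ζ j) := by
            funext j
            rw [← hζ j, res_map]
          rw [this]; exact hζai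
        have hgen : IsGen v N'' (G.erase e) f (fun i => res V (x i)) (fun i => res V (c i)) :=
          { toIsPair := hpair V hxV hcV hπ0
            hf := hf'
            hxf := by rw [h.hxf, res_one]
            htr := adap_tr V hA h.toIsPair hconn h2 hxV hcV he hai' }
        have hdp := degree_proj (f := (⟨f, hf'⟩ : (G.erase e : Finset ι))) (a := rst e a)
          hD''.hom hD''.irr (hD''.ker _ _ _ hgen) (by exact ha) (hdisca hc'')
        have hwV : ∀ j, w j ∈ V := by
          intro j
          rw [← mem_OO_sub]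
          simp only [hw, ww, yy]
          exact sub_mem (res_yy V hxV hcV _ j.1.2).1
            (mul_mem (algebraMap_mem_OO V _) (res_yy V hxV hcV f hf).1)
        have haiV : AlgebraicIndependent k (fun j : {j // j ≠ j0} => res V (w j)) := by
          have := res_ww V hxV hcV hf he hef hf' a
          rw [show (fun j : {j // j ≠ j0} => res V (w j)) = _ from this]
          exact hdp.1.comp _ (psi_injective hf he hef hf')
        obtain ⟨q, hq⟩ := hex V hwV (by rw [hwj0]; exact hyπ V hxV hcV hπ0) haiV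
        refine ⟨q, ?_⟩
        by_contra hne
        have h5 := hq _ (inv_mem_of_res _ (hπO q) hne)
        rw [← mem_OO_sub] at h5
        exact res_ne_zero_of_inv V hπV h5 hπ hπ0
      obtain ⟨q0, hq0⟩ := hexist
      rw [Finset.sum_eq_single q0]
      · exact hval q0 hq0
      · intro q hq hne
        exact absurd (huniq q q0 (Finset.mem_filter.mp hq).2 hq0) hne
      · intro hq
        exact (hq (Finset.mem_filter.mpr ⟨Finset.mem_univ _, hq0⟩)).elim
    · rw [if_neg hc'']
      apply Finset.sum_eq_zero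
      intro q hq
      exact absurd (hconnq q (Finset.mem_filter.mp hq).2) hc''
  have hB := key (c e) (x e ^ 2) N 1 Δ1 D1 hce (by ring) (fun q => hcO q e he)
    (fun q => pow_mem (hxO q e he) 2)
    (fun q hq => by
      rw [res_pow _ (hxO q e he)]
      exact pow_ne_zero 2 (fun hx0 => hnotboth q ⟨hq, hx0⟩))
    (fun V _ _ _ _ _ _ _ hx hc hπ => h.toIsPair.res_del V hx hc he hπ)
    (fun _ => h.adapB he hal)
    (fun V _ _ _ _ _ _ _ hx hc hπ => by rw [(res_yy V hx hc e he).2, hπ, zero_mul]) hΔ1 hΔ1a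
  have hA := key (x e) (c e) (N ⊔ Submodule.span k {v e}) 2 Δ2 D2 hxe (by ring)
    (fun q => hxO q e he) (fun q => hcO q e he)
    (fun q hq hc0 => hnotboth q ⟨hc0, hq⟩)
    (fun V _ _ _ _ _ _ _ hx hc hπ => h.toIsPair.res_con V hx hc he hπ)
    (fun hcon => h.adapA he hve (Conn.not_mem hcon hG'2 hf'))
    (fun V _ _ _ _ _ _ _ hx hc hπ => by rw [(res_yy V hx hc e he).2, hπ]; simp) hΔ2 hΔ2a
  rw [← hB, ← hA, ← hsum, ← Finset.sum_filter_add_sum_filter_not Finset.univ
    (fun q => res (P q).V (c e) = 0)]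
  congr 1
  apply Finset.sum_congr _ (fun _ _ => rfl)
  ext q
  simp only [Finset.mem_filter, Finset.mem_univ, true_and]
  constructor
  · intro hq
    exact (hone q).resolve_left hq
  · intro hq hc0
    exact hnotboth q ⟨hc0, hq⟩

end K1H20.RL
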