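import Pool.Agent.K1H20.RL.Gauss

set_option linter.unusedSectionVars false

namespace K1H20.RL

open Module IntermediateField

variable {k : Type} [Field k] {σ : Type} [DecidableEq σ] (f : σ) (a : σ → k)

/-- index set without `f` -/
abbrev Ex (f : σ) := {i : σ // i ≠ f}

/-- the substitution `Y i = W i + a i * Y f` -/
noncomputable def shear : MvPolynomial σ k →ₐ[k] Polynomial (MvPolynomial (Ex f) k) :=
  MvPolynomial.aeval (fun i => if h : i = f then Polynomial.X else
    Polynomial.C (MvPolynomial.X ⟨i, h⟩) + Polynomial.C (MvPolynomial.C (a i)) * Polynomial.X)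

/-- the inverse substitution -/
noncomputable def unshear : Polynomial (MvPolynomial (Ex f) k) →+* MvPolynomial σ k :=
  Polynomial.eval₂RingHom (MvPolynomial.aeval (R := k) (fun j : Ex f =>
    (MvPolynomial.X j.1 - MvPolynomial.C (a j.1) * MvPolynomial.X f : MvPolynomial σ k))).toRingHom
    (MvPolynomial.X f)

theorem unshear_C (p : MvPolynomial (Ex f) k) : unshear f a (Polynomial.C p) =
    MvPolynomial.aeval (R := k) (fun j : Ex f =>
      (MvPolynomial.X j.1 - MvPolynomial.C (a j.1) * MvPolynomial.X f : MvPolynomial σ k)) p := by
  simp [unshear]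

theorem unshear_X : unshear f a Polynomial.X = MvPolynomial.X f := by simp [unshear]

theorem unshear_shear (p : MvPolynomial σ k) : unshear f a (shear f a p) = p := by
  have : (unshear f a).comp (shear f a).toRingHom = RingHom.id _ := by
    apply MvPolynomial.ringHom_ext
    · intro r
      change unshear f a (shear f a (MvPolynomial.C r)) = _
      rw [shear, MvPolynomial.aeval_C]
      change unshear f a (Polynomial.C (MvPolynomial.C r)) = _
      rw [unshear_C, MvPolynomial.aeval_C]
      rfl
    · intro i
      change unshear f a (shear f a (MvPolynomial.X i)) = _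
      rw [shear, MvPolynomial.aeval_X]
      by_cases h : i = f
      · rw [dif_pos h, unshear_X, h]; rfl
      · rw [dif_neg h, map_add, map_mul, unshear_X, unshear_C, unshear_C, MvPolynomial.aeval_X,
          MvPolynomial.aeval_C]
        simp
  exact congrArg (fun g => g p) this

theorem shear_unshear (p : Polynomial (MvPolynomial (Ex f) k)) :
    shear f a (unshear f a p) = p := by
  have : (shear f a).toRingHom.comp (unshear f a) = RingHom.id _ := by
    apply Polynomial.ringHom_ext'
    · apply MvPolynomial.ringHom_ext
      · intro r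
        change shear f a (unshear f a (Polynomial.C (MvPolynomial.C r))) = _
        rw [unshear_C, MvPolynomial.aeval_C]
        change shear f a (MvPolynomial.C r) = _
        rw [shear, MvPolynomial.aeval_C]
        rfl
      · intro j
        change shear f a (unshear f a (Polynomial.C (MvPolynomial.X j))) = _
        rw [unshear_C, MvPolynomial.aeval_X, map_sub, map_mul, shear, MvPolynomial.aeval_X,
          MvPolynomial.aeval_X, MvPolynomial.aeval_C, dif_neg j.2, dif_pos rfl]
        simp only [Polynomial.algebraMap_apply, MvPolynomial.algebraMap_eq, Subtype.coe_eta,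
          add_sub_cancel_right]
        rfl
    · change shear f a (unshear f a Polynomial.X) = _
      rw [unshear_X, shear, MvPolynomial.aeval_X, dif_pos rfl]
      rfl
  exact congrArg (fun g => g p) this

/-- the shear as a ring isomorphism -/
noncomputable def shearEquiv : MvPolynomial σ k ≃+* Polynomial (MvPolynomial (Ex f) k) where
  toFun := shear f a
  invFun := unshear f a
  left_inv := unshear_shear f a
  right_inv := shear_unshear f a
  map_mul' := map_mul _
  map_add' := map_add _

theorem shearEquiv_apply (p : MvPolynomial σ k) : shearEquiv f a p = shear f a p := rfl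

/-- sheared coordinates of a point -/
def ww {K : Type} [Field K] [Algebra k K] (y : σ → K) : Ex f → K :=
  fun j => y j.1 - algebraMap k K (a j.1) * y f

theorem ev_shear {K : Type} [Field K] [Algebra k K] (y : σ → K) (p : MvPolynomial σ k) :
    ev k (ww f a y) (y f) (shear f a p) = MvPolynomial.aeval y p := by
  have : (ev k (ww f a y) (y f)).comp (shear f a).toRingHom =
      (MvPolynomial.aeval (R := k) y).toRingHom := by
    apply MvPolynomial.ringHom_ext
    · intro r
      change ev k (ww f a y) (y f) (shear f a (MvPolynomial.C r)) = MvPolynomial.aeval y _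
      rw [shear, MvPolynomial.aeval_C, MvPolynomial.aeval_C]
      change ev k (ww f a y) (y f) (Polynomial.C (MvPolynomial.C r)) = _
      rw [ev_C, MvPolynomial.aeval_C]
    · intro i
      change ev k (ww f a y) (y f) (shear f a (MvPolynomial.X i)) = MvPolynomial.aeval y _
      rw [shear, MvPolynomial.aeval_X, MvPolynomial.aeval_X]
      by_cases h : i = f
      · rw [dif_pos h, ev_X, h]
      · rw [dif_neg h, map_add, map_mul, ev_X, ev_C, ev_C, MvPolynomial.aeval_X,
          MvPolynomial.aeval_C]
        simp [ww]
  exact congrArg (fun g => g p) this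

variable [Fintype σ]

theorem shear_monomial (ha : a f = 1) (m : σ →₀ ℕ) (s : Finset σ) :
    (∏ i ∈ s, shear f a (MvPolynomial.X i) ^ m i).natDegree ≤ ∑ i ∈ s, m i ∧
    (∏ i ∈ s, shear f a (MvPolynomial.X i) ^ m i).coeff (∑ i ∈ s, m i) =
      MvPolynomial.C (∏ i ∈ s, a i ^ m i) := by
  have h1 : ∀ i, (shear f a (MvPolynomial.X i)).natDegree ≤ 1 := by
    intro i
    rw [shear, MvPolynomial.aeval_X]
    by_cases h : i = f
    · rw [dif_pos h]; exact Polynomial.natDegree_X_le
    · rw [dif_neg h]
      refine (Polynomial.natDegree_add_le _ _).trans ?_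
      rw [Polynomial.natDegree_C]
      refine max_le (by omega) ?_
      exact (Polynomial.natDegree_C_mul_le _ _).trans Polynomial.natDegree_X_le
  have h2 : ∀ i, (shear f a (MvPolynomial.X i)).coeff 1 = MvPolynomial.C (a i) := by
    intro i
    rw [shear, MvPolynomial.aeval_X]
    by_cases h : i = f
    · rw [dif_pos h, Polynomial.coeff_X_one, h, ha, map_one]
    · rw [dif_neg h, Polynomial.coeff_add, Polynomial.coeff_C_mul_X, if_pos rfl]
      rw [Polynomial.coeff_C, if_neg one_ne_zero, zero_add]
  have h3 : ∀ i, (shear f a (MvPolynomial.X i) ^ m i).natDegree ≤ m i := by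
    intro i
    have := Polynomial.natDegree_pow_le_of_le (m i) (h1 i)
    simpa using this
  have h4 : ∀ i, (shear f a (MvPolynomial.X i) ^ m i).coeff (m i) =
      MvPolynomial.C (a i ^ m i) := by
    intro i
    have := Polynomial.coeff_pow_of_natDegree_le (m := m i) (h1 i)
    rw [mul_one] at this
    rw [this, h2, map_pow]
  induction s using Finset.induction_on with
  | empty => simp
  | insert j s hj ih =>
    rw [Finset.prod_insert hj, Finset.sum_insert hj, Finset.prod_insert hj]
    constructor
    · exact (Polynomial.natDegree_mul_le).trans (add_le_add (h3 j) ih.1)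
    · rw [Polynomial.coeff_mul_add_eq_of_natDegree_le (h3 j) ih.1, h4, ih.2, map_mul]

theorem shear_coeff {D : ℕ} {p : MvPolynomial σ k} (hp : p.IsHomogeneous D) (ha : a f = 1) :
    (shear f a p).natDegree ≤ D ∧
      (shear f a p).coeff D = MvPolynomial.C (MvPolynomial.eval a p) := by
  have hsum : shear f a p = ∑ m ∈ p.support,
      Polynomial.C (MvPolynomial.C (p.coeff m)) * ∏ i, shear f a (MvPolynomial.X i) ^ m i := by
    conv_lhs => rw [p.as_sum]
    rw [map_sum]
    refine Finset.sum_congr rfl fun m _ => ?_
    rw [MvPolynomial.monomial_eq, map_mul, Finsupp.prod_fintype _ _ (fun i => pow_zero _), map_prod]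
    congr 1
    · rw [shear, MvPolynomial.aeval_C]; rfl
    · refine Finset.prod_congr rfl fun i _ => ?_
      rw [map_pow]
  have hdeg : ∀ m ∈ p.support, ∑ i, m i = D := by
    intro m hm
    have h1 := hp (MvPolynomial.mem_support_iff.mp hm)
    have h2 : Finsupp.weight (1 : σ → ℕ) m = m.degree :=
      (DFunLike.congr_fun (Finsupp.degree_eq_weight_one (R := ℕ) (σ := σ)) m).symm
    rw [← h1, h2, Finsupp.degree_eq_sum]
  constructor
  · rw [hsum]
    apply Polynomial.natDegree_sum_le_of_forall_le
    intro m hm
    refine (Polynomial.natDegree_C_mul_le _ _).trans ?_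
    rw [← hdeg m hm]
    exact (shear_monomial f a ha m Finset.univ).1
  · rw [hsum, Polynomial.finsetSum_coeff, MvPolynomial.eval_eq', map_sum]
    refine Finset.sum_congr rfl fun m hm => ?_
    rw [Polynomial.coeff_C_mul]
    conv_lhs => rw [← hdeg m hm]
    rw [(shear_monomial f a ha m Finset.univ).2, map_mul]

end K1H20.RL
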