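import Pool.Agent.K1H20.RL.LinTR

set_option linter.unusedSectionVars false

namespace K1H20.RL

open Module IntermediateField

variable {k : Type} [Field k] {W : Type} [AddCommGroup W] [Module k W] [FiniteDimensional k W]
  {ι : Type} [DecidableEq ι]

/-- A generic normalised pair. -/
structure IsGen (v : ι → W) (N : Submodule k W) (G : Finset ι) (f : ι) {K : Type} [Field K]
    [Algebra k K] (x c : ι → K) : Prop extends IsPair v N G x c where
  hf : f ∈ G
  hxf : x f = 1
  htr : (G.card : ℕ∞) ≤ tr k (x '' (G : Set ι) ∪ c '' (G : Set ι)) + 1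

variable {K : Type} [Field K] [Algebra k K] {v : ι → W} {N : Submodule k W} {G : Finset ι}
  {f : ι} {x c : ι → K}

theorem IsGen.finrank_eq (h : IsGen v N G f x c) :
    finrank k (Submodule.span k (x '' (G : Set ι))) = rkN v N G ∧
    finrank k (Submodule.span k (c '' (G : Set ι))) + rkN v N G = G.card := by
  have h1 := tr_add_one_le (k := k) G (x := x) (c := c) h.hf h.hxf
  have h2 := h.htr.trans h1
  have h3 : G.card ≤ finrank k (Submodule.span k (x '' (G : Set ι))) +
        finrank k (Submodule.span k (c '' (G : Set ι))) := by exact_mod_cast h2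
  have h4 := h.finrank_x
  have h5 := h.finrank_c
  omega

theorem ker_eq_of_finrank (x : ι → K) (R : Submodule k (G → k))
    (h : R ≤ (Fintype.linearCombination k (fun i : G => x i)).ker)
    (hd : finrank k (Submodule.span k (x '' (G : Set ι))) + finrank k R = G.card) :
    (Fintype.linearCombination k (fun i : G => x i)).ker = R := by
  symm
  apply Submodule.eq_of_le_of_finrank_eq h
  have h1 := (Fintype.linearCombination k (fun i : G => x i)).finrank_range_add_finrank_ker
  rw [range_lc] at h1
  have h10 : finrank k (G → k) = G.card := by simp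
  omega

theorem IsGen.ker_x (h : IsGen v N G f x c) :
    (Fintype.linearCombination k (fun i : G => x i)).ker = Rx v N G := by
  apply ker_eq_of_finrank x _ h.Rx_le
  have h1 := h.finrank_eq
  have h2 := finrank_Rx v N G
  omega

theorem IsGen.ker_c (h : IsGen v N G f x c) :
    (Fintype.linearCombination k (fun i : G => c i)).ker = Rc v N G := by
  apply ker_eq_of_finrank c _ h.Rc_le
  have h1 := h.finrank_eq
  have h2 := finrank_Rc v N G
  omega

/-- a linear map taking `x` to `x'` if all relations of `x` hold for `x'` -/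
theorem exists_lin {A : Type} [AddCommGroup A] [Module k A] (x : ι → K) (x' : ι → A)
    (h : (Fintype.linearCombination k (fun i : G => x i)).ker ≤
      (Fintype.linearCombination k (fun i : G => x' i)).ker) :
    ∃ g : K →ₗ[k] A, ∀ i ∈ G, g (x i) = x' i := by
  set F := Fintype.linearCombination k (fun i : G => x i) with hF
  set F' := Fintype.linearCombination k (fun i : G => x' i) with hF'
  obtain ⟨s, hs⟩ := LinearMap.exists_rightInverse_of_surjective F.rangeRestrict
    (LinearMap.range_rangeRestrict F)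
  obtain ⟨s', hs'⟩ := LinearMap.exists_extend s
  refine ⟨F' ∘ₗ s', fun i hi => ?_⟩
  have h1 : F (Pi.single ⟨i, hi⟩ 1) = x i := by
    rw [hF, Fintype.linearCombination_apply_single, one_smul]
  have h2 : F' (Pi.single ⟨i, hi⟩ 1) = x' i := by
    rw [hF', Fintype.linearCombination_apply_single, one_smul]
  have h3 : x i ∈ F.range := ⟨_, h1⟩
  have h4 : s' (x i) = s ⟨x i, h3⟩ := by
    have := LinearMap.congr_fun hs' ⟨x i, h3⟩
    exact this
  have h5 : F (s ⟨x i, h3⟩) = x i := by
    have := LinearMap.congr_fun hs ⟨x i, h3⟩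
    exact congrArg Subtype.val this
  have h6 : s ⟨x i, h3⟩ - Pi.single ⟨i, hi⟩ 1 ∈ F.ker := by
    rw [LinearMap.mem_ker, map_sub, h5, h1, sub_self]
  have h7 := h h6
  rw [LinearMap.mem_ker, map_sub, sub_eq_zero] at h7
  rw [LinearMap.comp_apply, h4, h7, h2]

/-- the family of generators -/
def zz (gx gc : Finset K) : {a // a ∈ gx ∧ a ≠ 1} ⊕ {a // a ∈ gc} → K :=
  Sum.elim (fun a => a.1) (fun a => a.1)

/-- adapted bases -/
theorem IsGen.bases (h : IsGen v N G f x c) (sx sc : Finset K)
    (hsx : LinearIndepOn k id (sx : Set K)) (hsc : LinearIndepOn k id (sc : Set K))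
    (hx : (sx : Set K) ⊆ Submodule.span k (x '' (G : Set ι)))
    (hc : (sc : Set K) ⊆ Submodule.span k (c '' (G : Set ι))) (h1 : (1 : K) ∈ sx) :
    ∃ gx gc : Finset K, sx ⊆ gx ∧ sc ⊆ gc ∧
      LinearIndepOn k id (gx : Set K) ∧ LinearIndepOn k id (gc : Set K) ∧
      Submodule.span k (gx : Set K) = Submodule.span k (x '' (G : Set ι)) ∧
      Submodule.span k (gc : Set K) = Submodule.span k (c '' (G : Set ι)) ∧
      gx.card + gc.card = G.card ∧
      AlgebraicIndependent k (zz gx gc) := by
  classical
  obtain ⟨gx, e1, e2, e3, e4⟩ := exists_finset_basis (Submodule.span k (x '' (G : Set ι))) sx hsx hx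
  obtain ⟨gc, e1', e2', e3', e4'⟩ := exists_finset_basis (Submodule.span k (c '' (G : Set ι))) sc
    hsc hc
  have hcard : gx.card + gc.card = G.card := by
    have := h.finrank_eq
    omega
  refine ⟨gx, gc, e1, e1', e2, e2', e3, e3', hcard, ?_⟩
  letI : Fintype {a // a ∈ gx ∧ a ≠ 1} := Fintype.ofEquiv {a // a ∈ gx.erase 1}
    (Equiv.subtypeEquivRight (fun a => by rw [Finset.mem_erase]; exact and_comm))
  apply algInd_of_le_tr
  have hc1 : Fintype.card ({a // a ∈ gx ∧ a ≠ 1} ⊕ {a // a ∈ gc}) + 1 = G.card := by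
    rw [Fintype.card_sum]
    have h5 : Fintype.card {a // a ∈ gx ∧ a ≠ 1} = (gx.erase 1).card := by
      rw [Fintype.card_congr (Equiv.subtypeEquivRight (q := fun a => a ∈ gx.erase 1)
        (fun a => by rw [Finset.mem_erase]; exact and_comm)), Fintype.card_coe]
    rw [h5, Fintype.card_coe]
    have h6 := Finset.card_erase_add_one (e1 h1)
    omega
  have h7 : tr k (x '' (G : Set ι) ∪ c '' (G : Set ι)) ≤
      tr k (Set.range (zz gx gc)) := by
    apply tr_le_of_subset
    rintro y (hy | hy)
    · have hy' := span_le_adjoin_erase (s := x '' (G : Set ι)) (g := gx) (x := y)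
        (by rw [e3]; exact Submodule.subset_span) hy
      refine (adjoin.mono k _ _ ?_) hy'
      intro a ha
      have ha' := Finset.mem_erase.mp (Finset.mem_coe.mp ha)
      exact ⟨Sum.inl ⟨a, ha'.2, ha'.1⟩, rfl⟩
    · have hy' : y ∈ Submodule.span k (gc : Set K) := by
        rw [e3']; exact Submodule.subset_span hy
      refine (adjoin.mono k _ _ ?_) (span_le_adjoin _ hy')
      intro a ha
      exact ⟨Sum.inr ⟨a, Finset.mem_coe.mp ha⟩, rfl⟩
  have h8 := h.htr.trans (add_le_add_left h7 1)
  rw [← hc1, Nat.cast_add, Nat.cast_one] at h8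
  exact (ENat.add_le_add_iff_right (by simp)).mp h8

/-- A generic pair is given by linear polynomials in algebraically independent elements, and every
pair is a specialisation. -/
theorem IsGen.spec (h : IsGen v N G f x c) : ∃ (J : Type) (_ : Fintype J) (z : J → K)
    (X C : ι → MvPolynomial J k), AlgebraicIndependent k z ∧
      (∀ i ∈ G, MvPolynomial.aeval z (X i) = x i ∧ MvPolynomial.aeval z (C i) = c i) ∧
      ∀ (A : Type) [CommRing A] [Algebra k A] (x' c' : ι → A), IsPair v N G x' c' → x' f = 1 →
        ∃ Φ : MvPolynomial J k →ₐ[k] A, ∀ i ∈ G, Φ (X i) = x' i ∧ Φ (C i) = c' i := by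
  classical
  obtain ⟨gx, gc, e1, -, e2, e2', e3, e3', -, hai⟩ := h.bases {1} ∅ one_indep (by simp)
    (by
      rw [Finset.coe_singleton, Set.singleton_subset_iff]
      exact Submodule.subset_span ⟨f, h.hf, h.hxf⟩) (by simp) (by simp)
  letI : Fintype {a // a ∈ gx ∧ a ≠ 1} := Fintype.ofEquiv {a // a ∈ gx.erase 1}
    (Equiv.subtypeEquivRight (fun a => by rw [Finset.mem_erase]; exact and_comm))
  have h1gx : (1 : K) ∈ gx := e1 (by simp)
  let J := {a // a ∈ gx ∧ a ≠ 1} ⊕ {a // a ∈ gc}
  let z : J → K := zz gx gc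
  -- linear maps on the spans
  let bx := Basis.span (v := fun a : (gx : Set K) => (a : K)) e2
  let bc := Basis.span (v := fun a : (gc : Set K) => (a : K)) e2'
  have hbx : ∀ a : (gx : Set K), (bx a : K) = a := fun a => by
    exact congrArg Subtype.val (Basis.span_apply e2 a)
  have hbc : ∀ a : (gc : Set K), (bc a : K) = a := fun a => by
    exact congrArg Subtype.val (Basis.span_apply e2' a)
  let βx := bx.constr k (fun a : (gx : Set K) =>
    if ha : (a : K) = 1 then (1 : MvPolynomial J k)
    else MvPolynomial.X (Sum.inl ⟨a, Finset.mem_coe.mp a.2, ha⟩))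
  let βc := bc.constr k (fun a : (gc : Set K) =>
    (MvPolynomial.X (Sum.inr ⟨a, Finset.mem_coe.mp a.2⟩) : MvPolynomial J k))
  have hmx : ∀ i ∈ G, x i ∈ Submodule.span k (Set.range (fun a : (gx : Set K) => (a : K))) := by
    intro i hi
    rw [Subtype.range_coe, e3]
    exact Submodule.subset_span ⟨i, hi, rfl⟩
  have hmc : ∀ i ∈ G, c i ∈ Submodule.span k (Set.range (fun a : (gc : Set K) => (a : K))) := by
    intro i hi
    rw [Subtype.range_coe, e3']
    exact Submodule.subset_span ⟨i, hi, rfl⟩
  refine ⟨J, inferInstance, z, fun i => if hi : i ∈ G then βx ⟨x i, hmx i hi⟩ else 0,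
    fun i => if hi : i ∈ G then βc ⟨c i, hmc i hi⟩ else 0, hai, ?_, ?_⟩
  · -- evaluation
    have hx : (MvPolynomial.aeval z).toLinearMap ∘ₗ βx = Submodule.subtype _ := by
      apply bx.ext
      intro a
      rw [LinearMap.comp_apply, Basis.constr_basis, Submodule.subtype_apply, hbx]
      by_cases ha : (a : K) = 1
      · rw [dif_pos ha, AlgHom.toLinearMap_apply, map_one, ha]
      · rw [dif_neg ha, AlgHom.toLinearMap_apply, MvPolynomial.aeval_X]
        rfl
    have hc : (MvPolynomial.aeval z).toLinearMap ∘ₗ βc = Submodule.subtype _ := by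
      apply bc.ext
      intro a
      rw [LinearMap.comp_apply, Basis.constr_basis, Submodule.subtype_apply, hbc,
        AlgHom.toLinearMap_apply, MvPolynomial.aeval_X]
      rfl
    intro i hi
    simp only [dif_pos hi]
    exact ⟨LinearMap.congr_fun hx ⟨x i, hmx i hi⟩, LinearMap.congr_fun hc ⟨c i, hmc i hi⟩⟩
  · intro A _ _ x' c' hp hxf'
    obtain ⟨g, hg⟩ := exists_lin (G := G) x x' (by rw [h.ker_x]; exact hp.Rx_le)
    obtain ⟨g', hg'⟩ := exists_lin (G := G) c c' (by rw [h.ker_c]; exact hp.Rc_le)
    let z' : J → A := Sum.elim (fun a => g a.1) (fun a => g' a.1)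
    refine ⟨MvPolynomial.aeval z', ?_⟩
    set Φ := MvPolynomial.aeval (R := k) z' with hΦ
    have hg1 : g 1 = 1 := by
      have := hg f h.hf
      rwa [h.hxf, hxf'] at this
    have hx : Φ.toLinearMap ∘ₗ βx = g ∘ₗ Submodule.subtype _ := by
      apply bx.ext
      intro a
      rw [LinearMap.comp_apply, Basis.constr_basis, LinearMap.comp_apply, Submodule.subtype_apply,
        hbx]
      by_cases ha : (a : K) = 1
      · rw [dif_pos ha, AlgHom.toLinearMap_apply, map_one, ha, hg1]
      · rw [dif_neg ha, AlgHom.toLinearMap_apply, hΦ, MvPolynomial.aeval_X]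
        rfl
    have hc : Φ.toLinearMap ∘ₗ βc = g' ∘ₗ Submodule.subtype _ := by
      apply bc.ext
      intro a
      rw [LinearMap.comp_apply, Basis.constr_basis, LinearMap.comp_apply, Submodule.subtype_apply,
        hbc, AlgHom.toLinearMap_apply, hΦ, MvPolynomial.aeval_X]
      rfl
    intro i hi
    simp only [dif_pos hi]
    refine ⟨?_, ?_⟩
    · rw [← hg i hi]
      exact LinearMap.congr_fun hx ⟨x i, hmx i hi⟩
    · rw [← hg' i hi]
      exact LinearMap.congr_fun hc ⟨c i, hmc i hi⟩

end K1H20.RL
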