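import Pool.Agent.K1H20.RL.PlOf

set_option linter.unusedSectionVars false
set_option linter.style.haveILetI false

namespace K1H20.RL

open Module IntermediateField IsLocalRing

variable (k R E K : Type) [Field k] [CommRing R] [IsDomain R] [IsPrincipalIdealRing R] [Field E]
  [Algebra R E] [IsFractionRing R E] [Field K] [Algebra E K] [Algebra R K] [IsScalarTower R E K]
  [FiniteDimensional E K] [Algebra.IsSeparable E K] [Algebra k R] [Algebra k K]
  [IsScalarTower k R K]

theorem sum_formula (p : Ideal R) [p.IsMaximal] (hp : p ≠ ⊥) :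
    ∃ (Q : Type) (_ : Fintype Q) (P : Q → Pl k K) (e fd : Q → ℕ),
      ∑ q, e q * fd q = finrank E K ∧
      (∀ q, ∀ u : K, IsIntegral R u → u ∈ OO (P q).V K) ∧
      (∀ q, ∀ r : R, res (P q).V (algebraMap R K r) = 0 ↔ r ∈ p) ∧
      (∀ q, ∀ (t : R) (ϖ : (P q).V) (n : ℕ) (u : ((P q).V)ˣ), p = Ideal.span {t} →
        maximalIdeal (P q).V = Ideal.span {ϖ} →
        algebraMap R K t = algebraMap (P q).V K (ϖ ^ n * u) → e q = n) ∧
      (∀ q, ∀ M : IntermediateField k (ResidueField (P q).V),
        (∀ z, z ∈ M ↔ ∃ r : R, res (P q).V (algebraMap R K r) = z) →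
          fd q = finrank M (ResidueField (P q).V)) ∧
      (∀ q q', (∀ u : K, (u ∈ OO (P q).V K ∧ res (P q).V u = 0) ↔
        (u ∈ OO (P q').V K ∧ res (P q').V u = 0)) → q = q') ∧
      (∀ V' : ValuationSubring K, (∀ r : R, algebraMap R K r ∈ V') →
        (∀ r ∈ p, algebraMap R K r ∈ V'.nonunits) → ∃ q, ∀ u ∈ OO (P q).V K, u ∈ V') := by
  classical
  let S := integralClosure R K
  haveI : IsDedekindDomain S := integralClosure.isDedekindDomain R E K
  haveI : IsFractionRing S K := IsIntegralClosure.isFractionRing_of_finite_extension R E K S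
  haveI : Module.Finite R S := IsIntegralClosure.finite R E K S
  haveI : Module.IsTorsionFree R K := .trans_faithfulSMul R E K
  haveI : Module.Free R S := IsIntegralClosure.module_free R E K S
  have hrank : finrank R S = finrank E K := IsIntegralClosure.rank R E K S
  haveI : Fintype (p.primesOver S) := inferInstance
  have hsum := Ideal.sum_ramification_inertia_eq_finrank p S
  have hprime : ∀ q : p.primesOver S, q.1.IsPrime := fun q => q.2.1
  have hover : ∀ q : p.primesOver S, q.1.LiesOver p := fun q => q.2.2
  have hq0 : ∀ q : p.primesOver S, q.1 ≠ ⊥ := fun q => Ideal.ne_bot_of_mem_primesOver hp q.2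
  have hqmax : ∀ q : p.primesOver S, q.1.IsMaximal := fun q => (hprime q).isMaximal (hq0 q)
  have hfrac : ∀ q : p.primesOver S, ∀ u ∈ OO (plOf k S K q.1 (hq := hprime q) (hq0 q)).V K,
      ∃ s s' : S, s' ∉ q.1 ∧ u * algebraMap S K s' = algebraMap S K s := by
    intro q u hu
    haveI := hprime q
    letI := algLoc S K q.1
    haveI := towerLoc S K q.1
    haveI := fracLoc S K q.1
    haveI := vrLoc S q.1 (hq0 q)
    exact lo_frac S K q.1 hu
  refine ⟨p.primesOver S, inferInstance, fun q => plOf k S K q.1 (hq := hprime q) (hq0 q),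
    fun q => q.1.ramificationIdx R, fun q => q.1.inertiaDeg R, ?_, ?_, ?_, ?_, ?_, ?_, ?_⟩
  · rw [← hrank, ← hsum]
  · intro q u hu
    haveI := hprime q
    letI := algLoc S K q.1
    haveI := towerLoc S K q.1
    haveI := fracLoc S K q.1
    haveI := vrLoc S q.1 (hq0 q)
    exact lo_mem S K q.1 ⟨u, hu⟩
  · intro q r
    haveI := hprime q
    letI := algLoc S K q.1
    haveI := towerLoc S K q.1
    haveI := fracLoc S K q.1
    haveI := vrLoc S q.1 (hq0 q)
    have h1 := lo_res S K q.1 (algebraMap R S r)
    rw [← IsScalarTower.algebraMap_apply R S K] at h1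
    have h2 : algebraMap R S r ∈ q.1 ↔ r ∈ p := (SetLike.ext_iff.mp (hover q).over r).symm
    exact h1.trans h2
  · intro q t ϖ n u ht hϖ h
    haveI := hprime q
    haveI := hover q
    letI := algLoc S K q.1
    haveI := towerLoc S K q.1
    haveI := fracLoc S K q.1
    haveI := vrLoc S q.1 (hq0 q)
    exact lo_ram S K q.1 (hq0 q) p ht hϖ h
  · intro q M hM
    haveI := hprime q
    haveI := hover q
    haveI := hqmax q
    letI := algLoc S K q.1
    haveI := towerLoc S K q.1
    haveI := fracLoc S K q.1
    haveI := vrLoc S q.1 (hq0 q)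
    haveI := towLoc k S K q.1
    exact lo_inertia k S K q.1 p M hM
  · intro q q' h
    apply Subtype.ext
    ext s
    have h1 := h (algebraMap S K s)
    have key : ∀ q : p.primesOver S, (algebraMap S K s ∈
        OO (plOf k S K q.1 (hq := hprime q) (hq0 q)).V K ∧
        res (plOf k S K q.1 (hq := hprime q) (hq0 q)).V (algebraMap S K s) = 0) ↔ s ∈ q.1 := by
      intro q
      haveI := hprime q
      letI := algLoc S K q.1
      haveI := towerLoc S K q.1
      haveI := fracLoc S K q.1
      haveI := vrLoc S q.1 (hq0 q)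
      exact ⟨fun h => (lo_res S K q.1 s).mp h.2, fun h => ⟨lo_mem S K q.1 s,
        (lo_res S K q.1 s).mpr h⟩⟩
    rw [key, key] at h1
    exact h1
  · intro V' hV' hp'
    -- the integral closure lies in `V'`
    have hS : ∀ s : S, algebraMap S K s ∈ V' := by
      intro s
      have h1 : IsIntegral R (s : K) := s.2
      have h2 : IsIntegral V' (s : K) := by
        letI : Algebra R V' := ((algebraMap R K).codRestrict V'.toSubring hV').toAlgebra
        haveI : IsScalarTower R V' K := IsScalarTower.of_algebraMap_eq (fun _ => rfl)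
        exact h1.tower_top
      obtain ⟨y, hy⟩ := (IsIntegrallyClosed.isIntegral_iff (R := V') (K := K)).mp h2
      rw [show algebraMap S K s = (s : K) from rfl, ← hy]
      exact y.2
    let g : S →+* V' := (algebraMap S K).codRestrict V'.toSubring hS
    let q : Ideal S := (maximalIdeal V').comap g
    have hqp : q.IsPrime := inferInstance
    have hmem : ∀ s : S, s ∈ q ↔ algebraMap S K s ∈ V'.nonunits := by
      intro s
      change g s ∈ maximalIdeal V' ↔ _
      rw [mem_maximalIdeal, mem_nonunits_iff, ValuationSubring.mem_nonunits_iff_exists_mem_maximalIdeal]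
      constructor
      · intro h
        exact ⟨hS s, h⟩
      · rintro ⟨ha, h⟩
        exact h
    have hqo : q.LiesOver p := by
      constructor
      have h1 : p ≤ q.under R := by
        intro r hr
        change algebraMap R S r ∈ q
        rw [hmem, ← IsScalarTower.algebraMap_apply R S K]
        exact hp' r hr
      exact (‹p.IsMaximal›.eq_of_le (Ideal.IsPrime.ne_top inferInstance) h1)
    refine ⟨⟨q, hqp, hqo⟩, ?_⟩
    intro u hu
    obtain ⟨s, s', hs', hus⟩ := hfrac ⟨q, hqp, hqo⟩ u hu
    change s' ∉ q at hs'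
    rw [hmem] at hs'
    have h1 : algebraMap S K s' ≠ 0 := by
      intro h0
      apply hs'
      rw [h0]
      exact V'.nonunits.zero_mem
    have h2 : (algebraMap S K s')⁻¹ ∈ V' := by
      by_contra h3
      exact hs' ((ValuationSubring.mem_nonunits_iff_or V').mpr (Or.inr h3))
    have h3 : u = algebraMap S K s * (algebraMap S K s')⁻¹ := by
      rw [← hus]; field_simp
    rw [h3]
    exact V'.mul_mem _ _ (hS s) h2

end K1H20.RL
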