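import Pool.Agent.K1H20.RL.Adap

set_option linter.unusedSectionVars false
set_option linter.style.haveILetI false

namespace K1H20.RL

open Module IntermediateField IsLocalRing Pool.Agent.Helper766.Rad

variable {k : Type} [Field k] {W : Type} [AddCommGroup W] [Module k W] [FiniteDimensional k W]
  {ι : Type} [DecidableEq ι] {v : ι → W} {f : ι}

theorem res_yy (V : Type) [CommRing V] [IsDomain V] [ValuationRing V] {K : Type} [Field K]
    [Algebra V K] [IsFractionRing V K] {G : Finset ι} {x c : ι → K} (hx : ∀ i ∈ G, x i ∈ OO V K)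
    (hc : ∀ i ∈ G, c i ∈ OO V K) :
    ∀ i ∈ G, c i * x i ^ 2 ∈ OO V K ∧
      res V (c i * x i ^ 2) = res V (c i) * res V (x i) ^ 2 := by
  intro i hi
  refine ⟨mul_mem (hc i hi) (pow_mem (hx i hi) 2), ?_⟩
  rw [res_mul V (hc i hi) (pow_mem (hx i hi) 2), res_pow V (hx i hi)]

/-- the inductive step -/
theorem trY_step {N : Submodule k W} {G : Finset ι} {K : Type} [Field K] [Algebra k K]
    {x c : ι → K} (h : IsGen v N G f x c) (hc2 : Conn (rf v N) G) (h2 : 2 ≤ G.card) {e : ι}
    (he : e ∈ G) (hef : e ≠ f) {σ : Type} [Fintype σ] {z : σ → K} {π : K}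
    (hA : Adap k G x c σ z π) (hπ : π = x e ∨ π = c e) {N' : Submodule k W}
    (hN' : ∀ (V : Type) [CommRing V] [IsDomain V] [ValuationRing V] [Algebra V K]
      [IsFractionRing V K] [Algebra k V] [IsScalarTower k V K],
      (∀ i ∈ G, x i ∈ OO V K) → (∀ i ∈ G, c i ∈ OO V K) → res V π = 0 →
      IsPair v N' (G.erase e) (fun i => res V (x i)) (fun i => res V (c i)))
    (ih : ∀ (K' : Type) [Field K'] [Algebra k K'] (x' c' : ι → K'),
      IsGen v N' (G.erase e) f x' c' →
        ((G.erase e).card : ℕ∞) ≤ tr k (Set.range (yy (G.erase e) x' c')) + 1) :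
    (G.card : ℕ∞) ≤ tr k (Set.range (yy G x c)) + 1 := by
  obtain ⟨V, algV, towV, ζ, ϖ, hζ, hϖ, hϖ0, hζai⟩ := exists_val hA.ai
  have hzO : ∀ j, z j ∈ OO V K := fun j => ⟨ζ j, hζ j⟩
  have hπO : π ∈ OO V K := ⟨ϖ, hϖ⟩
  have hπ0 : res V π = 0 := by rw [← hϖ, res_map, hϖ0]
  obtain ⟨hx, hc⟩ := adap_mem V hA hzO hπO
  have hai : AlgebraicIndependent k (fun j => res V (z j)) := by
    have : (fun j => res V (z j)) = fun j => residue V (ζ j) := by
      funext j
      rw [← hζ j, res_map]
    rw [this]; exact hζai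
  have hpair := hN' V hx hc hπ0
  have hgen : IsGen v N' (G.erase e) f (fun i => res V (x i)) (fun i => res V (c i)) :=
    { toIsPair := hpair
      hf := Finset.mem_erase.mpr ⟨hef.symm, h.hf⟩
      hxf := by rw [h.hxf, res_one]
      htr := adap_tr V hA h.toIsPair hc2 h2 hx hc he hai }
  have h3 := ih _ _ _ hgen
  -- lift
  have hyO := res_yy V hx hc
  have hG : ∀ i ∈ G.erase e, i ∈ G := fun i hi => Finset.mem_of_mem_erase hi
  have hxe := h.x_ne he (Conn.not_mem hc2 h2 he)
  obtain ⟨a, ha⟩ := Conn.comb hc2 h2 he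
  have hce := h.c_ne he ha
  have hye : res V (c e * x e ^ 2) = 0 := by
    rw [(hyO e he).2]
    rcases hπ with hπ | hπ
    · rw [← hπ, hπ0]; simp
    · rw [← hπ, hπ0]; simp
  have h4 := tr_lift (k := k) V (T := ((G.erase e : Finset ι) : Set ι))
    (Y := fun i => c i * x i ^ 2) (Finset.finite_toSet _) (fun i hi => (hyO i (hG i hi)).1)
    (hyO e he).1 (mul_ne_zero hce (pow_ne_zero 2 hxe)) hye
  have h5 : (fun i => res V (c i * x i ^ 2)) '' ((G.erase e : Finset ι) : Set ι) =
      Set.range (yy (G.erase e) (fun i => res V (x i)) (fun i => res V (c i))) := by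
    rw [range_yy]
    exact Set.image_congr fun i hi => (hyO i (hG i hi)).2
  have h6 : (fun i => c i * x i ^ 2) '' ((G.erase e : Finset ι) : Set ι) ∪ {c e * x e ^ 2} ⊆
      Set.range (yy G x c) := by
    rw [range_yy]
    rintro _ (⟨i, hi, rfl⟩ | hi)
    · exact ⟨i, hG i hi, rfl⟩
    · rw [Set.mem_singleton_iff] at hi
      rw [hi]
      exact ⟨e, he, rfl⟩
  rw [h5] at h4
  have h7 := h4.trans (tr_mono h6)
  have h8 := Finset.card_erase_add_one he
  calc (G.card : ℕ∞) = ((G.erase e).card : ℕ∞) + 1 := by exact_mod_cast h8.symm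
    _ ≤ (tr k (Set.range (yy (G.erase e) (fun i => res V (x i)) (fun i => res V (c i)))) + 1) + 1 :=
      add_le_add_left h3 1
    _ ≤ tr k (Set.range (yy G x c)) + 1 := add_le_add_left h7 1

theorem conn_singleton (M : RankFn ι) (i : ι) : Conn M {i} := by
  intro A hA hne hAG
  exfalso
  apply hAG
  exact Finset.Subset.antisymm hA (by
    obtain ⟨a, ha⟩ := hne
    have := hA ha
    rw [Finset.mem_singleton] at this
    subst this
    simpa using ha)

theorem trY : ∀ (n : ℕ) (N : Submodule k W) (G : Finset ι), G.card = n → Conn (rf v N) G →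
    ∀ (K : Type) [Field K] [Algebra k K] (x c : ι → K), IsGen v N G f x c →
      (G.card : ℕ∞) ≤ tr k (Set.range (yy G x c)) + 1 := by
  intro n
  induction n with
  | zero =>
    intro N G hG _ K _ _ x c h
    rw [hG]; simp
  | succ n ih =>
    intro N G hG hconn K _ _ x c h
    by_cases h1 : G.card ≤ 1
    · have : (G.card : ℕ∞) ≤ 1 := by exact_mod_cast h1
      exact this.trans (by simp)
    have h2 : 2 ≤ G.card := by omega
    have hne : (G.erase f).Nonempty := by
      rw [← Finset.card_pos, Finset.card_erase_of_mem h.hf]; omega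
    obtain ⟨e, he'⟩ := hne
    obtain ⟨hef, he⟩ := Finset.mem_erase.mp he'
    have hcard : (G.erase e).card = n := by rw [Finset.card_erase_of_mem he]; omega
    by_cases hdel : Conn (rf v N) (G.erase e)
    · obtain ⟨a, ha⟩ := Conn.comb hconn h2 he
      obtain ⟨σ, hσ, z, hA⟩ := h.adapB he ha
      refine trY_step h hconn h2 he hef hA (Or.inr rfl) (N' := N) ?_
        (fun K' _ _ x' c' h' => ih N (G.erase e) hcard hdel K' x' c' h')
      intro V _ _ _ _ _ _ _ hx hc hπ
      exact h.toIsPair.res_del V hx hc he hπ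
    · have hcon := (hconn.del_or_con h2 he).resolve_left hdel
      rw [conn_con_iff] at hcon
      have h3 : 2 ≤ (G.erase e).card := by
        by_contra hlt
        have h4 : (G.erase e).card = 1 := by
          have := Finset.card_erase_add_one he
          omega
        obtain ⟨i, hi⟩ := Finset.card_eq_one.mp h4
        apply hdel
        rw [hi]
        exact conn_singleton _ i
      have hf' : f ∈ G.erase e := Finset.mem_erase.mpr ⟨hef.symm, h.hf⟩
      obtain ⟨σ, hσ, z, hA⟩ := h.adapA he (Conn.not_mem hconn h2 he) (Conn.not_mem hcon h3 hf')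
      refine trY_step h hconn h2 he hef hA (Or.inl rfl) (N' := N ⊔ Submodule.span k {v e}) ?_
        (fun K' _ _ x' c' h' => ih _ (G.erase e) hcard hcon K' x' c' h')
      intro V _ _ _ _ _ _ _ hx hc hπ
      exact h.toIsPair.res_con V hx hc he hπ

end K1H20.RL
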