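import Pool.Agent.K1H20.RL.Lev

set_option linter.unusedSectionVars false

namespace K1H20.RL

open Module IntermediateField IsLocalRing

section

variable {k : Type} [Field k] {K : Type} [Field K] [Algebra k K] {ι : Type} [DecidableEq ι]

/-- transcendence degree as a natural number -/
noncomputable def trn (k : Type) [Field k] {K : Type} [Field K] [Algebra k K] {ι : Type}
    (Y : ι → K) (A : Finset ι) : ℕ := (tr k (Y '' (A : Set ι))).toNat

theorem tr_image_le_card (Y : ι → K) (A : Finset ι) : tr k (Y '' (A : Set ι)) ≤ A.card := by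
  refine (tr_le_encard _).trans ((Set.encard_image_le _ _).trans ?_)
  rw [Set.encard_coe_eq_coe_finsetCard]

theorem trn_eq (Y : ι → K) (A : Finset ι) : (trn k Y A : ℕ∞) = tr k (Y '' (A : Set ι)) := by
  apply ENat.coe_toNat
  intro h
  have := tr_image_le_card (k := k) Y A
  rw [h] at this
  exact absurd this (by simp)

theorem trn_le_card (Y : ι → K) (A : Finset ι) : trn k Y A ≤ A.card := by
  have := tr_image_le_card (k := k) Y A
  rw [← trn_eq] at this
  exact_mod_cast this

theorem trn_union (Y : ι → K) (A B : Finset ι) : trn k Y (A ∪ B) ≤ trn k Y A + trn k Y B := by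
  have := tr_union (k := k) (Y '' (A : Set ι)) (Y '' (B : Set ι))
  rw [← Set.image_union, ← Finset.coe_union, ← trn_eq, ← trn_eq, ← trn_eq] at this
  exact_mod_cast this

theorem trn_mono (Y : ι → K) {A B : Finset ι} (h : A ⊆ B) : trn k Y A ≤ trn k Y B := by
  have := tr_mono (k := k) (Set.image_mono (f := Y) (Finset.coe_subset.mpr h))
  rw [← trn_eq, ← trn_eq] at this
  exact_mod_cast this

theorem trn_filter (Y : ι → K) (A : Finset ι) [DecidablePred fun i => Y i ≠ 0] :
    trn k Y A ≤ trn k Y (A.filter (fun i => Y i ≠ 0)) := by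
  have : tr k (Y '' (A : Set ι)) ≤ tr k (Y '' ((A.filter (fun i => Y i ≠ 0) : Finset ι) : Set ι)) := by
    apply tr_le_of_subset
    rintro _ ⟨i, hi, rfl⟩
    by_cases h : Y i = 0
    · rw [h]; exact zero_mem _
    · exact subset_adjoin k _ ⟨i, Finset.mem_coe.mpr (Finset.mem_filter.mpr ⟨hi, h⟩), rfl⟩
  rw [← trn_eq, ← trn_eq] at this
  exact_mod_cast this

theorem trn_sdiff (Y : ι → K) {A B : Finset ι} (h : B ⊆ A) :
    trn k Y A ≤ trn k Y B + (A.card - B.card) := by
  have h1 := trn_union (k := k) Y B (A \ B)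
  rw [Finset.union_sdiff_of_subset h] at h1
  have h2 := trn_le_card (k := k) Y (A \ B)
  rw [Finset.card_sdiff_of_subset h] at h2
  omega

end

variable (V : Type) [CommRing V] [IsDomain V] [ValuationRing V]
  {K : Type} [Field K] [Algebra V K] [IsFractionRing V K]
  {k : Type} [Field k] [Algebra k V] [Algebra k K] [IsScalarTower k V K]
  {W : Type} [AddCommGroup W] [Module k W] [FiniteDimensional k W]
  {ι : Type} [DecidableEq ι]

theorem trn_lev {v : ι → W} {N : Submodule k W} {G : Finset ι} {x c : ι → K}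
    (h : IsPair v N G x c) (hy : ∀ i ∈ G, c i * x i ^ 2 ∈ OO V K) {τ : K} (hτ : τ ≠ 0)
    (hne : (lev V G x c τ).Nonempty) :
    trn k (fun i => res V (c i * x i ^ 2)) (lev V G x c τ) + 1 ≤ (lev V G x c τ).card := by
  have := tr_lev V h hy hτ hne
  rw [← trn_eq] at this
  exact_mod_cast this

/-- if the residues of the `y i`, `i ≠ e`, have the maximal possible transcendence degree, then all
`x i`, `c i` are units -/
theorem all_units {v : ι → W} {N : Submodule k W} {G : Finset ι} {x c : ι → K}
    (h : IsPair v N G x c) (hy : ∀ i ∈ G, c i * x i ^ 2 ∈ OO V K) {f e : ι}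
    (hf : f ∈ G.erase e) (hxf : x f = 1) (hye : res V (c e * x e ^ 2) = 0)
    (h2 : 2 ≤ (G.erase e).card)
    (htr : (G.erase e).card ≤ trn k (fun i => res V (c i * x i ^ 2)) (G.erase e) + 1) :
    ∀ i ∈ G.erase e, (x i ∈ OO V K ∧ res V (x i) ≠ 0) ∧ (c i ∈ OO V K ∧ res V (c i) ≠ 0) := by
  classical
  set Y : ι → ResidueField V := fun i => res V (c i * x i ^ 2) with hY
  set S := (G.erase e).filter (fun i => Y i ≠ 0) with hS
  have hSG : S ⊆ G.erase e := Finset.filter_subset _ _
  have hlevS : ∀ τ, lev V G x c τ ⊆ S := by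
    intro τ i hi
    have hi' := (mem_lev V).mp hi
    rw [hS, Finset.mem_filter, Finset.mem_erase]
    refine ⟨⟨?_, hi'.1⟩, hi'.2.1⟩
    rintro rfl
    exact hi'.2.1 hye
  have h1 := trn_filter (k := k) Y (G.erase e)
  rw [← hS] at h1
  have hx0 : ∀ i ∈ S, x i ≠ 0 := by
    intro i hi h0
    have := (Finset.mem_filter.mp hi).2
    apply this
    simp [hY, h0, res_zero]
  have hself : ∀ i ∈ S, i ∈ lev V G x c (x i) := by
    intro i hi
    rw [mem_lev]
    refine ⟨Finset.mem_of_mem_erase (hSG hi), (Finset.mem_filter.mp hi).2, ?_, ?_⟩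
    · rw [div_self (hx0 i hi)]; exact one_mem _
    · rw [div_self (hx0 i hi), res_one]; exact one_ne_zero
  have hbound : ∀ i ∈ S, trn k Y (lev V G x c (x i)) + 1 ≤ (lev V G x c (x i)).card :=
    fun i hi => trn_lev V h hy (hx0 i hi) ⟨i, hself i hi⟩
  -- S is nonempty
  have hSne : S.Nonempty := by
    by_contra hne
    rw [Finset.not_nonempty_iff_eq_empty] at hne
    rw [hne] at h1
    have := trn_le_card (k := k) Y ∅
    rw [Finset.card_empty] at this
    omega
  have hScard : S = G.erase e := by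
    apply Finset.eq_of_subset_of_card_le hSG
    obtain ⟨j, hj⟩ := hSne
    have h3 := hbound j hj
    have h4 := trn_sdiff (k := k) Y (hlevS (x j))
    have h5 := Finset.card_le_card (hlevS (x j))
    omega
  have hfS : f ∈ S := by rw [hScard]; exact hf
  have hall : lev V G x c (x f) = S := by
    by_contra hne
    obtain ⟨j, hjS, hj⟩ := Finset.exists_of_ssubset (Finset.ssubset_iff_subset_ne.mpr
      ⟨hlevS (x f), hne⟩)
    have hdis : Disjoint (lev V G x c (x f)) (lev V G x c (x j)) := by
      rw [Finset.disjoint_left]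
      intro i hi hi'
      apply hj
      rw [mem_lev] at hi hi' ⊢
      refine ⟨Finset.mem_of_mem_erase (hSG hjS), (Finset.mem_filter.mp hjS).2, ?_⟩
      have hxi : x i ≠ 0 := by
        intro h0
        apply hi.2.2.2
        rw [h0, zero_div, res_zero]
      have hxj := hx0 j hjS
      have e1 : x j / x f = (x i / x f) * (x i / x j)⁻¹ := by
        rw [hxf]; field_simp
      have e2 := inv_mem_of_res V hi'.2.2.1 hi'.2.2.2
      have e3 := res_inv V hi'.2.2.1 hi'.2.2.2
      constructor
      · rw [e1]; exact mul_mem hi.2.2.1 e2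
      · rw [e1, res_mul V hi.2.2.1 e2, e3]
        exact mul_ne_zero hi.2.2.2 (inv_ne_zero hi'.2.2.2)
    have h3 := hbound j hjS
    have h4 := hbound f hfS
    have h5 := trn_union (k := k) Y (lev V G x c (x f)) (lev V G x c (x j))
    have h6 := trn_sdiff (k := k) Y (Finset.union_subset (hlevS (x f)) (hlevS (x j)))
    have h7 := Finset.card_union_of_disjoint hdis
    have h8 := Finset.card_le_card (Finset.union_subset (hlevS (x f)) (hlevS (x j)))
    rw [hScard] at *
    omega
  intro i hi
  have hi' : i ∈ lev V G x c (x f) := by rw [hall, hScard]; exact hi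
  rw [mem_lev, hxf, div_one] at hi'
  refine ⟨hi'.2.2, ?_⟩
  have hxi : x i ≠ 0 := by
    intro h0
    apply hi'.2.2.2
    rw [h0, res_zero]
  have e1 : c i = (c i * x i ^ 2) * ((x i)⁻¹) ^ 2 := by field_simp
  have e2 := inv_mem_of_res V hi'.2.2.1 hi'.2.2.2
  have e3 := res_inv V hi'.2.2.1 hi'.2.2.2
  constructor
  · rw [e1]; exact mul_mem (hy i hi'.1) (pow_mem e2 2)
  · rw [e1, res_mul V (hy i hi'.1) (pow_mem e2 2), res_pow V e2, e3]
    exact mul_ne_zero hi'.2.1 (pow_ne_zero 2 (inv_ne_zero hi'.2.2.2))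

end K1H20.RL
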