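import Pool.Agent.K1H20.RL.LinTR

set_option linter.unusedSectionVars false

namespace K1H20.RL

open Module IntermediateField IsLocalRing

section Res

variable (V : Type) [CommRing V] [IsDomain V] [ValuationRing V]
  {K : Type} [Field K] [Algebra V K] [IsFractionRing V K]

/-- the valuation ring inside its fraction field -/
def OO (K : Type) [Field K] [Algebra V K] : Subring K := (algebraMap V K).range

open Classical in
/-- the residue of an element of the fraction field (`0` if not integral) -/
noncomputable def res (u : K) : ResidueField V :=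
  if h : ∃ a : V, algebraMap V K a = u then residue V (Classical.choose h) else 0

theorem mem_OO {u : K} : u ∈ OO V K ↔ ∃ a : V, algebraMap V K a = u := Iff.rfl

theorem res_map (a : V) : res V (algebraMap V K a) = residue V a := by
  have h : ∃ b : V, algebraMap V K b = algebraMap V K a := ⟨a, rfl⟩
  unfold res
  rw [dif_pos h]
  congr 1
  exact IsFractionRing.injective V K (Classical.choose_spec h)

theorem res_add {a b : K} (ha : a ∈ OO V K) (hb : b ∈ OO V K) :
    res V (a + b) = res V a + res V b := by
  obtain ⟨a, rfl⟩ := ha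
  obtain ⟨b, rfl⟩ := hb
  rw [← map_add, res_map, res_map, res_map, map_add]

theorem res_mul {a b : K} (ha : a ∈ OO V K) (hb : b ∈ OO V K) :
    res V (a * b) = res V a * res V b := by
  obtain ⟨a, rfl⟩ := ha
  obtain ⟨b, rfl⟩ := hb
  rw [← map_mul, res_map, res_map, res_map, map_mul]

theorem res_zero : res V (0 : K) = 0 := by
  rw [← map_zero (algebraMap V K), res_map, map_zero]

theorem res_one : res V (1 : K) = 1 := by
  rw [← map_one (algebraMap V K), res_map, map_one]

theorem res_pow {a : K} (ha : a ∈ OO V K) (n : ℕ) : res V (a ^ n) = res V a ^ n := by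
  induction n with
  | zero => simp [res_one]
  | succ n ih => rw [pow_succ, res_mul V (pow_mem ha n) ha, ih, pow_succ]

theorem res_sum {ι : Type} (s : Finset ι) {f : ι → K} (h : ∀ i ∈ s, f i ∈ OO V K) :
    res V (∑ i ∈ s, f i) = ∑ i ∈ s, res V (f i) := by
  classical
  induction s using Finset.induction_on with
  | empty => simp [res_zero]
  | insert a s ha ih =>
    rw [Finset.sum_insert ha, Finset.sum_insert ha,
      res_add V (h a (Finset.mem_insert_self a s))
        (Subring.sum_mem _ fun i hi => h i (Finset.mem_insert_of_mem hi)),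
      ih fun i hi => h i (Finset.mem_insert_of_mem hi)]

theorem mem_or_inv_mem (u : K) : u ∈ OO V K ∨ u⁻¹ ∈ OO V K := by
  rcases ValuationRing.isInteger_or_isInteger V u with h | h
  · exact Or.inl h
  · exact Or.inr h

/-- an integral element with nonzero residue is a unit -/
theorem inv_mem_of_res {u : K} (hu : u ∈ OO V K) (h : res V u ≠ 0) : u⁻¹ ∈ OO V K := by
  obtain ⟨a, rfl⟩ := hu
  rw [res_map, residue_ne_zero_iff_isUnit] at h
  obtain ⟨a, rfl⟩ := h
  refine ⟨(a⁻¹ : Vˣ), ?_⟩
  rw [map_units_inv]

theorem res_ne_zero_of_inv {u : K} (hu : u ∈ OO V K) (h : u⁻¹ ∈ OO V K) (h0 : u ≠ 0) :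
    res V u ≠ 0 := by
  intro h1
  have : res V (u * u⁻¹) = 1 := by rw [mul_inv_cancel₀ h0, res_one]
  rw [res_mul V hu h, h1, zero_mul] at this
  exact zero_ne_one this

theorem inv_mem_res_of_not_mem {u : K} (hu : u ∉ OO V K) : u⁻¹ ∈ OO V K ∧ res V u⁻¹ = 0 := by
  have h1 := (mem_or_inv_mem V u).resolve_left hu
  refine ⟨h1, ?_⟩
  by_contra h2
  exact hu (by simpa using inv_mem_of_res V h1 h2)

theorem res_inv {u : K} (hu : u ∈ OO V K) (h : res V u ≠ 0) : res V u⁻¹ = (res V u)⁻¹ := by
  have h1 := inv_mem_of_res V hu h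
  have h0 : u ≠ 0 := by rintro rfl; exact h (res_zero V)
  have : res V (u * u⁻¹) = 1 := by rw [mul_inv_cancel₀ h0, res_one]
  rw [res_mul V hu h1] at this
  exact eq_inv_of_mul_eq_one_right this

variable {k : Type} [Field k] [Algebra k V] [Algebra k K] [IsScalarTower k V K]

theorem algebraMap_mem_OO (a : k) : algebraMap k K a ∈ OO V K :=
  ⟨algebraMap k V a, (IsScalarTower.algebraMap_apply k V K a).symm⟩

theorem res_algebraMap (a : k) : res V (algebraMap k K a) = algebraMap k (ResidueField V) a := by
  rw [IsScalarTower.algebraMap_apply k V K, res_map]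
  rfl

theorem smul_mem_OO (a : k) {u : K} (hu : u ∈ OO V K) : a • u ∈ OO V K := by
  rw [Algebra.smul_def]
  exact mul_mem (algebraMap_mem_OO V a) hu

theorem res_smul (a : k) {u : K} (hu : u ∈ OO V K) : res V (a • u) = a • res V u := by
  rw [Algebra.smul_def, res_mul V (algebraMap_mem_OO V a) hu, res_algebraMap, Algebra.smul_def]

end Res

end K1H20.RL
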