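import Pool.Agent.K1H20.RL.Base
import Pool.Agent.K1H20.RL.TrY

set_option linter.unusedSectionVars false
set_option linter.style.haveILetI false

namespace K1H20.RL

open Module IntermediateField IsLocalRing Pool.Agent.Helper766.Rad

variable {k : Type} [Field k] {W : Type} [AddCommGroup W] [Module k W] [FiniteDimensional k W]
  {ι : Type} [DecidableEq ι] {v : ι → W} {f : ι} {N : Submodule k W} {G : Finset ι}
  {K : Type} [Field K] [Algebra k K] {x c : ι → K}

theorem adap_top {σ : Type} [Fintype σ] {z : σ → K} {π : K} (hA : Adap k G x c σ z π)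
    (htop : adjoin k (x '' (G : Set ι) ∪ c '' (G : Set ι)) = ⊤) :
    adjoin k (Set.range z ∪ {π}) = ⊤ := by
  rw [eq_top_iff, ← htop, adjoin_le_iff]
  have h1 : ∀ a ∈ Submodule.span k ({1, π} ∪ Set.range z), a ∈ adjoin k (Set.range z ∪ {π}) := by
    intro a ha
    induction ha using Submodule.span_induction with
    | mem a ha =>
      rcases ha with (rfl | ha) | ha
      · exact one_mem _
      · exact subset_adjoin k _ (Or.inr ha)
      · exact subset_adjoin k _ (Or.inl ha)
    | zero => exact zero_mem _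
    | add a b _ _ ha hb => exact add_mem ha hb
    | smul r a _ ha => exact IntermediateField.smul_mem _ ha
  rintro a (⟨i, hi, rfl⟩ | ⟨i, hi, rfl⟩)
  · exact h1 _ (hA.xs i hi)
  · exact h1 _ (hA.cs i hi)

section V

variable (V : Type) [CommRing V] [IsDomain V] [ValuationRing V] [Algebra V K] [IsFractionRing V K]
  [Algebra k V] [IsScalarTower k V K]

theorem adap_ai {σ : Type} [Fintype σ] {z : σ → K} {π : K} (hA : Adap k G x c σ z π)
    (hx : ∀ i ∈ G, x i ∈ OO V K) (hc : ∀ i ∈ G, c i ∈ OO V K) (hπ : π ∈ OO V K)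
    (hπ0 : res V π = 0) {e : ι} (he : e ∈ G)
    (htr : ((G.erase e).card : ℕ∞) ≤
      tr k ((fun i => res V (c i * x i ^ 2)) '' ((G.erase e : Finset ι) : Set ι)) + 1) :
    (∀ j, z j ∈ OO V K) ∧ AlgebraicIndependent k (fun j => res V (z j)) := by
  have hz : ∀ j, z j ∈ OO V K := fun j => (res_span V (by
    rintro a (⟨i, hi, rfl⟩ | ⟨i, hi, rfl⟩)
    · exact hx i hi
    · exact hc i hi) (hA.zs j)).1
  refine ⟨hz, ?_⟩
  apply algInd_of_le_tr
  set M := adjoin k (Set.range (fun j => res V (z j))) with hM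
  have h1 : ∀ a ∈ ({1, π} ∪ Set.range z : Set K), a ∈ OO V K := by
    rintro a ((rfl | ha) | ⟨j, rfl⟩)
    · exact one_mem _
    · rw [Set.mem_singleton_iff] at ha; rw [ha]; exact hπ
    · exact hz j
  have h2 : ∀ a ∈ Submodule.span k ({1, π} ∪ Set.range z), res V a ∈ M := by
    intro a ha
    have h3 := span_le_adjoin _ (res_span V h1 ha).2
    have h4 : adjoin k (res V '' ({1, π} ∪ Set.range z)) ≤ M := by
      rw [adjoin_le_iff]
      rintro _ ⟨b, (rfl | hb) | ⟨j, rfl⟩, rfl⟩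
      · rw [res_one]; exact one_mem M
      · rw [Set.mem_singleton_iff] at hb; rw [hb, hπ0]; exact zero_mem M
      · exact subset_adjoin k _ ⟨j, rfl⟩
    exact h4 h3
  have hG : ∀ i ∈ G.erase e, i ∈ G := fun i hi => Finset.mem_of_mem_erase hi
  have h5 : tr k ((fun i => res V (c i * x i ^ 2)) '' ((G.erase e : Finset ι) : Set ι)) ≤
      tr k (Set.range (fun j => res V (z j))) := by
    apply tr_le_of_subset
    rintro _ ⟨i, hi, rfl⟩
    have hi' := hG i hi
    change res V (c i * x i ^ 2) ∈ M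
    rw [(res_yy V hx hc i hi').2]
    exact mul_mem (h2 _ (hA.cs i hi')) (pow_mem (h2 _ (hA.xs i hi')) 2)
  have h6 := hA.card
  have h7 := Finset.card_erase_add_one he
  have h8 : (Fintype.card σ : ℕ∞) + 1 = ((G.erase e).card : ℕ∞) := by exact_mod_cast (by omega)
  have h9 := htr.trans (add_le_add_left h5 1)
  rw [← h8] at h9
  exact (ENat.add_le_add_iff_right (by simp)).mp h9

/-- structure of the place -/
theorem adap_place {σ : Type} [Fintype σ] {z : σ → K} {π : K} (hA : Adap k G x c σ z π)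
    (h : IsPair v N G x c) (hc2 : Conn (rf v N) G) (h2 : 2 ≤ G.card)
    (htop : adjoin k (x '' (G : Set ι) ∪ c '' (G : Set ι)) = ⊤)
    (hx : ∀ i ∈ G, x i ∈ OO V K) (hc : ∀ i ∈ G, c i ∈ OO V K) (hπ : π ∈ OO V K)
    (hπ0 : res V π = 0) (hπne : π ≠ 0) {e : ι} (he : e ∈ G)
    (htr : ((G.erase e).card : ℕ∞) ≤
      tr k ((fun i => res V (c i * x i ^ 2)) '' ((G.erase e : Finset ι) : Set ι)) + 1) :
    (∃ ϖ : V, algebraMap V K ϖ = π ∧ maximalIdeal V = Ideal.span {ϖ}) ∧
    adjoin k ((fun i => res V (x i)) '' ((G.erase e : Finset ι) : Set ι) ∪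
        (fun i => res V (c i)) '' ((G.erase e : Finset ι) : Set ι)) = ⊤ ∧
    ∀ u : K, (u ∈ OO V K ∧ res V u = 0) ↔ (u = 0 ∨ ∃ n : ℕ, 1 ≤ n ∧ GP k z π u n) := by
  obtain ⟨hz, hai⟩ := adap_ai V hA hx hc hπ hπ0 he htr
  have htop' := adap_top hA htop
  choose ζ hζ using hz
  obtain ⟨ϖ, hϖ⟩ := hπ
  have hϖ0 : residue V ϖ = 0 := by rw [← res_map V (K := K), hϖ, hπ0]
  have hϖne : ϖ ≠ 0 := by rintro rfl; exact hπne (by rw [← hϖ, map_zero])
  have e1 : z = fun j => algebraMap V K (ζ j) := funext fun j => (hζ j).symm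
  have hζai : AlgebraicIndependent k (fun j => residue V (ζ j)) := by
    have : (fun j => residue V (ζ j)) = fun j => res V (z j) := by
      funext j; rw [← hζ j, res_map]
    rw [this]; exact hai
  have htop2 : adjoin k (Set.range (fun j => algebraMap V K (ζ j)) ∪ {algebraMap V K ϖ}) = ⊤ := by
    rw [← e1, hϖ]; exact htop'
  refine ⟨⟨ϖ, hϖ, maximalIdeal_eq (K := K) hϖ0 hϖne hζai htop2⟩, ?_, ?_⟩
  · have h3 := residueField_eq (K := K) hϖ0 hϖne hζai htop2
    rw [eq_top_iff, ← h3, adjoin_le_iff]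
    rintro _ ⟨j, rfl⟩
    have h4 := (res_span V (s := x '' (G : Set ι) ∪ c '' (G : Set ι)) (by
      rintro a (⟨i, hi, rfl⟩ | ⟨i, hi, rfl⟩)
      · exact hx i hi
      · exact hc i hi) (hA.zs j)).2
    have h5 := span_le_adjoin _ h4
    have h6 : adjoin k (res V '' (x '' (G : Set ι) ∪ c '' (G : Set ι))) ≤
      adjoin k ((fun i => res V (x i)) '' ((G.erase e : Finset ι) : Set ι) ∪
        (fun i => res V (c i)) '' ((G.erase e : Finset ι) : Set ι)) :=
      adjoin_le_iff.mpr (res_erase V h hc2 h2 hx hc he)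
    have h7 := h6 h5
    rw [← hζ j, res_map] at h7
    exact h7
  · intro u
    have := mem_max_iff (K := K) hϖ0 hϖne hζai htop2 u
    rw [← e1, hϖ] at this
    exact this

end V

end K1H20.RL
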